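import Pool.Agent.Lib.MP_c23581_co.Masks

/-!
# Acyclicity: cones, Mayer-Vietoris, non-evasiveness certificates
-/

set_option autoImplicit false

namespace Pool.Agent.Lib.MP_c23581_co

open Finset

section Chains

variable {𝕜 : Type*} [CommRing 𝕜] {n : ℕ}

/-- the sign of the vertex `v` with respect to `ρ` -/
def sg (𝕜 : Type*) [CommRing 𝕜] {n : ℕ} (v : Fin n) (ρ : Finset (Fin n)) : 𝕜 :=
  (-1) ^ (ρ.filter (· < v)).card

lemma boundary_apply (c : Finset (Fin n) → 𝕜) (ρ : Finset (Fin n)) :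
    boundary c ρ = ∑ v ∈ ρᶜ, sg 𝕜 v ρ * c (insert v ρ) := rfl

lemma sg_sq (v : Fin n) (ρ : Finset (Fin n)) : sg 𝕜 v ρ * sg 𝕜 v ρ = 1 := by
  unfold sg
  rw [← mul_pow]; simp

lemma sg_insert_lt {v w : Fin n} {ρ : Finset (Fin n)} (hv : v ∉ ρ) (h : v < w) :
    sg 𝕜 w (insert v ρ) = - sg 𝕜 w ρ := by
  unfold sg
  rw [filter_insert, if_pos h, card_insert_of_notMem, pow_succ]
  · ring
  · simp [hv]

lemma sg_insert_not_lt {v w : Fin n} {ρ : Finset (Fin n)} (h : ¬ v < w) :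
    sg 𝕜 w (insert v ρ) = sg 𝕜 w ρ := by
  unfold sg
  rw [filter_insert, if_neg h]

lemma sg_swap {v w : Fin n} {ρ : Finset (Fin n)} (hv : v ∉ ρ) (hw : w ∉ ρ) (h : v ≠ w) :
    sg 𝕜 w (insert v ρ) * sg 𝕜 v (insert w ρ) = - (sg 𝕜 w ρ * sg 𝕜 v ρ) := by
  rcases lt_or_gt_of_ne h with h1 | h1
  · rw [sg_insert_lt hv h1, sg_insert_not_lt (not_lt.2 h1.le)]; ring
  · rw [sg_insert_lt hw h1, sg_insert_not_lt (not_lt.2 h1.le)]; ring

lemma boundary_add (a b : Finset (Fin n) → 𝕜) : boundary (a + b) = boundary a + boundary b := by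
  funext ρ
  simp only [boundary_apply, Pi.add_apply, mul_add, sum_add_distrib]

lemma boundary_sub (a b : Finset (Fin n) → 𝕜) : boundary (a - b) = boundary a - boundary b := by
  funext ρ
  simp only [boundary_apply, Pi.sub_apply, mul_sub, sum_sub_distrib]

lemma boundary_boundary (c : Finset (Fin n) → 𝕜) : boundary (boundary c) = 0 := by
  funext ρ
  have h1 : boundary (boundary c) ρ = ∑ p ∈ (ρᶜ ×ˢ ρᶜ).filter (fun p => p.1 ≠ p.2),
      sg 𝕜 p.1 ρ * (sg 𝕜 p.2 (insert p.1 ρ) * c (insert p.2 (insert p.1 ρ))) := by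
    rw [sum_filter, sum_product, boundary_apply]
    refine sum_congr rfl (fun v hv => ?_)
    rw [boundary_apply, mul_sum, ← sum_filter]
    refine sum_congr ?_ (fun w _ => rfl)
    ext w
    simp only [mem_compl, mem_insert, mem_filter, not_or]
    constructor
    · rintro ⟨h, h'⟩; exact ⟨h', fun e => h e.symm⟩
    · rintro ⟨h, h'⟩; exact ⟨fun e => h' e.symm, h⟩
  rw [h1]
  refine sum_involution (fun p _ => (p.2, p.1)) ?_ ?_ ?_ ?_
  · rintro ⟨v, w⟩ hp
    simp only [mem_filter, mem_product, mem_compl] at hp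
    obtain ⟨⟨hv, hw⟩, hne⟩ := hp
    simp only
    have h2 := sg_swap (𝕜 := 𝕜) hv hw hne
    have e1 : sg 𝕜 v ρ * sg 𝕜 w (insert v ρ) = - (sg 𝕜 w ρ * sg 𝕜 v (insert w ρ)) := by
      have a1 := sg_sq (𝕜 := 𝕜) v (insert w ρ)
      have a2 := sg_sq (𝕜 := 𝕜) v ρ
      calc sg 𝕜 v ρ * sg 𝕜 w (insert v ρ)
          = sg 𝕜 v ρ * (sg 𝕜 w (insert v ρ) * sg 𝕜 v (insert w ρ)) * sg 𝕜 v (insert w ρ) := by
            rw [mul_assoc, mul_assoc, a1, mul_one]
        _ = - (sg 𝕜 w ρ * sg 𝕜 v (insert w ρ)) * (sg 𝕜 v ρ * sg 𝕜 v ρ) := by rw [h2]; ring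
        _ = _ := by rw [a2, mul_one]
    rw [← mul_assoc, ← mul_assoc, e1, insert_comm w v ρ]
    ring
  · rintro ⟨v, w⟩ hp _
    simp only [mem_filter, mem_product, mem_compl] at hp
    intro h
    simp only [Prod.mk.injEq] at h
    exact hp.2 h.2
  · rintro ⟨v, w⟩ hp
    simp only [mem_filter, mem_product, mem_compl] at hp ⊢
    exact ⟨⟨hp.1.2, hp.1.1⟩, fun h => hp.2 h.symm⟩
  · rintro ⟨v, w⟩ _; rfl

/-- `c` is supported on `K` -/
def Supp (K : Finset (Finset (Fin n))) (c : Finset (Fin n) → 𝕜) : Prop := ∀ σ, c σ ≠ 0 → σ ∈ K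

/-- ungraded version of acyclicity -/
def AcyclicU (𝕜 : Type*) [CommRing 𝕜] {n : ℕ} (K : Finset (Finset (Fin n))) : Prop :=
  ∀ c : Finset (Fin n) → 𝕜, Supp K c → boundary c = 0 → ∃ b, Supp K b ∧ boundary b = c

lemma acyclic_of_acyclicU {K : Finset (Finset (Fin n))} (h : AcyclicU 𝕜 K) : Acyclic 𝕜 K := by
  intro m c hc hb
  obtain ⟨b, hb1, hb2⟩ := h c (fun σ hσ => (hc σ hσ).1) hb
  refine ⟨fun σ => if σ.card = m + 1 then b σ else 0, ?_, ?_⟩
  · intro σ hσ
    by_cases h1 : σ.card = m + 1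
    · simp only [h1, if_true] at hσ
      exact ⟨hb1 σ hσ, h1⟩
    · simp [h1] at hσ
  · funext ρ
    rw [boundary_apply]
    by_cases h1 : ρ.card = m
    · rw [← hb2, boundary_apply]
      refine sum_congr rfl (fun v hv => ?_)
      rw [mem_compl] at hv
      rw [card_insert_of_notMem hv, h1, if_pos rfl]
    · have h2 : c ρ = 0 := by
        by_contra h3
        exact h1 (hc ρ h3).2
      rw [h2]
      refine sum_eq_zero (fun v hv => ?_)
      rw [mem_compl] at hv
      rw [card_insert_of_notMem hv, if_neg (by omega), mul_zero]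

/-- a cone is acyclic -/
lemma acyclicU_cone {K : Finset (Finset (Fin n))} (v : Fin n) (h : ∀ ρ ∈ K, insert v ρ ∈ K) :
    AcyclicU 𝕜 K := by
  intro c hc hb
  refine ⟨fun σ => if v ∈ σ then sg 𝕜 v (σ.erase v) * c (σ.erase v) else 0, ?_, ?_⟩
  · intro σ hσ
    by_cases hv : v ∈ σ
    · simp only [hv, if_true] at hσ
      have h1 : c (σ.erase v) ≠ 0 := right_ne_zero_of_mul hσ
      have h2 := h _ (hc _ h1)
      rwa [insert_erase hv] at h2
    · simp [hv] at hσ
  · funext ρ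
    rw [boundary_apply]
    by_cases hv : v ∈ ρ
    · -- `ρ = insert v ρ₀`
      obtain ⟨ρ₀, hρ₀, rfl⟩ : ∃ ρ₀, v ∉ ρ₀ ∧ ρ = insert v ρ₀ :=
        ⟨ρ.erase v, notMem_erase v ρ, (insert_erase hv).symm⟩
      have h0 : boundary c ρ₀ = 0 := by rw [hb]; rfl
      rw [boundary_apply] at h0
      have h1 : ρ₀ᶜ = insert v (insert v ρ₀)ᶜ := by
        ext w
        simp only [mem_compl, mem_insert, not_or]
        constructor
        · intro hw
          by_cases h : w = v
          · exact Or.inl h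
          · exact Or.inr ⟨h, hw⟩
        · rintro (rfl | h)
          · exact hρ₀
          · exact h.2
      rw [h1, sum_insert (by simp)] at h0
      have h2 : ∀ w ∈ (insert v ρ₀)ᶜ, sg 𝕜 w (insert v ρ₀) *
          (if v ∈ insert w (insert v ρ₀) then sg 𝕜 v ((insert w (insert v ρ₀)).erase v) *
            c ((insert w (insert v ρ₀)).erase v) else 0) =
          - sg 𝕜 v ρ₀ * (sg 𝕜 w ρ₀ * c (insert w ρ₀)) := by
        intro w hw
        simp only [mem_compl, mem_insert, not_or] at hw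
        rw [if_pos (by simp)]
        have e1 : (insert w (insert v ρ₀)).erase v = insert w ρ₀ := by
          ext x
          simp only [mem_erase, mem_insert]
          constructor
          · rintro ⟨hx, hx1 | hx1 | hx1⟩
            · exact Or.inl hx1
            · exact absurd hx1 hx
            · exact Or.inr hx1
          · rintro (hx1 | hx1)
            · exact ⟨fun e => hw.1 (hx1.symm.trans e), Or.inl hx1⟩
            · refine ⟨?_, Or.inr (Or.inr hx1)⟩
              intro e; rw [e] at hx1; exact hρ₀ hx1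
        rw [e1, ← mul_assoc, sg_swap hρ₀ hw.2 (fun e => hw.1 e.symm)]
        ring
      rw [sum_congr rfl h2, ← mul_sum]
      have h3 : ∑ w ∈ (insert v ρ₀)ᶜ, sg 𝕜 w ρ₀ * c (insert w ρ₀) =
          - (sg 𝕜 v ρ₀ * c (insert v ρ₀)) := by
        rw [eq_neg_iff_add_eq_zero, add_comm]; exact h0
      rw [h3]
      have := sg_sq (𝕜 := 𝕜) v ρ₀
      linear_combination (c (insert v ρ₀)) * this
    · rw [sum_eq_single v]
      · rw [if_pos (mem_insert_self _ _), erase_insert hv, ← mul_assoc, sg_sq, one_mul]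
      · intro w hw hne
        rw [if_neg, mul_zero]
        simp only [mem_insert, not_or]
        exact ⟨fun e => hne e.symm, hv⟩
      · intro h
        simp only [mem_compl, not_not] at h
        exact absurd h hv

lemma supp_boundary {K : Finset (Finset (Fin n))} (hK : ∀ τ ∈ K, ∀ σ ⊆ τ, σ ∈ K)
    {c : Finset (Fin n) → 𝕜} (hc : Supp K c) : Supp K (boundary c) := by
  intro ρ hρ
  rw [boundary_apply] at hρ
  obtain ⟨v, _, hv⟩ := exists_ne_zero_of_sum_ne_zero hρ
  exact hK _ (hc _ (right_ne_zero_of_mul hv)) _ (subset_insert _ _)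

/-- Mayer-Vietoris -/
lemma acyclicU_union {K₁ K₂ : Finset (Finset (Fin n))} (h₁ : ∀ τ ∈ K₁, ∀ σ ⊆ τ, σ ∈ K₁)
    (h₂ : ∀ τ ∈ K₂, ∀ σ ⊆ τ, σ ∈ K₂) (a₁ : AcyclicU 𝕜 K₁) (a₂ : AcyclicU 𝕜 K₂)
    (a₁₂ : AcyclicU 𝕜 (K₁ ∩ K₂)) : AcyclicU 𝕜 (K₁ ∪ K₂) := by
  classical
  intro c hc hb
  set c₁ : Finset (Fin n) → 𝕜 := fun σ => if σ ∈ K₁ then c σ else 0 with hc₁
  set c₂ : Finset (Fin n) → 𝕜 := fun σ => if σ ∈ K₁ then 0 else c σ with hc₂
  have hs : c₁ + c₂ = c := by
    funext σ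
    simp only [hc₁, hc₂, Pi.add_apply]
    split_ifs <;> simp
  have s₁ : Supp K₁ c₁ := by
    intro σ hσ
    simp only [hc₁] at hσ
    by_contra h; simp [h] at hσ
  have s₂ : Supp K₂ c₂ := by
    intro σ hσ
    simp only [hc₂] at hσ
    by_cases h : σ ∈ K₁
    · simp [h] at hσ
    · simp only [h, if_false] at hσ
      have := hc σ hσ
      rw [mem_union] at this
      exact this.resolve_left h
  have hb12 : boundary c₁ = - boundary c₂ := by
    rw [eq_neg_iff_add_eq_zero, ← boundary_add, hs, hb]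
  have hz : Supp (K₁ ∩ K₂) (boundary c₁) := by
    intro σ hσ
    rw [mem_inter]
    refine ⟨supp_boundary h₁ s₁ σ hσ, supp_boundary h₂ s₂ σ ?_⟩
    rw [hb12] at hσ
    intro h; apply hσ; simp [h]
  obtain ⟨y, hy1, hy2⟩ := a₁₂ _ hz (boundary_boundary c₁)
  have sy1 : Supp K₁ y := fun σ hσ => (mem_inter.1 (hy1 σ hσ)).1
  have sy2 : Supp K₂ y := fun σ hσ => (mem_inter.1 (hy1 σ hσ)).2
  obtain ⟨f₁, hf1, hf1'⟩ := a₁ (c₁ - y) (by
    intro σ hσ
    by_contra h
    have e1 : c₁ σ = 0 := by by_contra h'; exact h (s₁ σ h')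
    have e2 : y σ = 0 := by by_contra h'; exact h (sy1 σ h')
    apply hσ; simp [e1, e2]) (by rw [boundary_sub, hy2, sub_self])
  obtain ⟨f₂, hf2, hf2'⟩ := a₂ (c₂ + y) (by
    intro σ hσ
    by_contra h
    have e1 : c₂ σ = 0 := by by_contra h'; exact h (s₂ σ h')
    have e2 : y σ = 0 := by by_contra h'; exact h (sy2 σ h')
    apply hσ; simp [e1, e2]) (by rw [boundary_add, hy2, hb12]; simp)
  refine ⟨f₁ + f₂, ?_, ?_⟩
  · intro σ hσ
    rw [mem_union]
    by_contra h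
    push Not at h
    have e1 : f₁ σ = 0 := by by_contra h'; exact h.1 (hf1 σ h')
    have e2 : f₂ σ = 0 := by by_contra h'; exact h.2 (hf2 σ h')
    apply hσ; simp [e1, e2]
  · rw [boundary_add, hf1', hf2', ← hs]; ring

end Chains

/-! ### Certificates -/

/-- remove the vertices of the mask `b` from `F` -/
def clr (b F : ℕ) : ℕ := Nat.xor F (Nat.land F b)

lemma testBit_clr {b F i : ℕ} : (clr b F).testBit i = (F.testBit i && !b.testBit i) := by
  have : clr b F = F ^^^ (F &&& b) := rfl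
  rw [this, Nat.testBit_xor, Nat.testBit_and]
  cases F.testBit i <;> cases b.testBit i <;> rfl

/-- generators of the link -/
def lnkM (b : ℕ) (L : List ℕ) : List ℕ := mapR (clr b) (filterR (sub b) L)

/-- generators of the deletion -/
def delM (b : ℕ) (L : List ℕ) : List ℕ := mapR (clr b) L

lemma dec_clr {n F : ℕ} (v : Fin n) : dec n (clr (2 ^ (v : ℕ)) F) = (dec n F).erase v := by
  ext i
  rw [mem_dec, testBit_clr, mem_erase, mem_dec, Nat.testBit_two_pow, Bool.and_eq_true]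
  simp only [Bool.not_eq_true', decide_eq_false_iff_not, ne_eq, Fin.ext_iff]
  constructor
  · rintro ⟨h1, h2⟩; exact ⟨fun h => h2 h.symm, h1⟩
  · rintro ⟨h1, h2⟩; exact ⟨h2, fun h => h1 h.symm⟩

lemma sub_two_pow {n F : ℕ} (v : Fin n) : sub (2 ^ (v : ℕ)) F = true ↔ v ∈ dec n F := by
  rw [sub_iff_testBit, mem_dec]
  constructor
  · intro h; exact h v (by rw [Nat.testBit_two_pow]; simp)
  · intro h i hi
    rw [Nat.testBit_two_pow, decide_eq_true_eq] at hi
    rw [← hi]; exact h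

lemma mem_cx_lnkM {n : ℕ} {L : List ℕ} (v : Fin n) (ρ : Finset (Fin n)) :
    ρ ∈ cx n (lnkM (2 ^ (v : ℕ)) L) ↔ v ∉ ρ ∧ insert v ρ ∈ cx n L := by
  rw [mem_cx, mem_cx]
  simp only [lnkM, mapR_eq, filterR_eq, List.mem_map, List.mem_filter]
  constructor
  · rintro ⟨F, ⟨G, ⟨hG, hv⟩, rfl⟩, hρ⟩
    rw [dec_clr, subset_erase] at hρ
    rw [sub_two_pow] at hv
    exact ⟨hρ.2, G, hG, insert_subset hv hρ.1⟩
  · rintro ⟨hv, G, hG, hρ⟩
    rw [insert_subset_iff] at hρ
    refine ⟨_, ⟨G, ⟨hG, (sub_two_pow v).2 hρ.1⟩, rfl⟩, ?_⟩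
    rw [dec_clr, subset_erase]
    exact ⟨hρ.2, hv⟩

lemma mem_cx_delM {n : ℕ} {L : List ℕ} (v : Fin n) (ρ : Finset (Fin n)) :
    ρ ∈ cx n (delM (2 ^ (v : ℕ)) L) ↔ v ∉ ρ ∧ ρ ∈ cx n L := by
  rw [mem_cx, mem_cx]
  simp only [delM, mapR_eq, List.mem_map]
  constructor
  · rintro ⟨F, ⟨G, hG, rfl⟩, hρ⟩
    rw [dec_clr, subset_erase] at hρ
    exact ⟨hρ.2, G, hG, hρ.1⟩
  · rintro ⟨hv, G, hG, hρ⟩
    refine ⟨_, ⟨G, hG, rfl⟩, ?_⟩
    rw [dec_clr, subset_erase]
    exact ⟨hρ, hv⟩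

/-- certificates of non-evasiveness -/
inductive Cert where
  /-- all generators contain the vertex `v` -/
  | cone (v : ℕ)
  /-- the complex is a cone with apex `v` and is generated by `W` -/
  | coneW (v : ℕ) (W : List ℕ)
  /-- link and deletion of `v` are certified -/
  | node (v : ℕ) (lk dl : Cert)

/-- certificate checker -/
noncomputable def chk (n : ℕ) (c : Cert) : List ℕ → Bool :=
  Cert.rec (motive := fun _ => List ℕ → Bool)
    (fun v L => Bool.rec false (allR (fun G => sub (Nat.pow 2 v) G) L) (Nat.ble (Nat.succ v) n))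
    (fun v W L => Bool.rec false
      (Bool.rec false (allR (fun H => anyR (fun G => sub H G) L) W)
        (allR (fun G => anyR (fun H => sub (Nat.lor G (Nat.pow 2 v)) H) W) L))
      (Nat.ble (Nat.succ v) n))
    (fun v _ _ ih1 ih2 L => Bool.rec false
      (Bool.rec false (ih2 (delM (Nat.pow 2 v) L)) (ih1 (lnkM (Nat.pow 2 v) L)))
      (Nat.ble (Nat.succ v) n)) c

lemma brec_true {a b : Bool} (h : (Bool.rec false a b : Bool) = true) : b = true ∧ a = true := by
  cases b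
  · simp at h
  · exact ⟨rfl, h⟩

theorem chk_sound (𝕜 : Type*) [CommRing 𝕜] (n : ℕ) (c : Cert) :
    ∀ L : List ℕ, chk n c L = true → AcyclicU 𝕜 (cx n L) := by
  induction c with
  | cone v =>
    intro L h
    obtain ⟨h1, h2⟩ := brec_true h
    have hv : v < n := Nat.le_of_ble_eq_true h1
    rw [allR_iff] at h2
    refine acyclicU_cone (⟨v, hv⟩ : Fin n) (fun ρ hρ => ?_)
    rw [mem_cx] at hρ ⊢
    obtain ⟨F, hF, hρ⟩ := hρ
    refine ⟨F, hF, insert_subset ?_ hρ⟩
    exact (sub_two_pow (⟨v, hv⟩ : Fin n)).1 (h2 F hF)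
  | coneW v W =>
    intro L h
    obtain ⟨h1, h2⟩ := brec_true h
    obtain ⟨h2, h3⟩ := brec_true h2
    have hv : v < n := Nat.le_of_ble_eq_true h1
    rw [allR_iff] at h2 h3
    refine acyclicU_cone (⟨v, hv⟩ : Fin n) (fun ρ hρ => ?_)
    rw [mem_cx] at hρ ⊢
    obtain ⟨F, hF, hρ⟩ := hρ
    have h4 := h2 F hF
    rw [anyR_iff] at h4
    obtain ⟨H, hH, h4⟩ := h4
    have h5 := h3 H hH
    rw [anyR_iff] at h5
    obtain ⟨G, hG, h5⟩ := h5
    refine ⟨G, hG, ?_⟩
    have h6 : dec n (F ||| 2 ^ v) ⊆ dec n G :=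
      (dec_subset_of_sub h4).trans (dec_subset_of_sub h5)
    rw [dec_or] at h6
    refine insert_subset ?_ (hρ.trans (subset_union_left.trans h6))
    apply h6
    rw [mem_union]; right
    have := dec_two_pow (⟨v, hv⟩ : Fin n)
    simp only at this
    rw [this]; exact mem_singleton_self _
  | node v a b iha ihb =>
    intro L h
    obtain ⟨h1, h2⟩ := brec_true h
    obtain ⟨h2, h3⟩ := brec_true h2
    have hv : v < n := Nat.le_of_ble_eq_true h1
    have ha := iha _ h2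
    have hb := ihb _ h3
    set w : Fin n := ⟨v, hv⟩ with hw
    have e1 : cx n L = cx n (delM (2 ^ (w : ℕ)) L) ∪ (cx n L).filter (fun ρ => insert w ρ ∈ cx n L) := by
      ext ρ
      rw [mem_union, mem_cx_delM, mem_filter]
      constructor
      · intro h
        by_cases hwρ : w ∈ ρ
        · right; exact ⟨h, by rwa [insert_eq_of_mem hwρ]⟩
        · left; exact ⟨hwρ, h⟩
      · rintro (h | h)
        · exact h.2
        · exact h.1
    have e2 : cx n (delM (2 ^ (w : ℕ)) L) ∩ (cx n L).filter (fun ρ => insert w ρ ∈ cx n L) =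
        cx n (lnkM (2 ^ (w : ℕ)) L) := by
      ext ρ
      rw [mem_inter, mem_cx_delM, mem_filter, mem_cx_lnkM]
      constructor
      · rintro ⟨h, h'⟩; exact ⟨h.1, h'.2⟩
      · rintro ⟨h, h'⟩
        have := cx_down h' (subset_insert w ρ)
        exact ⟨⟨h, this⟩, this, h'⟩
    rw [e1]
    refine acyclicU_union (fun τ hτ σ hσ => cx_down hτ hσ) ?_ hb ?_ ?_
    · intro τ hτ σ hσ
      rw [mem_filter] at hτ ⊢
      exact ⟨cx_down hτ.1 hσ, cx_down hτ.2 (insert_subset_insert w hσ)⟩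
    · refine acyclicU_cone w (fun ρ hρ => ?_)
      rw [mem_filter] at hρ ⊢
      exact ⟨hρ.2, by rw [insert_idem]; exact hρ.2⟩
    · rw [e2]; exact ha

end Pool.Agent.Lib.MP_c23581_co
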