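import Pool.Agent.Lib.MP_c23581_co.Data

/-!
# The 13 blocks of the complex and its 12 hubs
-/

set_option autoImplicit false

namespace Pool.Agent.Lib.MP_c23581_co

open Finset

/-- entry of a list -/
def nthR {α : Type} (d : α) (L : List α) : ℕ → α :=
  List.rec (motive := fun _ => ℕ → α) (fun _ => d)
    (fun a _ ih i => Nat.rec (motive := fun _ => α) a (fun j _ => ih j) i) L

/-- the name of the vertex `i` of the block `c` -/
def pv (c i : ℕ) : ℕ := nthR 0 (nthR [] phs c) i

/-- the tetrahedra of the block `c` -/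
def blkF (c : ℕ) : List ℕ := mapR (fun l => mk (mapR (pv c) l)) RTl

/-- the interior edges of the block `c` -/
def blkE (c : ℕ) : List ℕ := mapR (fun l => mk (mapR (pv c) l)) IEl

/-- the block numbers -/
def idx : List ℕ := [nat_lit 0, nat_lit 1, nat_lit 2, nat_lit 3, nat_lit 4, nat_lit 5, nat_lit 6,
  nat_lit 7, nat_lit 8, nat_lit 9, nat_lit 10, nat_lit 11, nat_lit 12]

/-- the tetrahedra of the blocks in `js`, and the other ones -/
def flatR (js : List ℕ) : List ℕ :=
  List.rec (motive := fun _ => List ℕ) fillM (fun c _ ih => appR (blkF c) ih) js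

lemma mem_flatR {js : List ℕ} {G : ℕ} : G ∈ flatR js ↔ (∃ c ∈ js, G ∈ blkF c) ∨ G ∈ fillM := by
  induction js with
  | nil => simp [flatR]
  | cons c js ih =>
    have h : flatR (c :: js) = appR (blkF c) (flatR js) := rfl
    rw [h, appR_eq, List.mem_append, ih]
    simp only [List.mem_cons, exists_eq_or_imp]
    exact or_assoc.symm

/-- equality of lists -/
def eqL (K : List ℕ) : List ℕ → Bool :=
  List.rec (motive := fun _ => List ℕ → Bool)
    (fun L => List.rec (motive := fun _ => Bool) true (fun _ _ _ => false) L)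
    (fun a _ ih L => List.rec (motive := fun _ => Bool) false
      (fun b L' _ => Bool.rec false (ih L') (Nat.beq a b)) L) K

lemma eqL_sound (K : List ℕ) : ∀ L, eqL K L = true → K = L := by
  induction K with
  | nil =>
    intro L h
    cases L with
    | nil => rfl
    | cons b L =>
      have h' : false = true := h
      exact absurd h' Bool.false_ne_true
  | cons a K ih =>
    intro L h
    cases L with
    | nil =>
      have h' : false = true := h
      exact absurd h' Bool.false_ne_true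
    | cons b L =>
      have h' : (Bool.rec false (eqL K L) (Nat.beq a b) : Bool) = true := h
      obtain ⟨h1, h2⟩ := brec_true h'
      rw [Nat.eq_of_beq_eq_true h1, ih L h2]

lemma chkFlat : eqL LD (flatR idx) = true := by decide +kernel

lemma LD_eq : LD = flatR idx := eqL_sound _ _ chkFlat

/-- no edge of `E` is contained in a member of `F` -/
def noSub (E F : List ℕ) : Bool :=
  allR (fun G => allR (fun e => Bool.rec true false (sub e G)) E) F

lemma noSub_sound {E F : List ℕ} (h : noSub E F = true) {G e : ℕ} (hG : G ∈ F) (he : e ∈ E) :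
    sub e G = false := by
  have := allR_iff.1 (allR_iff.1 h G hG) e he
  cases hs : sub e G
  · rfl
  · rw [hs] at this; exact absurd this (by simp)

lemma chkOther : allR (fun c => allR (fun c' => Bool.rec (noSub (blkE c) (blkF c')) true
    (Nat.beq c c')) idx) idx = true := by decide +kernel

lemma chkFill : allR (fun c => noSub (blkE c) fillM) idx = true := by decide +kernel

/-- the 12 hubs -/
def hubs : List ℕ := [0, 1, 2, 3, 12, 13, 19, 20, 31, 32, 38, 39]

lemma pv_lt : ∀ c : Fin 13, ∀ i : Fin 12, pv c i < 61 := by decide +kernel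

lemma pv_inj : ∀ c : Fin 13, ∀ i j : Fin 12, pv c i = pv c j → i = j := by decide +kernel

lemma pv_hub : ∀ c : Fin 13, ∀ v ∈ HRl, pv c v ∈ hubs := by decide +kernel

lemma mem_idx (c : Fin 13) : (c : ℕ) ∈ idx := by
  revert c; decide +kernel

lemma idx_lt : ∀ c ∈ idx, c < 13 := by decide +kernel

/-- placement of the block `c` -/
def plc (c : Fin 13) : Fin 12 ↪ Fin 61 :=
  ⟨fun i => ⟨pv c i, pv_lt c i⟩, fun i j h => pv_inj c i j (congrArg Fin.val h)⟩

lemma map_plc (c : Fin 13) {l : List ℕ} (hl : ∀ a ∈ l, a < 12) :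
    (dec 12 (mk l)).map (plc c) = dec 61 (mk (mapR (pv c) l)) := by
  ext v
  rw [mem_map, mem_dec, testBit_mk, mapR_eq, List.mem_map]
  constructor
  · rintro ⟨i, hi, rfl⟩
    rw [mem_dec, testBit_mk] at hi
    exact ⟨i, hi, rfl⟩
  · rintro ⟨a, ha, h⟩
    refine ⟨⟨a, hl a ha⟩, by rw [mem_dec, testBit_mk]; exact ha, ?_⟩
    exact Fin.ext h

lemma mask_lt (c : Fin 13) {l : List ℕ} (hl : ∀ a ∈ l, a < 12) : mk (mapR (pv c) l) < 2 ^ 61 := by
  apply mk_lt
  intro a ha
  rw [mapR_eq, List.mem_map] at ha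
  obtain ⟨b, hb, rfl⟩ := ha
  exact pv_lt c ⟨b, hl b hb⟩

/-- the hubs as a set -/
def HD : Finset (Fin 61) := dec 61 (mk hubs)

lemma card_HD : HD.card < Fintype.card (Fin 13) := by
  rw [HD, card_dec_mk (by decide +kernel) (by decide +kernel)]
  decide +kernel

lemma facet_of_edge (c : Fin 13) {l : List ℕ} (hl : l ∈ IEl) {G : ℕ} (hG : G ∈ LD)
    (h : sub (mk (mapR (pv c) l)) G = true) : G ∈ blkF c := by
  have he : mk (mapR (pv c) l) ∈ blkE c := by
    rw [blkE, mapR_eq, List.mem_map]; exact ⟨l, hl, rfl⟩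
  rw [LD_eq, mem_flatR] at hG
  rcases hG with ⟨c', hc', hG⟩ | hG
  · have h1 := allR_iff.1 (allR_iff.1 chkOther c (mem_idx c)) c' hc'
    cases hb : Nat.beq (c : ℕ) c'
    · rw [hb] at h1
      rw [noSub_sound h1 hG he] at h
      exact absurd h (by simp)
    · rw [Nat.eq_of_beq_eq_true hb]; exact hG
  · have h1 := allR_iff.1 chkFill c (mem_idx c)
    rw [noSub_sound h1 hG he] at h
    exact absurd h (by simp)

lemma block_ne {c c' : Fin 13} {l l' : List ℕ} (hl : l ∈ IEl) (hl' : l' ∈ IEl) {G : ℕ} (hG : G ∈ LD)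
    (h : sub (mk (mapR (pv c) l)) G = true) (h' : sub (mk (mapR (pv c') l')) G = true) : c = c' := by
  have h1 := facet_of_edge c hl hG h
  have he : mk (mapR (pv c') l') ∈ blkE c' := by
    rw [blkE, mapR_eq, List.mem_map]; exact ⟨l', hl', rfl⟩
  have h2 := allR_iff.1 (allR_iff.1 chkOther c' (mem_idx c')) c (mem_idx c)
  cases hb : Nat.beq (c' : ℕ) (c : ℕ)
  · rw [hb] at h2
    rw [noSub_sound h2 h1 he] at h'
    exact absurd h' (by simp)
  · exact (Fin.ext (Nat.eq_of_beq_eq_true hb)).symm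

/-- the complex -/
def DD : Finset (Finset (Fin 61)) := cx 61 LD

lemma down_DD : ∀ τ ∈ DD, ∀ σ, σ ⊆ τ → σ ∈ DD := fun _ hτ _ hσ => cx_down hτ hσ

/-- the open interior of the block `c` -/
def CD (c : Fin 13) : Finset (Finset (Fin 61)) := CR.map (mapEmbedding (plc c)).toEmbedding

lemma edge_sub (c : Fin 13) {l : List ℕ} (hl : l ∈ IEl) {G : ℕ}
    (h : (dec 12 (mk l)).map (plc c) ⊆ dec 61 G) : sub (mk (mapR (pv c) l)) G = true := by
  have h1 := (okE.1 l hl).2.1
  rw [map_plc c h1] at h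
  exact sub_of_dec_subset (mask_lt c h1) h

lemma block_DD (c : Fin 13) : Block DD HD (CD c) := by
  refine block_of_rblock rblock (plc c) down_DD ?_ ?_ ?_
  · intro F hF
    obtain ⟨l, hl, rfl⟩ := mem_fam.1 hF
    rw [map_plc c (okF.1 l hl).2.1, DD, mem_cx]
    refine ⟨_, ?_, Subset.rfl⟩
    rw [LD_eq, mem_flatR]
    left
    refine ⟨c, mem_idx c, ?_⟩
    rw [blkF, mapR_eq, List.mem_map]
    exact ⟨l, hl, rfl⟩
  · intro e he ρ hρ hsub
    obtain ⟨l, hl, rfl⟩ := mem_fam.1 he
    rw [DD, mem_cx] at hρ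
    obtain ⟨G, hG, hρ⟩ := hρ
    have h1 := facet_of_edge c hl hG (edge_sub c hl (hsub.trans hρ))
    rw [blkF, mapR_eq, List.mem_map] at h1
    obtain ⟨a, ha, rfl⟩ := h1
    refine ⟨dec 12 (mk a), mem_fam.2 ⟨a, ha, rfl⟩, ?_⟩
    rw [map_plc c (okF.1 a ha).2.1]
    exact hρ
  · intro v hv
    rw [HR, mem_dec, testBit_mk] at hv
    rw [HD, mem_dec, testBit_mk]
    exact pv_hub c v hv

lemma disj_DD (c c' : Fin 13) (τ : Finset (Fin 61)) (h : τ ∈ CD c) (h' : τ ∈ CD c') : c = c' := by
  have hτ := (block_DD c).mem τ h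
  rw [DD, mem_cx] at hτ
  obtain ⟨G, hG, hτ⟩ := hτ
  have key : ∀ b : Fin 13, τ ∈ CD b → ∃ l ∈ IEl, sub (mk (mapR (pv b) l)) G = true := by
    intro b hb
    rw [CD, mem_map] at hb
    obtain ⟨ρ, hρ, hρ'⟩ := hb
    obtain ⟨e, he, he'⟩ := rblock.sub1 ρ hρ
    obtain ⟨l, hl, rfl⟩ := mem_fam.1 he
    refine ⟨l, hl, edge_sub b hl ?_⟩
    have : ρ.map (plc b) = τ := hρ'
    rw [← this] at hτ
    exact (map_subset_map.2 he').trans hτ
  obtain ⟨l, hl, h1⟩ := key c h
  obtain ⟨l', hl', h2⟩ := key c' h'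
  exact block_ne hl hl' hG h1 h2

/-- the complex has no decomposition into intervals of rank at least two -/
theorem noPart_DD : NoPart 2 DD :=
  noPart_of_blocks down_DD CD block_DD disj_DD card_HD

end Pool.Agent.Lib.MP_c23581_co
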