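import Pool.Agent.Lib.MP_c23581_co.Acyc

/-!
# Data: acyclicity certificates
-/

set_option autoImplicit false

namespace Pool.Agent.Lib.MP_c23581_co

set_option maxRecDepth 100000

/-- certificate for the complex -/
def certD : Cert :=
  (.node (nat_lit 27) (.node (nat_lit 45) (.node (nat_lit 22) (.cone (nat_lit 30))
   (.coneW (nat_lit 28) [nat_lit 1342177280, nat_lit 268697600]))
   (.node (nat_lit 18) (.node (nat_lit 28) (.coneW (nat_lit 3) [nat_lit 8])
   (.coneW (nat_lit 17) [nat_lit 131080, nat_lit 196608]))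
   (.node (nat_lit 16) (.coneW (nat_lit 24) [nat_lit 16908288, nat_lit 20971520])
   (.node (nat_lit 22) (.coneW (nat_lit 2) [nat_lit 16777220, nat_lit 1073741828])
   (.node (nat_lit 28) (.node (nat_lit 3) (.coneW (nat_lit 13) [nat_lit 8192])
   (.coneW (nat_lit 11) [nat_lit 10240, nat_lit 1073743872]))
   (.node (nat_lit 13) (.coneW (nat_lit 3) [nat_lit 2056])
   (.node (nat_lit 30) (.coneW (nat_lit 20) [nat_lit 1050624, nat_lit 1048580])
   (.node (nat_lit 11) (.coneW (nat_lit 3) [nat_lit 1048584])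
   (.node (nat_lit 20) (.coneW (nat_lit 2) [nat_lit 12])
   (.node (nat_lit 3) (.coneW (nat_lit 12) [nat_lit 135168, nat_lit 4100])
   (.node (nat_lit 17) (.coneW (nat_lit 7) [nat_lit 4224, nat_lit 16777344])
   (.node (nat_lit 12) (.coneW (nat_lit 2) [nat_lit 132])
   (.coneW (nat_lit 19) [nat_lit 17301632, nat_lit 524420, nat_lit 17301508])))))))))))))
   (.node (nat_lit 5) (.node (nat_lit 60) (.cone (nat_lit 4))
   (.node (nat_lit 14) (.cone (nat_lit 12))
   (.node (nat_lit 6) (.coneW (nat_lit 2) [nat_lit 20, nat_lit 5])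
   (.node (nat_lit 4) (.coneW (nat_lit 2) [nat_lit 516])
   (.node (nat_lit 2) (.coneW (nat_lit 0) [nat_lit 513])
   (.node (nat_lit 9) (.coneW (nat_lit 0) [nat_lit 4097])
   (.node (nat_lit 12) (.coneW (nat_lit 0) [nat_lit 65537])
   (.coneW (nat_lit 19) [nat_lit 2686976, nat_lit 589825, nat_lit 11010048, nat_lit 8912897]))))))))
   (.node (nat_lit 45) (.node (nat_lit 22) (.coneW (nat_lit 12) [nat_lit 1073745920, nat_lit 140737488359424])
   (.node (nat_lit 47) (.coneW (nat_lit 20) [nat_lit 1310720, nat_lit 1052672])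
   (.node (nat_lit 20) (.coneW (nat_lit 13) [nat_lit 12288, nat_lit 270336])
   (.node (nat_lit 18) (.coneW (nat_lit 13) [nat_lit 268443648])
   (.node (nat_lit 13) (.coneW (nat_lit 12) [nat_lit 268439552])
   (.node (nat_lit 28) (.coneW (nat_lit 15) [nat_lit 36864, nat_lit 1073774592])
   (.coneW (nat_lit 19) [nat_lit 1074298880, nat_lit 561152, nat_lit 1074270208])))))))
   (.node (nat_lit 40) (.node (nat_lit 39) (.cone (nat_lit 3))
   (.node (nat_lit 44) (.cone (nat_lit 3))
   (.node (nat_lit 3) (.coneW (nat_lit 38) [nat_lit 4672924418048])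
   (.node (nat_lit 42) (.coneW (nat_lit 7) [nat_lit 274877907072])
   (.node (nat_lit 7) (.cone (nat_lit 38))
   (.coneW (nat_lit 2) [nat_lit 309237645316, nat_lit 2233382993924, nat_lit 2473901162500]))))))
   (.node (nat_lit 22) (.node (nat_lit 2) (.coneW (nat_lit 19) [nat_lit 17301504, nat_lit 1074266112])
   (.node (nat_lit 30) (.coneW (nat_lit 12) [nat_lit 528384])
   (.node (nat_lit 12) (.coneW (nat_lit 19) [nat_lit 140737488879616])
   (.node (nat_lit 55) (.cone (nat_lit 38))
   (.node (nat_lit 16) (.coneW (nat_lit 0) [nat_lit 2097153, nat_lit 16777217])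
   (.node (nat_lit 24) (.coneW (nat_lit 0) [nat_lit 524289])
   (.node (nat_lit 0) (.coneW (nat_lit 19) [nat_lit 2621440])
   (.node (nat_lit 21) (.coneW (nat_lit 19) [nat_lit 524288])
   (.node (nat_lit 51) (.coneW (nat_lit 53) [nat_lit 9007474132647936, nat_lit 9570149208162304])
   (.node (nat_lit 38) (.coneW (nat_lit 19) [nat_lit 9007199255265280])
   (.node (nat_lit 47) (.coneW (nat_lit 52) [nat_lit 4503599627894784, nat_lit 5066549580791808])
   (.coneW (nat_lit 31) [nat_lit 9570151355645952, nat_lit 5066551728275456, nat_lit 4503601775378432, nat_lit 9007201402748928]))))))))))))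
   (.node (nat_lit 18) (.node (nat_lit 28) (.coneW (nat_lit 3) [nat_lit 8200])
   (.node (nat_lit 3) (.coneW (nat_lit 13) [nat_lit 139264])
   (.node (nat_lit 47) (.coneW (nat_lit 46) [nat_lit 70368745226240, nat_lit 633318697598976])
   (.node (nat_lit 20) (.coneW (nat_lit 13) [nat_lit 70368744185856])
   (.node (nat_lit 16) (.coneW (nat_lit 1) [nat_lit 131074, nat_lit 16386])
   (.node (nat_lit 14) (.cone (nat_lit 1))
   (.node (nat_lit 1) (.coneW (nat_lit 13) [nat_lit 139264])
   (.node (nat_lit 17) (.coneW (nat_lit 13) [nat_lit 8192])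
   (.node (nat_lit 46) (.coneW (nat_lit 32) [nat_lit 4294975488, nat_lit 562954248388608])
   (.node (nat_lit 32) (.coneW (nat_lit 48) [nat_lit 281474976718848, nat_lit 844424930131968])
   (.node (nat_lit 49) (.coneW (nat_lit 48) [nat_lit 2533274790395904])
   (.coneW (nat_lit 39) [nat_lit 1126449662664704, nat_lit 3378249476341760, nat_lit 282024732532736, nat_lit 2533824546209792]))))))))))))
   (.node (nat_lit 36) (.node (nat_lit 43) (.node (nat_lit 11) (.cone (nat_lit 35))
   (.coneW (nat_lit 48) [nat_lit 281509336449024, nat_lit 281474976743424]))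
   (.node (nat_lit 30) (.node (nat_lit 11) (.cone (nat_lit 29))
   (.coneW (nat_lit 46) [nat_lit 70369281048576, nat_lit 70368744210432]))
   (.node (nat_lit 11) (.coneW (nat_lit 32) [nat_lit 38654705664, nat_lit 4831838208])
   (.node (nat_lit 15) (.coneW (nat_lit 31) [nat_lit 70370891661312, nat_lit 281477124194304])
   (.node (nat_lit 46) (.node (nat_lit 31) (.coneW (nat_lit 12) [nat_lit 4096])
   (.coneW (nat_lit 34) [nat_lit 17179873280, nat_lit 17716740096]))
   (.node (nat_lit 12) (.coneW (nat_lit 31) [nat_lit 19327352832])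
   (.node (nat_lit 29) (.coneW (nat_lit 2) [nat_lit 17179869188, nat_lit 4294967300])
   (.node (nat_lit 34) (.coneW (nat_lit 2) [nat_lit 2147483652])
   (.node (nat_lit 2) (.coneW (nat_lit 31) [nat_lit 6442450944])
   (.node (nat_lit 31) (.coneW (nat_lit 13) [nat_lit 281474976718848, nat_lit 4294975488])
   (.node (nat_lit 48) (.coneW (nat_lit 37) [nat_lit 137438961664, nat_lit 171798691840])
   (.node (nat_lit 13) (.coneW (nat_lit 32) [nat_lit 141733920768])
   (.coneW (nat_lit 3) [nat_lit 141733920776, nat_lit 171798691848, nat_lit 38654705672])))))))))))))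
   (.node (nat_lit 56) (.node (nat_lit 54) (.node (nat_lit 25) (.cone (nat_lit 53))
   (.coneW (nat_lit 57) [nat_lit 153122387330596864, nat_lit 144115205255725056]))
   (.node (nat_lit 34) (.coneW (nat_lit 38) [nat_lit 144115462953762816, nat_lit 288230651029618688])
   (.node (nat_lit 58) (.coneW (nat_lit 32) [nat_lit 17596481011712, nat_lit 279172874240])
   (.node (nat_lit 32) (.coneW (nat_lit 39) [nat_lit 824633720832, nat_lit 18141941858304])
   (.node (nat_lit 25) (.coneW (nat_lit 39) [nat_lit 36029346774777856, nat_lit 9007749010554880])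
   (.node (nat_lit 55) (.coneW (nat_lit 20) [nat_lit 17592187092992, nat_lit 549756862464])
   (.node (nat_lit 44) (.coneW (nat_lit 20) [nat_lit 549756862464])
   (.node (nat_lit 20) (.coneW (nat_lit 39) [nat_lit 549755813888])
   (.node (nat_lit 39) (.coneW (nat_lit 19) [nat_lit 274878431232, nat_lit 9007199255265280])
   (.node (nat_lit 19) (.coneW (nat_lit 41) [nat_lit 9009398277996544, nat_lit 2473901162496])
   (.node (nat_lit 53) (.coneW (nat_lit 41) [nat_lit 144117387099111424])
   (.coneW (nat_lit 31) [nat_lit 144117389246595072, nat_lit 2476048646144, nat_lit 144115465101246464]))))))))))))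
   (.node (nat_lit 49) (.node (nat_lit 51) (.coneW (nat_lit 48) [nat_lit 9288674231451648])
   (.node (nat_lit 47) (.coneW (nat_lit 46) [nat_lit 4573968371548160])
   (.node (nat_lit 48) (.node (nat_lit 53) (.coneW (nat_lit 37) [nat_lit 137438953472])
   (.coneW (nat_lit 13) [nat_lit 137438961664, nat_lit 4294975488]))
   (.node (nat_lit 13) (.coneW (nat_lit 32) [nat_lit 141733920768])
   (.node (nat_lit 37) (.coneW (nat_lit 20) [nat_lit 4296015872, nat_lit 9007199255789568])
   (.node (nat_lit 53) (.coneW (nat_lit 20) [nat_lit 2148532224])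
   (.node (nat_lit 20) (.coneW (nat_lit 31) [nat_lit 6442450944])
   (.node (nat_lit 32) (.coneW (nat_lit 12) [nat_lit 2147487744, nat_lit 70368744181760])
   (.node (nat_lit 12) (.coneW (nat_lit 34) [nat_lit 70385924046848, nat_lit 19327352832])
   (.node (nat_lit 46) (.coneW (nat_lit 34) [nat_lit 4503616807239680])
   (.coneW (nat_lit 19) [nat_lit 4503616807763968, nat_lit 19327877120, nat_lit 4503601775378432])))))))))))
   (.node (nat_lit 54) (.node (nat_lit 25) (.coneW (nat_lit 32) [nat_lit 9007203549708288, nat_lit 4503603922337792])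
   (.node (nat_lit 52) (.coneW (nat_lit 19) [nat_lit 17180393472, nat_lit 4295491584])
   (.node (nat_lit 19) (.coneW (nat_lit 31) [nat_lit 19327352832, nat_lit 6442450944])
   (.node (nat_lit 34) (.coneW (nat_lit 31) [nat_lit 144115190223339520])
   (.node (nat_lit 31) (.coneW (nat_lit 32) [nat_lit 144115192370823168])
   (.node (nat_lit 57) (.coneW (nat_lit 37) [nat_lit 9007336693694464, nat_lit 141733920768])
   (.coneW (nat_lit 20) [nat_lit 141734969344, nat_lit 9007336694743040, nat_lit 9007203550756864])))))))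
   (.node (nat_lit 16) (.node (nat_lit 14) (.coneW (nat_lit 1) [nat_lit 4098])
   (.node (nat_lit 12) (.coneW (nat_lit 0) [nat_lit 3])
   (.node (nat_lit 21) (.coneW (nat_lit 0) [nat_lit 524289])
   (.node (nat_lit 19) (.coneW (nat_lit 0) [nat_lit 1])
   (.node (nat_lit 0) (.coneW (nat_lit 20) [nat_lit 1048578, nat_lit 17825792])
   (.node (nat_lit 20) (.coneW (nat_lit 8) [nat_lit 16777472, nat_lit 258])
   (.node (nat_lit 24) (.coneW (nat_lit 8) [nat_lit 131328])
   (.coneW (nat_lit 13) [nat_lit 139520, nat_lit 8450, nat_lit 139266]))))))))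
   (.node (nat_lit 23) (.node (nat_lit 0) (.cone (nat_lit 19))
   (.node (nat_lit 19) (.coneW (nat_lit 1) [nat_lit 2097154])
   (.node (nat_lit 21) (.coneW (nat_lit 1) [nat_lit 33554434])
   (.node (nat_lit 25) (.cone (nat_lit 1))
   (.coneW (nat_lit 20) [nat_lit 17826048, nat_lit 17825794, nat_lit 1048834])))))
   (.node (nat_lit 50) (.node (nat_lit 39) (.coneW (nat_lit 13) [nat_lit 2251799813693440])
   (.node (nat_lit 51) (.coneW (nat_lit 13) [nat_lit 17592186052608])
   (.node (nat_lit 44) (.cone (nat_lit 13))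
   (.coneW (nat_lit 38) [nat_lit 274877943808, nat_lit 274877919232, nat_lit 9070970961920, nat_lit 9070970937344]))))
   (.node (nat_lit 21) (.node (nat_lit 25) (.cone (nat_lit 1))
   (.coneW (nat_lit 19) [nat_lit 1572866, nat_lit 524289]))
   (.node (nat_lit 43) (.node (nat_lit 15) (.coneW (nat_lit 38) [nat_lit 281749854617600])
   (.node (nat_lit 13) (.coneW (nat_lit 39) [nat_lit 824633720832, nat_lit 18141941858304])
   (.node (nat_lit 11) (.coneW (nat_lit 39) [nat_lit 4947802324992, nat_lit 584115552256])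
   (.node (nat_lit 42) (.coneW (nat_lit 3) [nat_lit 17592186044424, nat_lit 549755813896])
   (.node (nat_lit 44) (.coneW (nat_lit 3) [nat_lit 549755813896])
   (.node (nat_lit 3) (.coneW (nat_lit 39) [nat_lit 549755813888])
   (.node (nat_lit 39) (.coneW (nat_lit 2) [nat_lit 274877906948, nat_lit 34359738372])
   (.node (nat_lit 2) (.coneW (nat_lit 41) [nat_lit 2233382993920, nat_lit 2473901162496])
   (.node (nat_lit 35) (.coneW (nat_lit 41) [nat_lit 283673999966208])
   (.coneW (nat_lit 12) [nat_lit 283673999970304, nat_lit 2473901166592, nat_lit 281749854621696]))))))))))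
   (.node (nat_lit 25) (.node (nat_lit 1) (.coneW (nat_lit 20) [nat_lit 17825792])
   (.node (nat_lit 55) (.cone (nat_lit 39))
   (.node (nat_lit 39) (.coneW (nat_lit 20) [nat_lit 9007199255789568])
   (.node (nat_lit 53) (.coneW (nat_lit 20) [nat_lit 4296015872])
   (.node (nat_lit 32) (.coneW (nat_lit 20) [nat_lit 4503599628419072])
   (.node (nat_lit 52) (.coneW (nat_lit 47) [nat_lit 140737489403904, nat_lit 211106232532992])
   (.node (nat_lit 24) (.coneW (nat_lit 3) [nat_lit 1048584, nat_lit 536870920])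
   (.node (nat_lit 47) (.coneW (nat_lit 13) [nat_lit 1056768, nat_lit 70368744185856])
   (.coneW (nat_lit 30) [nat_lit 1074798592, nat_lit 70369817927680, nat_lit 70370354790400, nat_lit 1074790408, nat_lit 1610612744])))))))))
   (.node (nat_lit 59) (.node (nat_lit 41) (.cone (nat_lit 31))
   (.node (nat_lit 38) (.cone (nat_lit 31))
   (.node (nat_lit 31) (.coneW (nat_lit 39) [nat_lit 144115737831669760])
   (.node (nat_lit 57) (.coneW (nat_lit 37) [nat_lit 687194767360])
   (.node (nat_lit 37) (.cone (nat_lit 39))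
   (.coneW (nat_lit 32) [nat_lit 18146236825600, nat_lit 288247972632723456, nat_lit 288230930202492928]))))))
   (.node (nat_lit 44) (.node (nat_lit 55) (.cone (nat_lit 20))
   (.node (nat_lit 42) (.cone (nat_lit 3))
   (.node (nat_lit 3) (.coneW (nat_lit 39) [nat_lit 549755813888])
   (.node (nat_lit 13) (.coneW (nat_lit 39) [nat_lit 2252349569499136])
   (.node (nat_lit 20) (.coneW (nat_lit 39) [nat_lit 2252349569499136])
   (.node (nat_lit 58) (.cone (nat_lit 32))
   (.coneW (nat_lit 39) [nat_lit 554050781184, nat_lit 2252349569499136])))))))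
   (.node (nat_lit 51) (.node (nat_lit 13) (.coneW (nat_lit 39) [nat_lit 549755813888])
   (.node (nat_lit 55) (.coneW (nat_lit 20) [nat_lit 274878955520])
   (.node (nat_lit 20) (.coneW (nat_lit 38) [nat_lit 824633720832])
   (.node (nat_lit 39) (.coneW (nat_lit 12) [nat_lit 274877911040, nat_lit 281474976714752])
   (.node (nat_lit 12) (.coneW (nat_lit 41) [nat_lit 283673999966208, nat_lit 2473901162496])
   (.node (nat_lit 48) (.coneW (nat_lit 41) [nat_lit 9009398277996544])
   (.coneW (nat_lit 19) [nat_lit 9009398278520832, nat_lit 2473901686784, nat_lit 9007474133172224])))))))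
   (.node (nat_lit 26) (.node (nat_lit 28) (.node (nat_lit 15) (.cone (nat_lit 2))
   (.coneW (nat_lit 13) [nat_lit 10240, nat_lit 8196]))
   (.node (nat_lit 15) (.coneW (nat_lit 17) [nat_lit 131584, nat_lit 131076])
   (.node (nat_lit 9) (.coneW (nat_lit 10) [nat_lit 132096, nat_lit 3072])
   (.node (nat_lit 13) (.coneW (nat_lit 3) [nat_lit 2056, nat_lit 12])
   (.node (nat_lit 11) (.coneW (nat_lit 3) [nat_lit 1032])
   (.node (nat_lit 3) (.coneW (nat_lit 2) [nat_lit 1028])
   (.node (nat_lit 10) (.coneW (nat_lit 7) [nat_lit 131200, nat_lit 132])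
   (.coneW (nat_lit 12) [nat_lit 135296, nat_lit 4228, nat_lit 135172]))))))))
   (.node (nat_lit 6) (.node (nat_lit 60) (.cone (nat_lit 4))
   (.node (nat_lit 2) (.coneW (nat_lit 0) [nat_lit 17])
   (.node (nat_lit 4) (.coneW (nat_lit 0) [nat_lit 129])
   (.node (nat_lit 7) (.cone (nat_lit 0))
   (.coneW (nat_lit 3) [nat_lit 1288, nat_lit 1033, nat_lit 266, nat_lit 11])))))
   (.node (nat_lit 9) (.node (nat_lit 12) (.coneW (nat_lit 0) [nat_lit 16385])
   (.node (nat_lit 14) (.coneW (nat_lit 0) [nat_lit 32769])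
   (.node (nat_lit 15) (.coneW (nat_lit 0) [nat_lit 131073])
   (.node (nat_lit 4) (.coneW (nat_lit 1) [nat_lit 2050, nat_lit 6])
   (.node (nat_lit 2) (.coneW (nat_lit 0) [nat_lit 3])
   (.node (nat_lit 11) (.coneW (nat_lit 1) [nat_lit 1026])
   (.node (nat_lit 0) (.coneW (nat_lit 13) [nat_lit 8194, nat_lit 139264])
   (.node (nat_lit 17) (.coneW (nat_lit 8) [nat_lit 8448, nat_lit 1280])
   (.node (nat_lit 13) (.coneW (nat_lit 1) [nat_lit 258])
   (.coneW (nat_lit 3) [nat_lit 1288, nat_lit 1034, nat_lit 266]))))))))))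
   (.node (nat_lit 42) (.node (nat_lit 7) (.cone (nat_lit 38))
   (.coneW (nat_lit 3) [nat_lit 549755815944, nat_lit 274877906956]))
   (.node (nat_lit 14) (.coneW (nat_lit 12) [nat_lit 12290, nat_lit 36865])
   (.node (nat_lit 55) (.coneW (nat_lit 20) [nat_lit 274879479808, nat_lit 549756862464])
   (.node (nat_lit 60) (.cone (nat_lit 4))
   (.node (nat_lit 58) (.node (nat_lit 39) (.coneW (nat_lit 32) [nat_lit 141733920768])
   (.node (nat_lit 34) (.cone (nat_lit 38))
   (.coneW (nat_lit 32) [nat_lit 281320357888, nat_lit 141733920768])))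
   (.node (nat_lit 0) (.node (nat_lit 15) (.coneW (nat_lit 12) [nat_lit 135168])
   (.node (nat_lit 17) (.coneW (nat_lit 12) [nat_lit 12288])
   (.node (nat_lit 13) (.coneW (nat_lit 1) [nat_lit 4098])
   (.node (nat_lit 12) (.coneW (nat_lit 1) [nat_lit 2])
   (.node (nat_lit 24) (.coneW (nat_lit 19) [nat_lit 1572864])
   (.node (nat_lit 20) (.coneW (nat_lit 1) [nat_lit 524290])
   (.node (nat_lit 4) (.coneW (nat_lit 2) [nat_lit 132])
   (.node (nat_lit 19) (.coneW (nat_lit 1) [nat_lit 2])
   (.coneW (nat_lit 2) [nat_lit 1156, nat_lit 1036, nat_lit 14])))))))))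
   (.node (nat_lit 1) (.node (nat_lit 12) (.coneW (nat_lit 13) [nat_lit 8192])
   (.node (nat_lit 10) (.coneW (nat_lit 3) [nat_lit 2056])
   (.node (nat_lit 11) (.coneW (nat_lit 3) [nat_lit 24])
   (.node (nat_lit 2) (.coneW (nat_lit 3) [nat_lit 24])
   (.node (nat_lit 19) (.coneW (nat_lit 20) [nat_lit 1048576])
   (.node (nat_lit 4) (.coneW (nat_lit 3) [nat_lit 8])
   (.node (nat_lit 24) (.coneW (nat_lit 20) [nat_lit 1048576])
   (.node (nat_lit 20) (.coneW (nat_lit 8) [nat_lit 256])
   (.node (nat_lit 3) (.coneW (nat_lit 8) [nat_lit 256])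
   (.coneW (nat_lit 13) [nat_lit 139264, nat_lit 8448]))))))))))
   (.node (nat_lit 4) (.node (nat_lit 7) (.coneW (nat_lit 2) [nat_lit 4])
   (.coneW (nat_lit 3) [nat_lit 2056, nat_lit 12]))
   (.node (nat_lit 33) (.node (nat_lit 7) (.cone (nat_lit 31))
   (.node (nat_lit 29) (.coneW (nat_lit 2) [nat_lit 17179869188, nat_lit 2147483652])
   (.node (nat_lit 2) (.coneW (nat_lit 31) [nat_lit 19327352832])
   (.node (nat_lit 34) (.coneW (nat_lit 31) [nat_lit 2147483648])
   (.coneW (nat_lit 3) [nat_lit 141733920776, nat_lit 6442450952, nat_lit 171798691848, nat_lit 36507222024])))))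
   (.node (nat_lit 8) (.node (nat_lit 3) (.coneW (nat_lit 10) [nat_lit 1024])
   (.node (nat_lit 20) (.coneW (nat_lit 24) [nat_lit 16777216])
   (.coneW (nat_lit 17) [nat_lit 139264, nat_lit 132096, nat_lit 16908288])))
   (.node (nat_lit 24) (.node (nat_lit 2) (.coneW (nat_lit 19) [nat_lit 524288])
   (.node (nat_lit 17) (.coneW (nat_lit 7) [nat_lit 128])
   (.coneW (nat_lit 19) [nat_lit 537395328, nat_lit 1572872, nat_lit 537395208])))
   (.node (nat_lit 17) (.node (nat_lit 3) (.coneW (nat_lit 12) [nat_lit 12288])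
   (.node (nat_lit 13) (.coneW (nat_lit 12) [nat_lit 4096])
   (.node (nat_lit 15) (.coneW (nat_lit 2) [nat_lit 4100])
   (.node (nat_lit 2) (.coneW (nat_lit 12) [nat_lit 4096])
   (.coneW (nat_lit 7) [nat_lit 1152, nat_lit 4224])))))
   (.node (nat_lit 10) (.node (nat_lit 7) (.coneW (nat_lit 2) [nat_lit 4])
   (.coneW (nat_lit 3) [nat_lit 2056, nat_lit 12]))
   (.node (nat_lit 39) (.node (nat_lit 37) (.coneW (nat_lit 32) [nat_lit 144115192370823168])
   (.node (nat_lit 48) (.coneW (nat_lit 12) [nat_lit 12288])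
   (.node (nat_lit 13) (.coneW (nat_lit 12) [nat_lit 274877911040])
   (.node (nat_lit 57) (.coneW (nat_lit 31) [nat_lit 6442450944])
   (.node (nat_lit 53) (.coneW (nat_lit 19) [nat_lit 1572864])
   (.node (nat_lit 11) (.coneW (nat_lit 3) [nat_lit 34359738376])
   (.node (nat_lit 35) (.coneW (nat_lit 2) [nat_lit 12])
   (.coneW (nat_lit 38) [nat_lit 274879479808, nat_lit 274877906956, nat_lit 281320357888, nat_lit 274877911040]))))))))
   (.node (nat_lit 7) (.coneW (nat_lit 2) [nat_lit 537395204, nat_lit 2684354564, nat_lit 36507222020, nat_lit 309237645316, nat_lit 4100])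
   (.node (nat_lit 38) (.node (nat_lit 15) (.coneW (nat_lit 12) [nat_lit 281474976714752])
   (.node (nat_lit 35) (.coneW (nat_lit 2) [nat_lit 4])
   (.node (nat_lit 57) (.coneW (nat_lit 31) [nat_lit 19327352832])
   (.node (nat_lit 48) (.coneW (nat_lit 12) [nat_lit 4096])
   (.node (nat_lit 53) (.coneW (nat_lit 19) [nat_lit 524288])
   (.node (nat_lit 13) (.coneW (nat_lit 12) [nat_lit 4096])
   (.node (nat_lit 12) (.coneW (nat_lit 41) [nat_lit 2199023255552])
   (.node (nat_lit 3) (.coneW (nat_lit 2) [nat_lit 4])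
   (.node (nat_lit 32) (.coneW (nat_lit 31) [nat_lit 2147483648])
   (.node (nat_lit 34) (.coneW (nat_lit 31) [nat_lit 2147483648])
   (.node (nat_lit 2) (.coneW (nat_lit 41) [nat_lit 2199023255552])
   (.node (nat_lit 31) (.coneW (nat_lit 41) [nat_lit 2199023255552])
   (.coneW (nat_lit 19) [nat_lit 2199023779840, nat_lit 1572864])))))))))))))
   (.node (nat_lit 41) (.node (nat_lit 31) (.coneW (nat_lit 57) [nat_lit 144115188075855872])
   (.node (nat_lit 19) (.coneW (nat_lit 53) [nat_lit 9007199254740992])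
   (.node (nat_lit 57) (.coneW (nat_lit 53) [nat_lit 9007199254740992])
   (.node (nat_lit 2) (.coneW (nat_lit 35) [nat_lit 34359738368])
   (.coneW (nat_lit 48) [nat_lit 281474976714752, nat_lit 281509336449024, nat_lit 9288674231451648])))))
   (.node (nat_lit 57) (.node (nat_lit 34) (.coneW (nat_lit 31) [nat_lit 2147483648])
   (.node (nat_lit 31) (.coneW (nat_lit 32) [nat_lit 4294967296])
   (.coneW (nat_lit 37) [nat_lit 141733920768, nat_lit 9007336693694464])))
   (.node (nat_lit 53) (.node (nat_lit 19) (.coneW (nat_lit 20) [nat_lit 2148532224])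
   (.node (nat_lit 48) (.coneW (nat_lit 37) [nat_lit 137438953472])
   (.coneW (nat_lit 20) [nat_lit 4296015872, nat_lit 2148532224, nat_lit 137440002048])))
   (.node (nat_lit 48) (.node (nat_lit 15) (.coneW (nat_lit 12) [nat_lit 2147487744])
   (.node (nat_lit 35) (.coneW (nat_lit 37) [nat_lit 137438953472])
   (.coneW (nat_lit 13) [nat_lit 2147495936, nat_lit 4294975488, nat_lit 137438961664])))
   (.node (nat_lit 37) (.node (nat_lit 35) (.coneW (nat_lit 3) [nat_lit 8])
   (.coneW (nat_lit 32) [nat_lit 4296015872, nat_lit 4294975488, nat_lit 4294967304]))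
   (.node (nat_lit 32) (.node (nat_lit 35) (.coneW (nat_lit 3) [nat_lit 2056])
   (.node (nat_lit 46) (.coneW (nat_lit 12) [nat_lit 12288])
   (.node (nat_lit 12) (.coneW (nat_lit 13) [nat_lit 2147491840])
   (.node (nat_lit 13) (.coneW (nat_lit 31) [nat_lit 2147483648])
   (.node (nat_lit 52) (.coneW (nat_lit 19) [nat_lit 1572864])
   (.node (nat_lit 20) (.coneW (nat_lit 19) [nat_lit 2148007936])
   (.node (nat_lit 11) (.coneW (nat_lit 3) [nat_lit 536870920])
   (.node (nat_lit 29) (.coneW (nat_lit 2) [nat_lit 12])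
   (.coneW (nat_lit 31) [nat_lit 2147483660, nat_lit 2148007936])))))))))
   (.node (nat_lit 35) (.coneW (nat_lit 3) [nat_lit 2147483660, nat_lit 2056])
   (.node (nat_lit 31) (.node (nat_lit 20) (.coneW (nat_lit 19) [nat_lit 524288])
   (.node (nat_lit 29) (.coneW (nat_lit 2) [nat_lit 4])
   (.node (nat_lit 15) (.coneW (nat_lit 12) [nat_lit 70368744181760])
   (.node (nat_lit 3) (.coneW (nat_lit 2) [nat_lit 4])
   (.node (nat_lit 46) (.coneW (nat_lit 12) [nat_lit 4096])
   (.node (nat_lit 2) (.coneW (nat_lit 34) [nat_lit 17179869184])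
   (.node (nat_lit 13) (.coneW (nat_lit 12) [nat_lit 4096])
   (.node (nat_lit 12) (.coneW (nat_lit 34) [nat_lit 17179869184])
   (.coneW (nat_lit 19) [nat_lit 4503599627894784, nat_lit 17180393472])))))))))
   (.node (nat_lit 34) (.node (nat_lit 19) (.coneW (nat_lit 52) [nat_lit 4503599627370496])
   (.node (nat_lit 2) (.coneW (nat_lit 29) [nat_lit 536870912])
   (.coneW (nat_lit 46) [nat_lit 70368744181760, nat_lit 70369281048576, nat_lit 4573968371548160])))
   (.node (nat_lit 2) (.node (nat_lit 30) (.coneW (nat_lit 19) [nat_lit 1572864])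
   (.node (nat_lit 20) (.coneW (nat_lit 3) [nat_lit 524296])
   (.node (nat_lit 29) (.coneW (nat_lit 3) [nat_lit 524296])
   (.node (nat_lit 15) (.coneW (nat_lit 12) [nat_lit 268439552])
   (.node (nat_lit 28) (.coneW (nat_lit 12) [nat_lit 12288])
   (.coneW (nat_lit 3) [nat_lit 12296, nat_lit 524296]))))))
   (.node (nat_lit 29) (.node (nat_lit 19) (.coneW (nat_lit 3) [nat_lit 8])
   (.node (nat_lit 46) (.coneW (nat_lit 30) [nat_lit 1073741824])
   (.coneW (nat_lit 20) [nat_lit 1074792448, nat_lit 1050632, nat_lit 1074790408])))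
   (.node (nat_lit 3) (.node (nat_lit 12) (.coneW (nat_lit 13) [nat_lit 8192])
   (.node (nat_lit 30) (.coneW (nat_lit 20) [nat_lit 1048576])
   (.node (nat_lit 19) (.coneW (nat_lit 20) [nat_lit 1048576])
   (.node (nat_lit 28) (.coneW (nat_lit 13) [nat_lit 8192])
   (.coneW (nat_lit 11) [nat_lit 10240, nat_lit 1050624])))))
   (.node (nat_lit 46) (.node (nat_lit 52) (.coneW (nat_lit 47) [nat_lit 140737488355328])
   (.node (nat_lit 47) (.coneW (nat_lit 13) [nat_lit 1056768])
   (.node (nat_lit 20) (.coneW (nat_lit 13) [nat_lit 8192])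
   (.coneW (nat_lit 19) [nat_lit 561152, nat_lit 536576, nat_lit 1074298880, nat_lit 1074274304]))))
   (.node (nat_lit 11) (.node (nat_lit 13) (.coneW (nat_lit 28) [nat_lit 268435456])
   (.coneW (nat_lit 30) [nat_lit 1342177280, nat_lit 1074790400]))
   (.node (nat_lit 47) (.coneW (nat_lit 20) [nat_lit 1576960, nat_lit 4503599628943360, nat_lit 1056768])
   (.node (nat_lit 52) (.coneW (nat_lit 19) [nat_lit 1572864])
   (.node (nat_lit 30) (.node (nat_lit 13) (.coneW (nat_lit 19) [nat_lit 1572864])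
   (.node (nat_lit 20) (.coneW (nat_lit 19) [nat_lit 524288])
   (.node (nat_lit 12) (.coneW (nat_lit 19) [nat_lit 524288])
   (.coneW (nat_lit 15) [nat_lit 268468224, nat_lit 557056]))))
   (.coneW (nat_lit 12) [nat_lit 1585152, nat_lit 268447744, nat_lit 268472320, nat_lit 561152]))))))))))))))))))))))))))))))))))))))))))))))))))))))))

/-- certificates for the vertex links -/
def certL : List Cert :=
  [(.node (nat_lit 23) (.cone (nat_lit 19))
   (.node (nat_lit 5) (.node (nat_lit 19) (.coneW (nat_lit 16) [nat_lit 65536])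
   (.node (nat_lit 6) (.cone (nat_lit 2))
   (.node (nat_lit 2) (.coneW (nat_lit 9) [nat_lit 512])
   (.coneW (nat_lit 12) [nat_lit 4608, nat_lit 69632]))))
   (.node (nat_lit 6) (.node (nat_lit 1) (.cone (nat_lit 3))
   (.node (nat_lit 3) (.coneW (nat_lit 10) [nat_lit 1024])
   (.node (nat_lit 2) (.coneW (nat_lit 4) [nat_lit 16])
   (.coneW (nat_lit 7) [nat_lit 1152, nat_lit 144]))))
   (.node (nat_lit 4) (.coneW (nat_lit 2) [nat_lit 132])
   (.node (nat_lit 7) (.coneW (nat_lit 2) [nat_lit 1028])
   (.node (nat_lit 10) (.coneW (nat_lit 2) [nat_lit 12])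
   (.node (nat_lit 3) (.coneW (nat_lit 1) [nat_lit 6])
   (.node (nat_lit 2) (.coneW (nat_lit 1) [nat_lit 514])
   (.node (nat_lit 19) (.node (nat_lit 1) (.coneW (nat_lit 20) [nat_lit 1048576])
   (.node (nat_lit 20) (.coneW (nat_lit 24) [nat_lit 16777216])
   (.node (nat_lit 16) (.coneW (nat_lit 21) [nat_lit 2097152])
   (.coneW (nat_lit 22) [nat_lit 6291456, nat_lit 20971520]))))
   (.node (nat_lit 21) (.coneW (nat_lit 16) [nat_lit 4259840])
   (.node (nat_lit 22) (.coneW (nat_lit 16) [nat_lit 16842752])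
   (.node (nat_lit 24) (.coneW (nat_lit 16) [nat_lit 1114112])
   (.node (nat_lit 20) (.coneW (nat_lit 1) [nat_lit 65538])
   (.node (nat_lit 16) (.coneW (nat_lit 1) [nat_lit 4098])
   (.node (nat_lit 1) (.coneW (nat_lit 13) [nat_lit 12288, nat_lit 8704])
   (.node (nat_lit 13) (.coneW (nat_lit 17) [nat_lit 135168, nat_lit 131584])
   (.node (nat_lit 17) (.coneW (nat_lit 15) [nat_lit 33280, nat_lit 36864])
   (.coneW (nat_lit 14) [nat_lit 49664, nat_lit 53248, nat_lit 20992])))))))))))))))))),
   (.node (nat_lit 6) (.cone (nat_lit 3))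
   (.node (nat_lit 8) (.node (nat_lit 3) (.coneW (nat_lit 9) [nat_lit 512])
   (.node (nat_lit 23) (.cone (nat_lit 20))
   (.node (nat_lit 9) (.coneW (nat_lit 13) [nat_lit 8192])
   (.coneW (nat_lit 16) [nat_lit 73728, nat_lit 1114112]))))
   (.node (nat_lit 23) (.node (nat_lit 0) (.cone (nat_lit 19))
   (.node (nat_lit 19) (.coneW (nat_lit 21) [nat_lit 2097152])
   (.node (nat_lit 21) (.coneW (nat_lit 25) [nat_lit 33554432])
   (.coneW (nat_lit 24) [nat_lit 50331648, nat_lit 17825792]))))
   (.node (nat_lit 24) (.coneW (nat_lit 20) [nat_lit 34603008])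
   (.node (nat_lit 25) (.coneW (nat_lit 20) [nat_lit 3145728])
   (.node (nat_lit 21) (.coneW (nat_lit 19) [nat_lit 1572864])
   (.node (nat_lit 19) (.coneW (nat_lit 0) [nat_lit 1048577])
   (.node (nat_lit 20) (.coneW (nat_lit 0) [nat_lit 65537])
   (.node (nat_lit 3) (.node (nat_lit 9) (.coneW (nat_lit 10) [nat_lit 1024])
   (.node (nat_lit 10) (.coneW (nat_lit 11) [nat_lit 2048])
   (.node (nat_lit 0) (.coneW (nat_lit 2) [nat_lit 4])
   (.coneW (nat_lit 4) [nat_lit 2064, nat_lit 20]))))
   (.node (nat_lit 10) (.coneW (nat_lit 9) [nat_lit 2560])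
   (.node (nat_lit 11) (.coneW (nat_lit 4) [nat_lit 528])
   (.node (nat_lit 4) (.coneW (nat_lit 2) [nat_lit 516])
   (.node (nat_lit 2) (.coneW (nat_lit 0) [nat_lit 513])
   (.node (nat_lit 9) (.coneW (nat_lit 0) [nat_lit 8193])
   (.node (nat_lit 0) (.coneW (nat_lit 12) [nat_lit 12288, nat_lit 69632])
   (.node (nat_lit 12) (.coneW (nat_lit 14) [nat_lit 24576, nat_lit 81920])
   (.node (nat_lit 14) (.coneW (nat_lit 18) [nat_lit 270336, nat_lit 327680])
   (.coneW (nat_lit 17) [nat_lit 401408, nat_lit 458752, nat_lit 204800])))))))))))))))))),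
   (.node (nat_lit 42) (.cone (nat_lit 38))
   (.node (nat_lit 38) (.node (nat_lit 7) (.coneW (nat_lit 35) [nat_lit 34359738368])
   (.node (nat_lit 35) (.coneW (nat_lit 40) [nat_lit 1099511627776])
   (.node (nat_lit 3) (.coneW (nat_lit 39) [nat_lit 549755813888])
   (.node (nat_lit 39) (.coneW (nat_lit 43) [nat_lit 8796093022208])
   (.coneW (nat_lit 41) [nat_lit 3298534883328, nat_lit 10995116277760])))))
   (.node (nat_lit 40) (.coneW (nat_lit 35) [nat_lit 2233382993920])
   (.node (nat_lit 41) (.coneW (nat_lit 35) [nat_lit 8830452760576])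
   (.node (nat_lit 43) (.coneW (nat_lit 35) [nat_lit 584115552256])
   (.node (nat_lit 39) (.coneW (nat_lit 3) [nat_lit 34359738376])
   (.node (nat_lit 35) (.coneW (nat_lit 31) [nat_lit 2147483776, nat_lit 2147483656])
   (.node (nat_lit 31) (.node (nat_lit 3) (.coneW (nat_lit 32) [nat_lit 4294967296])
   (.node (nat_lit 7) (.coneW (nat_lit 29) [nat_lit 536870912])
   (.node (nat_lit 29) (.coneW (nat_lit 33) [nat_lit 8589934592])
   (.node (nat_lit 32) (.coneW (nat_lit 36) [nat_lit 68719476736])
   (.coneW (nat_lit 34) [nat_lit 25769803776, nat_lit 85899345920])))))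
   (.node (nat_lit 33) (.coneW (nat_lit 29) [nat_lit 17716740096])
   (.node (nat_lit 34) (.coneW (nat_lit 29) [nat_lit 69256347648])
   (.node (nat_lit 36) (.coneW (nat_lit 29) [nat_lit 4831838208])
   (.node (nat_lit 32) (.coneW (nat_lit 3) [nat_lit 536870920])
   (.node (nat_lit 29) (.coneW (nat_lit 19) [nat_lit 524416, nat_lit 524296])
   (.node (nat_lit 4) (.node (nat_lit 7) (.cone (nat_lit 0))
   (.node (nat_lit 3) (.cone (nat_lit 1))
   (.node (nat_lit 0) (.coneW (nat_lit 6) [nat_lit 64])
   (.node (nat_lit 1) (.coneW (nat_lit 9) [nat_lit 512])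
   (.coneW (nat_lit 5) [nat_lit 96, nat_lit 544])))))
   (.node (nat_lit 6) (.coneW (nat_lit 0) [nat_lit 33])
   (.node (nat_lit 5) (.coneW (nat_lit 0) [nat_lit 513])
   (.node (nat_lit 9) (.coneW (nat_lit 0) [nat_lit 3])
   (.node (nat_lit 1) (.coneW (nat_lit 0) [nat_lit 9])
   (.node (nat_lit 0) (.coneW (nat_lit 10) [nat_lit 1152, nat_lit 1032])
   (.node (nat_lit 10) (.coneW (nat_lit 26) [nat_lit 67108992, nat_lit 67108872])
   (.node (nat_lit 7) (.node (nat_lit 26) (.coneW (nat_lit 12) [nat_lit 4096])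
   (.coneW (nat_lit 27) [nat_lit 134221824, nat_lit 134742016]))
   (.node (nat_lit 19) (.node (nat_lit 27) (.coneW (nat_lit 24) [nat_lit 16777216])
   (.node (nat_lit 3) (.coneW (nat_lit 20) [nat_lit 1048576])
   (.node (nat_lit 20) (.coneW (nat_lit 30) [nat_lit 1073741824])
   (.coneW (nat_lit 22) [nat_lit 20971520, nat_lit 1077936128]))))
   (.node (nat_lit 24) (.coneW (nat_lit 22) [nat_lit 138412032])
   (.node (nat_lit 22) (.coneW (nat_lit 27) [nat_lit 1207959552])
   (.node (nat_lit 30) (.coneW (nat_lit 20) [nat_lit 135266304])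
   (.node (nat_lit 20) (.coneW (nat_lit 3) [nat_lit 134217736])
   (.node (nat_lit 27) (.coneW (nat_lit 3) [nat_lit 4104])
   (.node (nat_lit 3) (.coneW (nat_lit 13) [nat_lit 12288, nat_lit 67117056])
   (.node (nat_lit 13) (.coneW (nat_lit 28) [nat_lit 268439552, nat_lit 335544320])
   (.node (nat_lit 28) (.coneW (nat_lit 15) [nat_lit 67141632, nat_lit 36864])
   (.coneW (nat_lit 17) [nat_lit 67272704, nat_lit 167936, nat_lit 67244032]))))))))))))))))))))))))))))))),
   (.node (nat_lit 4) (.cone (nat_lit 1))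
   (.node (nat_lit 1) (.node (nat_lit 11) (.coneW (nat_lit 10) [nat_lit 1024])
   (.node (nat_lit 2) (.coneW (nat_lit 0) [nat_lit 1])
   (.node (nat_lit 10) (.coneW (nat_lit 9) [nat_lit 512])
   (.node (nat_lit 9) (.coneW (nat_lit 8) [nat_lit 256])
   (.coneW (nat_lit 6) [nat_lit 320, nat_lit 65])))))
   (.node (nat_lit 9) (.coneW (nat_lit 8) [nat_lit 1280])
   (.node (nat_lit 8) (.coneW (nat_lit 6) [nat_lit 1088])
   (.node (nat_lit 6) (.coneW (nat_lit 0) [nat_lit 1025])
   (.node (nat_lit 0) (.coneW (nat_lit 2) [nat_lit 1028])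
   (.node (nat_lit 10) (.coneW (nat_lit 26) [nat_lit 67110912, nat_lit 67108868])
   (.node (nat_lit 26) (.coneW (nat_lit 13) [nat_lit 10240, nat_lit 8196])
   (.node (nat_lit 42) (.node (nat_lit 2) (.cone (nat_lit 38))
   (.node (nat_lit 11) (.cone (nat_lit 39))
   (.node (nat_lit 39) (.coneW (nat_lit 43) [nat_lit 8796093022208])
   (.node (nat_lit 43) (.coneW (nat_lit 44) [nat_lit 17592186044416])
   (.coneW (nat_lit 40) [nat_lit 1374389534720, nat_lit 18691697672192])))))
   (.node (nat_lit 43) (.coneW (nat_lit 39) [nat_lit 18141941858304])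
   (.node (nat_lit 44) (.coneW (nat_lit 39) [nat_lit 1649267441664])
   (.node (nat_lit 40) (.coneW (nat_lit 38) [nat_lit 824633720832])
   (.node (nat_lit 38) (.coneW (nat_lit 2) [nat_lit 549755813892])
   (.node (nat_lit 39) (.coneW (nat_lit 35) [nat_lit 34359740416, nat_lit 34359738372])
   (.node (nat_lit 11) (.node (nat_lit 13) (.coneW (nat_lit 27) [nat_lit 134217728])
   (.node (nat_lit 27) (.coneW (nat_lit 20) [nat_lit 1048576])
   (.node (nat_lit 35) (.coneW (nat_lit 32) [nat_lit 4294967296])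
   (.coneW (nat_lit 29) [nat_lit 537919488, nat_lit 4831838208]))))
   (.node (nat_lit 13) (.node (nat_lit 27) (.coneW (nat_lit 28) [nat_lit 268435456])
   (.node (nat_lit 28) (.coneW (nat_lit 18) [nat_lit 262144])
   (.node (nat_lit 2) (.coneW (nat_lit 12) [nat_lit 4096])
   (.coneW (nat_lit 17) [nat_lit 135168, nat_lit 393216]))))
   (.node (nat_lit 28) (.coneW (nat_lit 18) [nat_lit 134479872])
   (.node (nat_lit 18) (.coneW (nat_lit 17) [nat_lit 134348800])
   (.node (nat_lit 17) (.coneW (nat_lit 12) [nat_lit 134221824])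
   (.node (nat_lit 12) (.coneW (nat_lit 2) [nat_lit 134217732])
   (.node (nat_lit 27) (.coneW (nat_lit 2) [nat_lit 1048580])
   (.node (nat_lit 20) (.node (nat_lit 2) (.coneW (nat_lit 19) [nat_lit 524288])
   (.node (nat_lit 19) (.coneW (nat_lit 24) [nat_lit 16777216])
   (.node (nat_lit 24) (.coneW (nat_lit 25) [nat_lit 33554432])
   (.coneW (nat_lit 30) [nat_lit 1107296256, nat_lit 1610612736]))))
   (.node (nat_lit 30) (.coneW (nat_lit 25) [nat_lit 570425344])
   (.node (nat_lit 25) (.coneW (nat_lit 24) [nat_lit 553648128])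
   (.node (nat_lit 24) (.coneW (nat_lit 19) [nat_lit 537395200])
   (.node (nat_lit 19) (.coneW (nat_lit 2) [nat_lit 536870916])
   (.node (nat_lit 29) (.coneW (nat_lit 2) [nat_lit 4294967300])
   (.node (nat_lit 2) (.coneW (nat_lit 31) [nat_lit 6442450944, nat_lit 36507222016])
   (.node (nat_lit 31) (.coneW (nat_lit 33) [nat_lit 12884901888, nat_lit 42949672960])
   (.node (nat_lit 33) (.coneW (nat_lit 37) [nat_lit 141733920768, nat_lit 171798691840])
   (.coneW (nat_lit 36) [nat_lit 240518168576, nat_lit 210453397504, nat_lit 107374182400]))))))))))))))))))))))))))))))),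
   (.node (nat_lit 60) (.cone (nat_lit 5))
   (.node (nat_lit 7) (.cone (nat_lit 0))
   (.node (nat_lit 0) (.coneW (nat_lit 2) [nat_lit 68])
   (.node (nat_lit 6) (.coneW (nat_lit 2) [nat_lit 36])
   (.node (nat_lit 5) (.coneW (nat_lit 2) [nat_lit 516])
   (.coneW (nat_lit 1) [nat_lit 2562, nat_lit 518, nat_lit 2058, nat_lit 14])))))),
   (.node (nat_lit 60) (.cone (nat_lit 4))
   (.node (nat_lit 23) (.cone (nat_lit 19))
   (.node (nat_lit 21) (.cone (nat_lit 19))
   (.node (nat_lit 19) (.coneW (nat_lit 0) [nat_lit 65537])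
   (.node (nat_lit 14) (.cone (nat_lit 12))
   (.node (nat_lit 16) (.coneW (nat_lit 0) [nat_lit 4097])
   (.node (nat_lit 12) (.coneW (nat_lit 0) [nat_lit 513])
   (.coneW (nat_lit 2) [nat_lit 517, nat_lit 69, nat_lit 532, nat_lit 84])))))))),
   (.node (nat_lit 60) (.cone (nat_lit 4))
   (.node (nat_lit 5) (.coneW (nat_lit 2) [nat_lit 20, nat_lit 5])
   (.node (nat_lit 2) (.coneW (nat_lit 0) [nat_lit 17])
   (.node (nat_lit 4) (.coneW (nat_lit 0) [nat_lit 129])
   (.node (nat_lit 7) (.cone (nat_lit 0))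
   (.coneW (nat_lit 3) [nat_lit 1288, nat_lit 1033, nat_lit 266, nat_lit 11])))))),
   (.node (nat_lit 42) (.cone (nat_lit 38))
   (.node (nat_lit 40) (.cone (nat_lit 38))
   (.node (nat_lit 38) (.coneW (nat_lit 2) [nat_lit 34359738372])
   (.node (nat_lit 4) (.cone (nat_lit 0))
   (.node (nat_lit 6) (.cone (nat_lit 0))
   (.node (nat_lit 0) (.coneW (nat_lit 2) [nat_lit 1028])
   (.node (nat_lit 33) (.cone (nat_lit 31))
   (.node (nat_lit 35) (.coneW (nat_lit 2) [nat_lit 2147483652])
   (.node (nat_lit 31) (.coneW (nat_lit 2) [nat_lit 536870916])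
   (.node (nat_lit 29) (.coneW (nat_lit 19) [nat_lit 17301504, nat_lit 524292])
   (.node (nat_lit 10) (.coneW (nat_lit 26) [nat_lit 67239936, nat_lit 67108868])
   (.node (nat_lit 26) (.coneW (nat_lit 12) [nat_lit 135168, nat_lit 4100])
   (.coneW (nat_lit 27) [nat_lit 134352896, nat_lit 151519232, nat_lit 134221828, nat_lit 134742020, nat_lit 151126016]))))))))))))),
   (.node (nat_lit 23) (.cone (nat_lit 20))
   (.node (nat_lit 6) (.cone (nat_lit 3))
   (.node (nat_lit 24) (.coneW (nat_lit 16) [nat_lit 1114112, nat_lit 196608])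
   (.node (nat_lit 20) (.coneW (nat_lit 1) [nat_lit 65538])
   (.node (nat_lit 16) (.coneW (nat_lit 13) [nat_lit 139264, nat_lit 8194])
   (.coneW (nat_lit 9) [nat_lit 139776, nat_lit 8706, nat_lit 132608, nat_lit 1544, nat_lit 522])))))),
   (.node (nat_lit 14) (.node (nat_lit 5) (.cone (nat_lit 12))
   (.coneW (nat_lit 0) [nat_lit 32769, nat_lit 4097]))
   (.node (nat_lit 12) (.coneW (nat_lit 0) [nat_lit 33])
   (.node (nat_lit 15) (.coneW (nat_lit 17) [nat_lit 67239936, nat_lit 131073])
   (.node (nat_lit 26) (.coneW (nat_lit 10) [nat_lit 132096, nat_lit 3072])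
   (.node (nat_lit 11) (.coneW (nat_lit 1) [nat_lit 1026, nat_lit 18])
   (.node (nat_lit 4) (.coneW (nat_lit 2) [nat_lit 36, nat_lit 6])
   (.node (nat_lit 5) (.coneW (nat_lit 0) [nat_lit 5])
   (.node (nat_lit 2) (.coneW (nat_lit 0) [nat_lit 3])
   (.node (nat_lit 0) (.coneW (nat_lit 13) [nat_lit 8194, nat_lit 139264])
   (.node (nat_lit 13) (.coneW (nat_lit 8) [nat_lit 131328, nat_lit 258])
   (.node (nat_lit 17) (.coneW (nat_lit 8) [nat_lit 1280])
   (.coneW (nat_lit 3) [nat_lit 1288, nat_lit 1034, nat_lit 266])))))))))))),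
   (.node (nat_lit 17) (.node (nat_lit 8) (.cone (nat_lit 9))
   (.coneW (nat_lit 26) [nat_lit 67109376, nat_lit 67108992]))
   (.node (nat_lit 8) (.coneW (nat_lit 3) [nat_lit 520, nat_lit 72])
   (.node (nat_lit 6) (.coneW (nat_lit 0) [nat_lit 129, nat_lit 9])
   (.node (nat_lit 7) (.coneW (nat_lit 2) [nat_lit 67108868, nat_lit 5])
   (.node (nat_lit 0) (.coneW (nat_lit 2) [nat_lit 12])
   (.node (nat_lit 2) (.coneW (nat_lit 3) [nat_lit 67108872])
   (.node (nat_lit 26) (.coneW (nat_lit 11) [nat_lit 2560, nat_lit 2056])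
   (.coneW (nat_lit 1) [nat_lit 2562, nat_lit 522, nat_lit 2058])))))))),
   (.node (nat_lit 4) (.cone (nat_lit 1))
   (.node (nat_lit 42) (.cone (nat_lit 39))
   (.node (nat_lit 9) (.coneW (nat_lit 10) [nat_lit 67109888, nat_lit 1026])
   (.node (nat_lit 1) (.coneW (nat_lit 3) [nat_lit 1032])
   (.node (nat_lit 10) (.coneW (nat_lit 3) [nat_lit 67108872])
   (.node (nat_lit 43) (.coneW (nat_lit 35) [nat_lit 584115552256, nat_lit 103079215104])
   (.node (nat_lit 39) (.coneW (nat_lit 3) [nat_lit 34359738376])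
   (.node (nat_lit 26) (.coneW (nat_lit 13) [nat_lit 8200, nat_lit 268443648])
   (.node (nat_lit 28) (.coneW (nat_lit 27) [nat_lit 134225920, nat_lit 1207959552])
   (.node (nat_lit 13) (.coneW (nat_lit 3) [nat_lit 134217736])
   (.node (nat_lit 35) (.coneW (nat_lit 32) [nat_lit 73014444032, nat_lit 4294967304])
   (.node (nat_lit 27) (.coneW (nat_lit 20) [nat_lit 1074790400, nat_lit 1048584])
   (.coneW (nat_lit 29) [nat_lit 1611661312, nat_lit 73551314944, nat_lit 70330089472, nat_lit 537919496, nat_lit 4831838216]))))))))))))),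
   (.node (nat_lit 50) (.cone (nat_lit 38))
   (.node (nat_lit 14) (.node (nat_lit 15) (.cone (nat_lit 0))
   (.node (nat_lit 0) (.coneW (nat_lit 9) [nat_lit 512])
   (.node (nat_lit 13) (.cone (nat_lit 1))
   (.node (nat_lit 9) (.coneW (nat_lit 5) [nat_lit 32])
   (.coneW (nat_lit 16) [nat_lit 65568, nat_lit 65538])))))
   (.node (nat_lit 9) (.coneW (nat_lit 0) [nat_lit 33])
   (.node (nat_lit 5) (.coneW (nat_lit 0) [nat_lit 65537])
   (.node (nat_lit 16) (.coneW (nat_lit 0) [nat_lit 3])
   (.node (nat_lit 1) (.coneW (nat_lit 0) [nat_lit 8193])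
   (.node (nat_lit 0) (.coneW (nat_lit 17) [nat_lit 139264, nat_lit 163840])
   (.node (nat_lit 38) (.node (nat_lit 13) (.coneW (nat_lit 39) [nat_lit 549755813888])
   (.node (nat_lit 15) (.coneW (nat_lit 48) [nat_lit 281474976710656])
   (.node (nat_lit 39) (.coneW (nat_lit 51) [nat_lit 2251799813685248])
   (.node (nat_lit 48) (.coneW (nat_lit 43) [nat_lit 8796093022208])
   (.coneW (nat_lit 41) [nat_lit 10995116277760, nat_lit 2253998836940800])))))
   (.node (nat_lit 43) (.coneW (nat_lit 41) [nat_lit 283673999966208])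
   (.node (nat_lit 41) (.coneW (nat_lit 48) [nat_lit 2533274790395904])
   (.node (nat_lit 51) (.coneW (nat_lit 39) [nat_lit 282024732524544])
   (.node (nat_lit 39) (.coneW (nat_lit 13) [nat_lit 281474976718848])
   (.node (nat_lit 48) (.coneW (nat_lit 31) [nat_lit 2147516416, nat_lit 2147491840])
   (.node (nat_lit 17) (.node (nat_lit 13) (.coneW (nat_lit 3) [nat_lit 8])
   (.node (nat_lit 3) (.coneW (nat_lit 27) [nat_lit 134217728])
   (.node (nat_lit 15) (.coneW (nat_lit 2) [nat_lit 4])
   (.node (nat_lit 2) (.coneW (nat_lit 26) [nat_lit 67108864])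
   (.coneW (nat_lit 7) [nat_lit 134217856, nat_lit 67108992])))))
   (.node (nat_lit 26) (.coneW (nat_lit 2) [nat_lit 132])
   (.node (nat_lit 7) (.coneW (nat_lit 2) [nat_lit 134217732])
   (.node (nat_lit 27) (.coneW (nat_lit 2) [nat_lit 12])
   (.node (nat_lit 3) (.coneW (nat_lit 2) [nat_lit 8196])
   (.node (nat_lit 2) (.coneW (nat_lit 28) [nat_lit 268443648, nat_lit 268468224])
   (.node (nat_lit 28) (.coneW (nat_lit 45) [nat_lit 35184372121600, nat_lit 35184372097024])
   (.node (nat_lit 15) (.node (nat_lit 45) (.coneW (nat_lit 19) [nat_lit 524288])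
   (.coneW (nat_lit 46) [nat_lit 70368744701952, nat_lit 70370891661312]))
   (.node (nat_lit 45) (.node (nat_lit 19) (.coneW (nat_lit 30) [nat_lit 1073741824])
   (.node (nat_lit 30) (.coneW (nat_lit 22) [nat_lit 4194304])
   (.node (nat_lit 22) (.coneW (nat_lit 47) [nat_lit 140737488355328])
   (.coneW (nat_lit 20) [nat_lit 1056768, nat_lit 140737489403904]))))
   (.node (nat_lit 30) (.coneW (nat_lit 19) [nat_lit 4718592])
   (.node (nat_lit 22) (.coneW (nat_lit 19) [nat_lit 140737488879616])
   (.node (nat_lit 47) (.coneW (nat_lit 19) [nat_lit 1572864])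
   (.node (nat_lit 20) (.coneW (nat_lit 13) [nat_lit 532480])
   (.node (nat_lit 19) (.coneW (nat_lit 13) [nat_lit 70368744185856])
   (.node (nat_lit 13) (.coneW (nat_lit 32) [nat_lit 70373039144960, nat_lit 6442450944])
   (.node (nat_lit 32) (.coneW (nat_lit 49) [nat_lit 562952100904960, nat_lit 633318697598976])
   (.node (nat_lit 49) (.coneW (nat_lit 34) [nat_lit 70385924046848, nat_lit 19327352832])
   (.coneW (nat_lit 36) [nat_lit 70454643523584, nat_lit 88046829568, nat_lit 70439611138048]))))))))))))))))))))))))))))))),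
   (.node (nat_lit 14) (.cone (nat_lit 1))
   (.node (nat_lit 1) (.node (nat_lit 12) (.coneW (nat_lit 0) [nat_lit 1])
   (.node (nat_lit 18) (.coneW (nat_lit 17) [nat_lit 131072])
   (.node (nat_lit 0) (.coneW (nat_lit 9) [nat_lit 512])
   (.node (nat_lit 17) (.coneW (nat_lit 16) [nat_lit 65536])
   (.coneW (nat_lit 8) [nat_lit 65792, nat_lit 768])))))
   (.node (nat_lit 16) (.coneW (nat_lit 8) [nat_lit 131328])
   (.node (nat_lit 8) (.coneW (nat_lit 9) [nat_lit 131584])
   (.node (nat_lit 9) (.coneW (nat_lit 0) [nat_lit 131073])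
   (.node (nat_lit 0) (.coneW (nat_lit 12) [nat_lit 135168])
   (.node (nat_lit 17) (.coneW (nat_lit 3) [nat_lit 4104, nat_lit 262152])
   (.node (nat_lit 50) (.node (nat_lit 18) (.cone (nat_lit 39))
   (.node (nat_lit 12) (.cone (nat_lit 38))
   (.node (nat_lit 38) (.coneW (nat_lit 43) [nat_lit 8796093022208])
   (.node (nat_lit 39) (.coneW (nat_lit 51) [nat_lit 2251799813685248])
   (.coneW (nat_lit 44) [nat_lit 2269391999729664, nat_lit 26388279066624])))))
   (.node (nat_lit 51) (.coneW (nat_lit 39) [nat_lit 18141941858304])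
   (.node (nat_lit 44) (.coneW (nat_lit 39) [nat_lit 9345848836096])
   (.node (nat_lit 43) (.coneW (nat_lit 38) [nat_lit 824633720832])
   (.node (nat_lit 38) (.coneW (nat_lit 12) [nat_lit 549755817984])
   (.node (nat_lit 39) (.coneW (nat_lit 48) [nat_lit 281474976714752, nat_lit 281474976972800])
   (.node (nat_lit 3) (.node (nat_lit 18) (.coneW (nat_lit 28) [nat_lit 268435456])
   (.node (nat_lit 28) (.coneW (nat_lit 27) [nat_lit 134217728])
   (.node (nat_lit 27) (.coneW (nat_lit 11) [nat_lit 2048])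
   (.node (nat_lit 11) (.coneW (nat_lit 26) [nat_lit 67108864])
   (.coneW (nat_lit 2) [nat_lit 4100, nat_lit 67108868])))))
   (.node (nat_lit 27) (.coneW (nat_lit 11) [nat_lit 268437504])
   (.node (nat_lit 11) (.coneW (nat_lit 26) [nat_lit 335544320])
   (.node (nat_lit 26) (.coneW (nat_lit 2) [nat_lit 268435460])
   (.node (nat_lit 2) (.coneW (nat_lit 12) [nat_lit 268439552])
   (.node (nat_lit 28) (.coneW (nat_lit 45) [nat_lit 35184372092928, nat_lit 35184372350976])
   (.node (nat_lit 45) (.coneW (nat_lit 20) [nat_lit 1052672, nat_lit 1310720])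
   (.node (nat_lit 18) (.node (nat_lit 20) (.coneW (nat_lit 46) [nat_lit 70368744177664])
   (.coneW (nat_lit 32) [nat_lit 281479271677952, nat_lit 70373039144960]))
   (.node (nat_lit 20) (.node (nat_lit 12) (.coneW (nat_lit 19) [nat_lit 524288])
   (.node (nat_lit 19) (.coneW (nat_lit 30) [nat_lit 1073741824])
   (.node (nat_lit 30) (.coneW (nat_lit 25) [nat_lit 33554432])
   (.coneW (nat_lit 47) [nat_lit 140737521909760, nat_lit 211106232532992]))))
   (.node (nat_lit 47) (.coneW (nat_lit 25) [nat_lit 70368777732096])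
   (.node (nat_lit 25) (.coneW (nat_lit 30) [nat_lit 70369817919488])
   (.node (nat_lit 30) (.coneW (nat_lit 19) [nat_lit 70368744701952])
   (.node (nat_lit 19) (.coneW (nat_lit 12) [nat_lit 70368744181760])
   (.node (nat_lit 46) (.coneW (nat_lit 12) [nat_lit 4294971392])
   (.node (nat_lit 12) (.coneW (nat_lit 31) [nat_lit 6442450944, nat_lit 281477124194304])
   (.node (nat_lit 31) (.coneW (nat_lit 36) [nat_lit 73014444032, nat_lit 281543696187392])
   (.node (nat_lit 36) (.coneW (nat_lit 37) [nat_lit 141733920768, nat_lit 281612415664128])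
   (.coneW (nat_lit 49) [nat_lit 844562369085440, nat_lit 563091687342080, nat_lit 844429225099264]))))))))))))))))))))))))))))))),
   (.node (nat_lit 15) (.cone (nat_lit 0))
   (.node (nat_lit 0) (.coneW (nat_lit 9) [nat_lit 4608])
   (.node (nat_lit 9) (.coneW (nat_lit 5) [nat_lit 4128])
   (.node (nat_lit 5) (.cone (nat_lit 12))
   (.coneW (nat_lit 1) [nat_lit 12290, nat_lit 270338, nat_lit 327682, nat_lit 69634]))))),
   (.node (nat_lit 50) (.cone (nat_lit 38))
   (.node (nat_lit 14) (.cone (nat_lit 0))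
   (.node (nat_lit 9) (.coneW (nat_lit 17) [nat_lit 67239936, nat_lit 131073])
   (.node (nat_lit 0) (.coneW (nat_lit 12) [nat_lit 135168])
   (.node (nat_lit 43) (.coneW (nat_lit 48) [nat_lit 281749854617600, nat_lit 281543696187392])
   (.node (nat_lit 38) (.coneW (nat_lit 12) [nat_lit 281474976714752])
   (.node (nat_lit 26) (.coneW (nat_lit 2) [nat_lit 131076, nat_lit 268435460])
   (.node (nat_lit 17) (.coneW (nat_lit 2) [nat_lit 4100])
   (.node (nat_lit 2) (.coneW (nat_lit 12) [nat_lit 268439552])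
   (.node (nat_lit 48) (.coneW (nat_lit 31) [nat_lit 70866960384, nat_lit 2147487744])
   (.node (nat_lit 28) (.coneW (nat_lit 45) [nat_lit 35184372092928, nat_lit 35185445830656])
   (.node (nat_lit 45) (.coneW (nat_lit 19) [nat_lit 1074266112, nat_lit 528384])
   (.coneW (nat_lit 46) [nat_lit 70369818443776, nat_lit 70368744706048, nat_lit 70439611138048, nat_lit 70370891665408, nat_lit 70438537396224]))))))))))))),
   (.node (nat_lit 21) (.node (nat_lit 5) (.cone (nat_lit 19))
   (.coneW (nat_lit 0) [nat_lit 4194305, nat_lit 524289]))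
   (.node (nat_lit 19) (.coneW (nat_lit 0) [nat_lit 33])
   (.node (nat_lit 22) (.coneW (nat_lit 24) [nat_lit 150994944, nat_lit 16777217])
   (.node (nat_lit 27) (.coneW (nat_lit 17) [nat_lit 16908288, nat_lit 393216])
   (.node (nat_lit 18) (.coneW (nat_lit 1) [nat_lit 131074, nat_lit 16386])
   (.node (nat_lit 14) (.coneW (nat_lit 12) [nat_lit 4128, nat_lit 4098])
   (.node (nat_lit 5) (.coneW (nat_lit 0) [nat_lit 4097])
   (.node (nat_lit 12) (.coneW (nat_lit 0) [nat_lit 3])
   (.node (nat_lit 0) (.coneW (nat_lit 20) [nat_lit 1048578, nat_lit 17825792])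
   (.node (nat_lit 20) (.coneW (nat_lit 8) [nat_lit 16777472, nat_lit 258])
   (.node (nat_lit 24) (.coneW (nat_lit 8) [nat_lit 131328])
   (.coneW (nat_lit 13) [nat_lit 139520, nat_lit 8450, nat_lit 139266])))))))))))),
   (.node (nat_lit 24) (.node (nat_lit 8) (.cone (nat_lit 16))
   (.coneW (nat_lit 27) [nat_lit 134283264, nat_lit 134217856]))
   (.node (nat_lit 10) (.node (nat_lit 7) (.cone (nat_lit 26))
   (.coneW (nat_lit 9) [nat_lit 67109376, nat_lit 768]))
   (.node (nat_lit 7) (.coneW (nat_lit 12) [nat_lit 67112960, nat_lit 134221824])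
   (.node (nat_lit 8) (.coneW (nat_lit 13) [nat_lit 73728, nat_lit 8704])
   (.node (nat_lit 27) (.node (nat_lit 12) (.coneW (nat_lit 3) [nat_lit 8])
   (.coneW (nat_lit 18) [nat_lit 327680, nat_lit 262152]))
   (.node (nat_lit 16) (.coneW (nat_lit 1) [nat_lit 262146, nat_lit 8194])
   (.node (nat_lit 1) (.coneW (nat_lit 13) [nat_lit 270336])
   (.node (nat_lit 18) (.coneW (nat_lit 3) [nat_lit 8200])
   (.node (nat_lit 3) (.coneW (nat_lit 12) [nat_lit 12288])
   (.node (nat_lit 13) (.coneW (nat_lit 0) [nat_lit 4097, nat_lit 513])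
   (.node (nat_lit 0) (.coneW (nat_lit 15) [nat_lit 33280, nat_lit 36864])
   (.node (nat_lit 9) (.coneW (nat_lit 15) [nat_lit 67141632])
   (.coneW (nat_lit 2) [nat_lit 67141636, nat_lit 36868, nat_lit 67112964]))))))))))))),
   (.node (nat_lit 50) (.cone (nat_lit 39))
   (.node (nat_lit 51) (.coneW (nat_lit 48) [nat_lit 282024732524544, nat_lit 844424930131968])
   (.node (nat_lit 39) (.coneW (nat_lit 13) [nat_lit 281474976718848])
   (.node (nat_lit 48) (.coneW (nat_lit 32) [nat_lit 4294975488, nat_lit 562954248388608])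
   (.node (nat_lit 49) (.coneW (nat_lit 46) [nat_lit 70373039144960, nat_lit 211106232532992])
   (.node (nat_lit 32) (.coneW (nat_lit 13) [nat_lit 70368744185856])
   (.node (nat_lit 47) (.coneW (nat_lit 20) [nat_lit 70368745226240, nat_lit 35184373137408])
   (.node (nat_lit 46) (.coneW (nat_lit 13) [nat_lit 1056768])
   (.node (nat_lit 20) (.coneW (nat_lit 13) [nat_lit 35184372097024])
   (.node (nat_lit 14) (.cone (nat_lit 1))
   (.node (nat_lit 45) (.coneW (nat_lit 28) [nat_lit 268443648, nat_lit 402653184])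
   (.node (nat_lit 28) (.coneW (nat_lit 3) [nat_lit 8200, nat_lit 134217736])
   (.coneW (nat_lit 17) [nat_lit 139266, nat_lit 196610, nat_lit 134414336, nat_lit 139272, nat_lit 134348808]))))))))))))),
   (.node (nat_lit 55) (.cone (nat_lit 38))
   (.node (nat_lit 38) (.node (nat_lit 20) (.coneW (nat_lit 39) [nat_lit 549755813888])
   (.node (nat_lit 39) (.coneW (nat_lit 56) [nat_lit 72057594037927936])
   (.node (nat_lit 22) (.coneW (nat_lit 53) [nat_lit 9007199254740992])
   (.node (nat_lit 53) (.coneW (nat_lit 51) [nat_lit 2251799813685248])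
   (.coneW (nat_lit 41) [nat_lit 2253998836940800, nat_lit 72059793061183488])))))
   (.node (nat_lit 51) (.coneW (nat_lit 41) [nat_lit 9009398277996544])
   (.node (nat_lit 41) (.coneW (nat_lit 53) [nat_lit 81064793292668928])
   (.node (nat_lit 56) (.coneW (nat_lit 39) [nat_lit 9007749010554880])
   (.node (nat_lit 39) (.coneW (nat_lit 20) [nat_lit 9007199255789568])
   (.node (nat_lit 53) (.coneW (nat_lit 31) [nat_lit 2151677952, nat_lit 2148532224])
   (.node (nat_lit 21) (.node (nat_lit 22) (.cone (nat_lit 0))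
   (.node (nat_lit 0) (.coneW (nat_lit 16) [nat_lit 65536])
   (.node (nat_lit 16) (.coneW (nat_lit 5) [nat_lit 32])
   (.node (nat_lit 20) (.cone (nat_lit 1))
   (.coneW (nat_lit 23) [nat_lit 8388640, nat_lit 8388610])))))
   (.node (nat_lit 16) (.coneW (nat_lit 0) [nat_lit 33])
   (.node (nat_lit 5) (.coneW (nat_lit 0) [nat_lit 8388609])
   (.node (nat_lit 23) (.coneW (nat_lit 0) [nat_lit 3])
   (.node (nat_lit 1) (.coneW (nat_lit 0) [nat_lit 1048577])
   (.node (nat_lit 0) (.coneW (nat_lit 24) [nat_lit 17825792, nat_lit 20971520])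
   (.node (nat_lit 31) (.node (nat_lit 22) (.coneW (nat_lit 52) [nat_lit 4503599627370496])
   (.node (nat_lit 52) (.coneW (nat_lit 49) [nat_lit 562949953421312])
   (.node (nat_lit 49) (.coneW (nat_lit 34) [nat_lit 17179869184])
   (.node (nat_lit 34) (.coneW (nat_lit 54) [nat_lit 18014398509481984])
   (.coneW (nat_lit 32) [nat_lit 4296015872, nat_lit 18014402804449280])))))
   (.node (nat_lit 49) (.coneW (nat_lit 34) [nat_lit 4503616807239680])
   (.node (nat_lit 34) (.coneW (nat_lit 52) [nat_lit 22517998136852480])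
   (.node (nat_lit 54) (.coneW (nat_lit 32) [nat_lit 4503603922337792])
   (.node (nat_lit 32) (.coneW (nat_lit 20) [nat_lit 4503599628419072])
   (.node (nat_lit 52) (.coneW (nat_lit 47) [nat_lit 140737489403904, nat_lit 140737492549632])
   (.node (nat_lit 47) (.coneW (nat_lit 12) [nat_lit 4198400, nat_lit 1052672])
   (.node (nat_lit 22) (.node (nat_lit 24) (.coneW (nat_lit 2) [nat_lit 4])
   (.coneW (nat_lit 30) [nat_lit 1073745920, nat_lit 1073741828]))
   (.node (nat_lit 24) (.node (nat_lit 2) (.coneW (nat_lit 27) [nat_lit 134217728])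
   (.node (nat_lit 27) (.coneW (nat_lit 7) [nat_lit 128])
   (.node (nat_lit 20) (.coneW (nat_lit 3) [nat_lit 8])
   (.coneW (nat_lit 29) [nat_lit 536871040, nat_lit 536870920]))))
   (.node (nat_lit 27) (.coneW (nat_lit 2) [nat_lit 132])
   (.node (nat_lit 7) (.coneW (nat_lit 2) [nat_lit 536870916])
   (.node (nat_lit 29) (.coneW (nat_lit 2) [nat_lit 12])
   (.node (nat_lit 3) (.coneW (nat_lit 2) [nat_lit 1048580])
   (.node (nat_lit 2) (.coneW (nat_lit 20) [nat_lit 1074790400])
   (.node (nat_lit 20) (.coneW (nat_lit 13) [nat_lit 12288, nat_lit 1073750016])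
   (.node (nat_lit 13) (.coneW (nat_lit 46) [nat_lit 70368744181760, nat_lit 70369817919488])
   (.node (nat_lit 46) (.coneW (nat_lit 15) [nat_lit 1073774592, nat_lit 36864])
   (.coneW (nat_lit 45) [nat_lit 35184372125696, nat_lit 35185445863424, nat_lit 35185445834752]))))))))))))))))))))))))))))))),
   (.node (nat_lit 21) (.cone (nat_lit 1))
   (.node (nat_lit 1) (.node (nat_lit 19) (.coneW (nat_lit 0) [nat_lit 1])
   (.node (nat_lit 0) (.coneW (nat_lit 16) [nat_lit 65536])
   (.node (nat_lit 25) (.coneW (nat_lit 24) [nat_lit 16777216])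
   (.node (nat_lit 24) (.coneW (nat_lit 23) [nat_lit 8388608])
   (.coneW (nat_lit 8) [nat_lit 8388864, nat_lit 65792])))))
   (.node (nat_lit 23) (.coneW (nat_lit 8) [nat_lit 16777472])
   (.node (nat_lit 8) (.coneW (nat_lit 16) [nat_lit 16842752])
   (.node (nat_lit 16) (.coneW (nat_lit 0) [nat_lit 16777217])
   (.node (nat_lit 0) (.coneW (nat_lit 19) [nat_lit 17301504])
   (.node (nat_lit 24) (.coneW (nat_lit 3) [nat_lit 33554440, nat_lit 524296])
   (.node (nat_lit 55) (.node (nat_lit 19) (.cone (nat_lit 38))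
   (.node (nat_lit 38) (.coneW (nat_lit 51) [nat_lit 2251799813685248])
   (.node (nat_lit 51) (.coneW (nat_lit 44) [nat_lit 17592186044416])
   (.node (nat_lit 25) (.cone (nat_lit 39))
   (.coneW (nat_lit 56) [nat_lit 72075186223972352, nat_lit 72058143793741824])))))
   (.node (nat_lit 56) (.coneW (nat_lit 39) [nat_lit 18141941858304])
   (.node (nat_lit 44) (.coneW (nat_lit 39) [nat_lit 2252349569499136])
   (.node (nat_lit 51) (.coneW (nat_lit 38) [nat_lit 824633720832])
   (.node (nat_lit 38) (.coneW (nat_lit 19) [nat_lit 549756338176])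
   (.node (nat_lit 39) (.coneW (nat_lit 53) [nat_lit 9007199288295424, nat_lit 9007199255265280])
   (.node (nat_lit 53) (.node (nat_lit 19) (.coneW (nat_lit 31) [nat_lit 2147483648])
   (.node (nat_lit 25) (.coneW (nat_lit 32) [nat_lit 4294967296])
   (.node (nat_lit 32) (.coneW (nat_lit 54) [nat_lit 18014398509481984])
   (.node (nat_lit 54) (.coneW (nat_lit 37) [nat_lit 137438953472])
   (.coneW (nat_lit 49) [nat_lit 562952100904960, nat_lit 563087392374784])))))
   (.node (nat_lit 54) (.coneW (nat_lit 32) [nat_lit 141733920768])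
   (.node (nat_lit 37) (.coneW (nat_lit 32) [nat_lit 562954248388608])
   (.node (nat_lit 49) (.coneW (nat_lit 31) [nat_lit 6442450944])
   (.node (nat_lit 31) (.coneW (nat_lit 19) [nat_lit 4295491584])
   (.node (nat_lit 32) (.coneW (nat_lit 52) [nat_lit 4503599660924928, nat_lit 4503599627894784])
   (.node (nat_lit 52) (.coneW (nat_lit 47) [nat_lit 140737488879616, nat_lit 140737521909760])
   (.node (nat_lit 25) (.node (nat_lit 47) (.coneW (nat_lit 13) [nat_lit 8192])
   (.coneW (nat_lit 30) [nat_lit 1073750016, nat_lit 1073741832]))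
   (.node (nat_lit 47) (.node (nat_lit 13) (.coneW (nat_lit 46) [nat_lit 70368744177664])
   (.node (nat_lit 46) (.coneW (nat_lit 18) [nat_lit 262144])
   (.node (nat_lit 18) (.coneW (nat_lit 45) [nat_lit 35184372088832])
   (.coneW (nat_lit 12) [nat_lit 528384, nat_lit 35184372092928]))))
   (.node (nat_lit 46) (.coneW (nat_lit 13) [nat_lit 270336])
   (.node (nat_lit 18) (.coneW (nat_lit 13) [nat_lit 35184372097024])
   (.node (nat_lit 45) (.coneW (nat_lit 12) [nat_lit 12288])
   (.node (nat_lit 12) (.coneW (nat_lit 13) [nat_lit 532480])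
   (.node (nat_lit 13) (.coneW (nat_lit 19) [nat_lit 1074266112])
   (.node (nat_lit 19) (.coneW (nat_lit 2) [nat_lit 1073741828, nat_lit 12])
   (.node (nat_lit 2) (.coneW (nat_lit 27) [nat_lit 134217736, nat_lit 1207959552])
   (.node (nat_lit 27) (.coneW (nat_lit 11) [nat_lit 2056, nat_lit 1073743872])
   (.coneW (nat_lit 29) [nat_lit 1610614784, nat_lit 536872968, nat_lit 1610612744]))))))))))))))))))))))))))))))),
   (.node (nat_lit 22) (.cone (nat_lit 0))
   (.node (nat_lit 0) (.coneW (nat_lit 16) [nat_lit 589824])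
   (.node (nat_lit 16) (.coneW (nat_lit 5) [nat_lit 524320])
   (.node (nat_lit 5) (.cone (nat_lit 19))
   (.coneW (nat_lit 1) [nat_lit 1572866, nat_lit 34603010, nat_lit 41943042, nat_lit 8912898]))))),
   (.node (nat_lit 55) (.cone (nat_lit 38))
   (.node (nat_lit 51) (.coneW (nat_lit 53) [nat_lit 9007474132647936, nat_lit 9570149208162304])
   (.node (nat_lit 38) (.coneW (nat_lit 19) [nat_lit 9007199255265280])
   (.node (nat_lit 53) (.coneW (nat_lit 31) [nat_lit 562952100904960, nat_lit 2148007936])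
   (.node (nat_lit 49) (.coneW (nat_lit 52) [nat_lit 4503601774854144, nat_lit 4644337115725824])
   (.node (nat_lit 31) (.coneW (nat_lit 19) [nat_lit 4503599627894784])
   (.node (nat_lit 52) (.coneW (nat_lit 19) [nat_lit 140737488879616])
   (.node (nat_lit 47) (.coneW (nat_lit 12) [nat_lit 35184372092928, nat_lit 528384])
   (.node (nat_lit 45) (.coneW (nat_lit 30) [nat_lit 1073745920, nat_lit 1207959552])
   (.node (nat_lit 12) (.coneW (nat_lit 19) [nat_lit 1074266112])
   (.node (nat_lit 21) (.cone (nat_lit 0))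
   (.node (nat_lit 30) (.coneW (nat_lit 2) [nat_lit 134217732, nat_lit 524292])
   (.coneW (nat_lit 24) [nat_lit 17301505, nat_lit 150994948, nat_lit 16842753, nat_lit 17301508, nat_lit 151060480]))))))))))))),
   (.node (nat_lit 25) (.cone (nat_lit 1))
   (.node (nat_lit 8) (.cone (nat_lit 20))
   (.node (nat_lit 24) (.coneW (nat_lit 1) [nat_lit 1048578])
   (.node (nat_lit 20) (.coneW (nat_lit 1) [nat_lit 2])
   (.coneW (nat_lit 19) [nat_lit 524321, nat_lit 2621472, nat_lit 524291, nat_lit 2621442]))))),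
   (.node (nat_lit 8) (.node (nat_lit 17) (.cone (nat_lit 16))
   (.coneW (nat_lit 20) [nat_lit 9437184, nat_lit 1114112]))
   (.node (nat_lit 17) (.coneW (nat_lit 27) [nat_lit 134283264, nat_lit 134217856])
   (.node (nat_lit 7) (.coneW (nat_lit 19) [nat_lit 134742016, nat_lit 537395200])
   (.node (nat_lit 23) (.coneW (nat_lit 1) [nat_lit 33554434, nat_lit 1048578])
   (.node (nat_lit 1) (.coneW (nat_lit 20) [nat_lit 34603008])
   (.node (nat_lit 29) (.coneW (nat_lit 3) [nat_lit 33554440, nat_lit 524296])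
   (.node (nat_lit 25) (.coneW (nat_lit 3) [nat_lit 1048584])
   (.node (nat_lit 3) (.coneW (nat_lit 19) [nat_lit 1572864])
   (.node (nat_lit 20) (.coneW (nat_lit 0) [nat_lit 524289, nat_lit 65537])
   (.node (nat_lit 0) (.coneW (nat_lit 22) [nat_lit 4259840, nat_lit 4718592])
   (.node (nat_lit 16) (.coneW (nat_lit 22) [nat_lit 138412032])
   (.coneW (nat_lit 2) [nat_lit 138412036, nat_lit 4718596, nat_lit 134742020])))))))))))),
   (.node (nat_lit 23) (.cone (nat_lit 1))
   (.node (nat_lit 21) (.cone (nat_lit 1))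
   (.node (nat_lit 1) (.coneW (nat_lit 20) [nat_lit 17825792])
   (.node (nat_lit 55) (.cone (nat_lit 39))
   (.node (nat_lit 56) (.coneW (nat_lit 53) [nat_lit 9007749010554880, nat_lit 27021597764222976])
   (.node (nat_lit 39) (.coneW (nat_lit 20) [nat_lit 9007199255789568])
   (.node (nat_lit 54) (.coneW (nat_lit 32) [nat_lit 9007203549708288, nat_lit 4503603922337792])
   (.node (nat_lit 53) (.coneW (nat_lit 20) [nat_lit 4296015872])
   (.node (nat_lit 32) (.coneW (nat_lit 20) [nat_lit 4503599628419072])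
   (.node (nat_lit 24) (.coneW (nat_lit 3) [nat_lit 1048584, nat_lit 536870920])
   (.node (nat_lit 52) (.coneW (nat_lit 47) [nat_lit 140737489403904, nat_lit 211106232532992])
   (.node (nat_lit 47) (.coneW (nat_lit 13) [nat_lit 1056768, nat_lit 70368744185856])
   (.coneW (nat_lit 30) [nat_lit 1074798592, nat_lit 70369817927680, nat_lit 70370354790400, nat_lit 1074790408, nat_lit 1610612744]))))))))))))),
   (.node (nat_lit 9) (.node (nat_lit 15) (.cone (nat_lit 17))
   (.coneW (nat_lit 10) [nat_lit 132096, nat_lit 3072]))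
   (.node (nat_lit 15) (.coneW (nat_lit 2) [nat_lit 131076, nat_lit 268435460])
   (.node (nat_lit 28) (.coneW (nat_lit 13) [nat_lit 10240, nat_lit 8196])
   (.node (nat_lit 13) (.coneW (nat_lit 3) [nat_lit 2056, nat_lit 12])
   (.node (nat_lit 11) (.coneW (nat_lit 3) [nat_lit 1032])
   (.node (nat_lit 3) (.coneW (nat_lit 2) [nat_lit 1028])
   (.node (nat_lit 10) (.coneW (nat_lit 7) [nat_lit 131200, nat_lit 132])
   (.coneW (nat_lit 12) [nat_lit 135296, nat_lit 4228, nat_lit 135172])))))))),
   (.node (nat_lit 45) (.node (nat_lit 18) (.cone (nat_lit 28))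
   (.coneW (nat_lit 30) [nat_lit 1342177280, nat_lit 1077936128]))
   (.node (nat_lit 16) (.node (nat_lit 18) (.cone (nat_lit 17))
   (.coneW (nat_lit 24) [nat_lit 16908288, nat_lit 20971520]))
   (.node (nat_lit 22) (.coneW (nat_lit 2) [nat_lit 16777220, nat_lit 1073741828])
   (.node (nat_lit 18) (.coneW (nat_lit 3) [nat_lit 268435464, nat_lit 131080])
   (.node (nat_lit 24) (.node (nat_lit 2) (.coneW (nat_lit 19) [nat_lit 524288])
   (.coneW (nat_lit 7) [nat_lit 524416, nat_lit 131200]))
   (.node (nat_lit 19) (.coneW (nat_lit 2) [nat_lit 132])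
   (.node (nat_lit 7) (.coneW (nat_lit 12) [nat_lit 135168, nat_lit 4100])
   (.node (nat_lit 17) (.coneW (nat_lit 3) [nat_lit 4104])
   (.node (nat_lit 12) (.coneW (nat_lit 2) [nat_lit 12])
   (.node (nat_lit 2) (.coneW (nat_lit 20) [nat_lit 1074790400, nat_lit 1048584])
   (.node (nat_lit 20) (.coneW (nat_lit 11) [nat_lit 2056, nat_lit 1073743872])
   (.node (nat_lit 30) (.coneW (nat_lit 11) [nat_lit 268437504])
   (.coneW (nat_lit 13) [nat_lit 268445696, nat_lit 10248, nat_lit 268443656]))))))))))))),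
   (.node (nat_lit 30) (.node (nat_lit 15) (.cone (nat_lit 45))
   (.coneW (nat_lit 27) [nat_lit 35184506306560, nat_lit 134219776]))
   (.node (nat_lit 11) (.coneW (nat_lit 13) [nat_lit 134225920, nat_lit 67117056])
   (.node (nat_lit 26) (.coneW (nat_lit 2) [nat_lit 32772, nat_lit 8196])
   (.node (nat_lit 15) (.coneW (nat_lit 12) [nat_lit 35184372092928, nat_lit 4100])
   (.node (nat_lit 2) (.coneW (nat_lit 12) [nat_lit 12288])
   (.node (nat_lit 12) (.coneW (nat_lit 13) [nat_lit 35184372097024])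
   (.node (nat_lit 45) (.coneW (nat_lit 18) [nat_lit 134479872, nat_lit 270336])
   (.coneW (nat_lit 3) [nat_lit 270344, nat_lit 134479880, nat_lit 134225928])))))))),
   (.node (nat_lit 46) (.node (nat_lit 34) (.cone (nat_lit 36))
   (.coneW (nat_lit 30) [nat_lit 69793218560, nat_lit 1107296256]))
   (.node (nat_lit 34) (.coneW (nat_lit 2) [nat_lit 8589934596, nat_lit 68719476740])
   (.node (nat_lit 25) (.coneW (nat_lit 3) [nat_lit 1073741832, nat_lit 16777224])
   (.node (nat_lit 33) (.coneW (nat_lit 31) [nat_lit 2147483776, nat_lit 2147483652])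
   (.node (nat_lit 31) (.coneW (nat_lit 2) [nat_lit 132])
   (.node (nat_lit 24) (.coneW (nat_lit 19) [nat_lit 524416, nat_lit 524296])
   (.node (nat_lit 7) (.coneW (nat_lit 2) [nat_lit 524292])
   (.node (nat_lit 19) (.coneW (nat_lit 2) [nat_lit 12])
   (.node (nat_lit 2) (.coneW (nat_lit 32) [nat_lit 73014444032, nat_lit 4294967304])
   (.node (nat_lit 32) (.coneW (nat_lit 11) [nat_lit 2056, nat_lit 68719478784])
   (.node (nat_lit 36) (.coneW (nat_lit 11) [nat_lit 1073743872])
   (.coneW (nat_lit 20) [nat_lit 1074792448, nat_lit 1050632, nat_lit 1074790408])))))))))))),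
   (.node (nat_lit 36) (.node (nat_lit 11) (.cone (nat_lit 29))
   (.coneW (nat_lit 46) [nat_lit 70369281048576, nat_lit 70368744210432]))
   (.node (nat_lit 28) (.node (nat_lit 11) (.cone (nat_lit 27))
   (.coneW (nat_lit 45) [nat_lit 35184506306560, nat_lit 35184372121600]))
   (.node (nat_lit 15) (.coneW (nat_lit 19) [nat_lit 35184372613120, nat_lit 70368744701952])
   (.node (nat_lit 11) (.coneW (nat_lit 20) [nat_lit 537919488, nat_lit 135266304])
   (.node (nat_lit 46) (.node (nat_lit 19) (.coneW (nat_lit 13) [nat_lit 8192])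
   (.coneW (nat_lit 25) [nat_lit 33562624, nat_lit 570425344]))
   (.node (nat_lit 29) (.coneW (nat_lit 3) [nat_lit 33554440, nat_lit 1048584])
   (.node (nat_lit 3) (.coneW (nat_lit 20) [nat_lit 34603008])
   (.node (nat_lit 25) (.coneW (nat_lit 13) [nat_lit 1056768])
   (.node (nat_lit 13) (.coneW (nat_lit 19) [nat_lit 1572864])
   (.node (nat_lit 20) (.coneW (nat_lit 2) [nat_lit 524292, nat_lit 134217732])
   (.node (nat_lit 2) (.coneW (nat_lit 22) [nat_lit 138412032, nat_lit 4718592])
   (.node (nat_lit 27) (.coneW (nat_lit 22) [nat_lit 35184376283136])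
   (.coneW (nat_lit 12) [nat_lit 35184376287232, nat_lit 4722688, nat_lit 35184372617216]))))))))))))),
   (.node (nat_lit 58) (.cone (nat_lit 38))
   (.node (nat_lit 33) (.node (nat_lit 32) (.cone (nat_lit 3))
   (.node (nat_lit 3) (.coneW (nat_lit 35) [nat_lit 34359738368])
   (.node (nat_lit 35) (.coneW (nat_lit 7) [nat_lit 128])
   (.node (nat_lit 34) (.cone (nat_lit 2))
   (.coneW (nat_lit 29) [nat_lit 536871040, nat_lit 536870916])))))
   (.node (nat_lit 29) (.coneW (nat_lit 2) [nat_lit 132])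
   (.node (nat_lit 7) (.coneW (nat_lit 2) [nat_lit 34359738372])
   (.node (nat_lit 35) (.coneW (nat_lit 2) [nat_lit 12])
   (.node (nat_lit 3) (.coneW (nat_lit 2) [nat_lit 4294967300])
   (.node (nat_lit 2) (.coneW (nat_lit 36) [nat_lit 73014444032, nat_lit 85899345920])
   (.node (nat_lit 38) (.node (nat_lit 34) (.coneW (nat_lit 57) [nat_lit 144115188075855872])
   (.node (nat_lit 57) (.coneW (nat_lit 56) [nat_lit 72057594037927936])
   (.node (nat_lit 56) (.coneW (nat_lit 41) [nat_lit 2199023255552])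
   (.node (nat_lit 41) (.coneW (nat_lit 59) [nat_lit 576460752303423488])
   (.coneW (nat_lit 39) [nat_lit 554050781184, nat_lit 576461302059237376])))))
   (.node (nat_lit 56) (.coneW (nat_lit 41) [nat_lit 144117387099111424])
   (.node (nat_lit 41) (.coneW (nat_lit 57) [nat_lit 720575940379279360])
   (.node (nat_lit 59) (.coneW (nat_lit 39) [nat_lit 144115737831669760])
   (.node (nat_lit 39) (.coneW (nat_lit 32) [nat_lit 144115192370823168])
   (.node (nat_lit 57) (.coneW (nat_lit 54) [nat_lit 18014402804449280, nat_lit 18014415689351168])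
   (.node (nat_lit 54) (.coneW (nat_lit 19) [nat_lit 17180393472, nat_lit 4295491584])
   (.node (nat_lit 34) (.node (nat_lit 19) (.coneW (nat_lit 49) [nat_lit 562949953421312])
   (.coneW (nat_lit 12) [nat_lit 68719480832, nat_lit 562949953425408]))
   (.node (nat_lit 19) (.node (nat_lit 49) (.coneW (nat_lit 52) [nat_lit 4503599627370496])
   (.node (nat_lit 52) (.coneW (nat_lit 22) [nat_lit 4194304])
   (.node (nat_lit 32) (.coneW (nat_lit 20) [nat_lit 1048576])
   (.coneW (nat_lit 53) [nat_lit 9007199255789568, nat_lit 9007199258935296]))))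
   (.node (nat_lit 52) (.coneW (nat_lit 22) [nat_lit 562949957615616])
   (.node (nat_lit 22) (.coneW (nat_lit 49) [nat_lit 9570149208162304])
   (.node (nat_lit 53) (.coneW (nat_lit 20) [nat_lit 562949954469888])
   (.node (nat_lit 20) (.coneW (nat_lit 32) [nat_lit 562954248388608])
   (.node (nat_lit 49) (.coneW (nat_lit 12) [nat_lit 4294971392])
   (.node (nat_lit 32) (.coneW (nat_lit 13) [nat_lit 12288, nat_lit 68719484928])
   (.node (nat_lit 13) (.coneW (nat_lit 48) [nat_lit 281474976714752, nat_lit 281543696187392])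
   (.node (nat_lit 48) (.coneW (nat_lit 15) [nat_lit 68719509504, nat_lit 36864])
   (.coneW (nat_lit 46) [nat_lit 70368744214528, nat_lit 70437463687168, nat_lit 70437463658496]))))))))))))))))))))))))),
   (.node (nat_lit 33) (.cone (nat_lit 3))
   (.node (nat_lit 58) (.node (nat_lit 37) (.cone (nat_lit 39))
   (.node (nat_lit 39) (.coneW (nat_lit 59) [nat_lit 576460752303423488])
   (.node (nat_lit 31) (.cone (nat_lit 38))
   (.node (nat_lit 59) (.coneW (nat_lit 44) [nat_lit 17592186044416])
   (.coneW (nat_lit 56) [nat_lit 72057868915834880, nat_lit 72075186223972352])))))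
   (.node (nat_lit 59) (.coneW (nat_lit 39) [nat_lit 18141941858304])
   (.node (nat_lit 44) (.coneW (nat_lit 39) [nat_lit 72058143793741824])
   (.node (nat_lit 56) (.coneW (nat_lit 38) [nat_lit 824633720832])
   (.node (nat_lit 38) (.coneW (nat_lit 31) [nat_lit 551903297536])
   (.node (nat_lit 39) (.coneW (nat_lit 57) [nat_lit 144115325514809344, nat_lit 144115190223339520])
   (.node (nat_lit 57) (.coneW (nat_lit 54) [nat_lit 18014400656965632, nat_lit 18014535948435456])
   (.node (nat_lit 37) (.node (nat_lit 54) (.coneW (nat_lit 20) [nat_lit 1048576])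
   (.node (nat_lit 3) (.coneW (nat_lit 36) [nat_lit 68719476736])
   (.node (nat_lit 20) (.coneW (nat_lit 49) [nat_lit 562949953421312])
   (.coneW (nat_lit 13) [nat_lit 562949953429504, nat_lit 68719484928]))))
   (.node (nat_lit 3) (.node (nat_lit 31) (.coneW (nat_lit 2) [nat_lit 4])
   (.node (nat_lit 36) (.coneW (nat_lit 35) [nat_lit 34359738368])
   (.node (nat_lit 35) (.coneW (nat_lit 11) [nat_lit 2048])
   (.coneW (nat_lit 29) [nat_lit 536872960, nat_lit 536870916]))))
   (.node (nat_lit 35) (.coneW (nat_lit 11) [nat_lit 68719478784])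
   (.node (nat_lit 11) (.coneW (nat_lit 29) [nat_lit 69256347648])
   (.node (nat_lit 29) (.coneW (nat_lit 2) [nat_lit 68719476740])
   (.node (nat_lit 2) (.coneW (nat_lit 31) [nat_lit 70866960384])
   (.node (nat_lit 36) (.coneW (nat_lit 13) [nat_lit 2147491840])
   (.node (nat_lit 54) (.node (nat_lit 20) (.coneW (nat_lit 53) [nat_lit 9007199254740992])
   (.node (nat_lit 31) (.coneW (nat_lit 19) [nat_lit 524288])
   (.node (nat_lit 53) (.coneW (nat_lit 25) [nat_lit 33554432])
   (.coneW (nat_lit 52) [nat_lit 4503599627894784, nat_lit 4503599660924928]))))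
   (.node (nat_lit 53) (.coneW (nat_lit 20) [nat_lit 34603008])
   (.node (nat_lit 25) (.coneW (nat_lit 20) [nat_lit 4503599628419072])
   (.node (nat_lit 52) (.coneW (nat_lit 19) [nat_lit 1572864])
   (.node (nat_lit 19) (.coneW (nat_lit 20) [nat_lit 2148532224])
   (.node (nat_lit 20) (.coneW (nat_lit 31) [nat_lit 562952100904960])
   (.node (nat_lit 31) (.coneW (nat_lit 12) [nat_lit 12288, nat_lit 562949953425408])
   (.node (nat_lit 12) (.coneW (nat_lit 46) [nat_lit 70368744185856, nat_lit 633318697598976])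
   (.node (nat_lit 46) (.coneW (nat_lit 18) [nat_lit 270336, nat_lit 562949953683456])
   (.coneW (nat_lit 48) [nat_lit 281474976980992, nat_lit 844424930394112, nat_lit 844424930140160]))))))))))))))))))))))))),
   (.node (nat_lit 34) (.cone (nat_lit 2))
   (.node (nat_lit 2) (.coneW (nat_lit 29) [nat_lit 2684354560])
   (.node (nat_lit 29) (.coneW (nat_lit 7) [nat_lit 2147483776])
   (.node (nat_lit 7) (.cone (nat_lit 31))
   (.coneW (nat_lit 3) [nat_lit 141733920776, nat_lit 6442450952, nat_lit 171798691848, nat_lit 36507222024]))))),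
   (.node (nat_lit 58) (.cone (nat_lit 38))
   (.node (nat_lit 56) (.coneW (nat_lit 57) [nat_lit 144115462953762816, nat_lit 162129586585337856])
   (.node (nat_lit 38) (.coneW (nat_lit 31) [nat_lit 144115190223339520])
   (.node (nat_lit 57) (.coneW (nat_lit 31) [nat_lit 18014400656965632])
   (.node (nat_lit 33) (.cone (nat_lit 2))
   (.node (nat_lit 54) (.coneW (nat_lit 19) [nat_lit 4503599627894784, nat_lit 2148007936])
   (.node (nat_lit 52) (.coneW (nat_lit 49) [nat_lit 562949953945600, nat_lit 633318697598976])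
   (.node (nat_lit 19) (.coneW (nat_lit 31) [nat_lit 562952100904960])
   (.node (nat_lit 49) (.coneW (nat_lit 12) [nat_lit 70368744181760, nat_lit 2147487744])
   (.coneW (nat_lit 36) [nat_lit 70437463658496, nat_lit 70866964480, nat_lit 69256347652, nat_lit 70866960388, nat_lit 70438000525312])))))))))),
   (.node (nat_lit 37) (.node (nat_lit 48) (.cone (nat_lit 36))
   (.coneW (nat_lit 3) [nat_lit 68719476744, nat_lit 8589934600]))
   (.node (nat_lit 33) (.coneW (nat_lit 31) [nat_lit 2147483776, nat_lit 2147483656])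
   (.node (nat_lit 48) (.coneW (nat_lit 43) [nat_lit 8864812498944, nat_lit 10995116277760])
   (.node (nat_lit 41) (.coneW (nat_lit 2) [nat_lit 1099511627780, nat_lit 8796093022212])
   (.node (nat_lit 40) (.coneW (nat_lit 38) [nat_lit 274877907072, nat_lit 274877906948])
   (.node (nat_lit 38) (.coneW (nat_lit 2) [nat_lit 132])
   (.node (nat_lit 7) (.coneW (nat_lit 2) [nat_lit 2147483652])
   (.node (nat_lit 31) (.coneW (nat_lit 2) [nat_lit 12])
   (.node (nat_lit 2) (.coneW (nat_lit 39) [nat_lit 9345848836096, nat_lit 549755813896])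
   (.node (nat_lit 39) (.coneW (nat_lit 11) [nat_lit 2056, nat_lit 8796093024256])
   (.node (nat_lit 43) (.coneW (nat_lit 11) [nat_lit 68719478784])
   (.coneW (nat_lit 32) [nat_lit 73014446080, nat_lit 4294969352, nat_lit 73014444040])))))))))))),
   (.node (nat_lit 30) (.node (nat_lit 11) (.cone (nat_lit 29))
   (.coneW (nat_lit 46) [nat_lit 70369281048576, nat_lit 70368744210432]))
   (.node (nat_lit 43) (.node (nat_lit 15) (.cone (nat_lit 48))
   (.coneW (nat_lit 35) [nat_lit 281509336449024, nat_lit 34359740416]))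
   (.node (nat_lit 11) (.coneW (nat_lit 32) [nat_lit 38654705664, nat_lit 4831838208])
   (.node (nat_lit 15) (.coneW (nat_lit 31) [nat_lit 70370891661312, nat_lit 281477124194304])
   (.node (nat_lit 35) (.node (nat_lit 48) (.coneW (nat_lit 37) [nat_lit 137438953472])
   (.coneW (nat_lit 3) [nat_lit 137438953480, nat_lit 4294967304]))
   (.node (nat_lit 3) (.coneW (nat_lit 32) [nat_lit 141733920768])
   (.node (nat_lit 37) (.coneW (nat_lit 13) [nat_lit 4294975488, nat_lit 281474976718848])
   (.node (nat_lit 48) (.coneW (nat_lit 13) [nat_lit 2147491840])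
   (.node (nat_lit 13) (.coneW (nat_lit 31) [nat_lit 6442450944])
   (.node (nat_lit 32) (.coneW (nat_lit 2) [nat_lit 2147483652, nat_lit 536870916])
   (.node (nat_lit 2) (.coneW (nat_lit 34) [nat_lit 17716740096, nat_lit 19327352832])
   (.node (nat_lit 29) (.coneW (nat_lit 34) [nat_lit 70385924046848])
   (.coneW (nat_lit 12) [nat_lit 70385924050944, nat_lit 19327356928, nat_lit 70370891665408]))))))))))))),
   (.node (nat_lit 58) (.cone (nat_lit 39))
   (.node (nat_lit 59) (.cone (nat_lit 39))
   (.node (nat_lit 39) (.coneW (nat_lit 32) [nat_lit 144115192370823168])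
   (.node (nat_lit 57) (.coneW (nat_lit 54) [nat_lit 18014402804449280, nat_lit 27021597764222976])
   (.node (nat_lit 33) (.cone (nat_lit 3))
   (.node (nat_lit 35) (.coneW (nat_lit 36) [nat_lit 68719476744, nat_lit 281543696187392])
   (.node (nat_lit 3) (.coneW (nat_lit 32) [nat_lit 73014444032])
   (.node (nat_lit 54) (.coneW (nat_lit 20) [nat_lit 4296015872, nat_lit 9007199255789568])
   (.node (nat_lit 36) (.coneW (nat_lit 13) [nat_lit 4294975488, nat_lit 281474976718848])
   (.coneW (nat_lit 49) [nat_lit 562954248396800, nat_lit 844424930140160, nat_lit 562954249437184, nat_lit 9570149209210880, nat_lit 9851624184872960])))))))))),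
   (.node (nat_lit 59) (.cone (nat_lit 31))
   (.node (nat_lit 40) (.node (nat_lit 41) (.cone (nat_lit 2))
   (.node (nat_lit 39) (.cone (nat_lit 3))
   (.node (nat_lit 2) (.coneW (nat_lit 35) [nat_lit 34359738368])
   (.node (nat_lit 3) (.coneW (nat_lit 42) [nat_lit 4398046511104])
   (.coneW (nat_lit 7) [nat_lit 34359738496, nat_lit 4398046511232])))))
   (.node (nat_lit 35) (.coneW (nat_lit 2) [nat_lit 132])
   (.node (nat_lit 7) (.coneW (nat_lit 2) [nat_lit 4398046511108])
   (.node (nat_lit 42) (.coneW (nat_lit 2) [nat_lit 12])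
   (.node (nat_lit 3) (.coneW (nat_lit 2) [nat_lit 549755813892])
   (.node (nat_lit 2) (.coneW (nat_lit 43) [nat_lit 9345848836096, nat_lit 10995116277760])
   (.node (nat_lit 41) (.node (nat_lit 43) (.coneW (nat_lit 12) [nat_lit 4096])
   (.node (nat_lit 31) (.coneW (nat_lit 56) [nat_lit 72057594037927936])
   (.node (nat_lit 12) (.coneW (nat_lit 51) [nat_lit 2251799813685248])
   (.coneW (nat_lit 19) [nat_lit 2251799814209536, nat_lit 72057594038452224]))))
   (.node (nat_lit 31) (.node (nat_lit 56) (.coneW (nat_lit 57) [nat_lit 144115188075855872])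
   (.node (nat_lit 39) (.coneW (nat_lit 32) [nat_lit 4294967296])
   (.node (nat_lit 57) (.coneW (nat_lit 34) [nat_lit 17179869184])
   (.coneW (nat_lit 58) [nat_lit 288230380446679040, nat_lit 288230393331580928]))))
   (.node (nat_lit 57) (.coneW (nat_lit 34) [nat_lit 72057611217797120])
   (.node (nat_lit 34) (.coneW (nat_lit 56) [nat_lit 360287970189639680])
   (.node (nat_lit 58) (.coneW (nat_lit 32) [nat_lit 72057598332895232])
   (.node (nat_lit 32) (.coneW (nat_lit 39) [nat_lit 72058143793741824])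
   (.node (nat_lit 56) (.coneW (nat_lit 19) [nat_lit 549756338176])
   (.node (nat_lit 43) (.node (nat_lit 39) (.coneW (nat_lit 13) [nat_lit 8192])
   (.node (nat_lit 12) (.coneW (nat_lit 48) [nat_lit 281474976710656])
   (.node (nat_lit 48) (.coneW (nat_lit 15) [nat_lit 32768])
   (.coneW (nat_lit 50) [nat_lit 1125899906850816, nat_lit 1125899906875392]))))
   (.node (nat_lit 48) (.coneW (nat_lit 12) [nat_lit 36864])
   (.node (nat_lit 15) (.coneW (nat_lit 12) [nat_lit 1125899906846720])
   (.node (nat_lit 50) (.coneW (nat_lit 12) [nat_lit 12288])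
   (.node (nat_lit 13) (.coneW (nat_lit 12) [nat_lit 549755817984])
   (.node (nat_lit 12) (.coneW (nat_lit 39) [nat_lit 2252349569499136])
   (.node (nat_lit 39) (.coneW (nat_lit 20) [nat_lit 1572864, nat_lit 2251799814733824])
   (.node (nat_lit 20) (.coneW (nat_lit 55) [nat_lit 36028797019488256, nat_lit 38280596832649216])
   (.node (nat_lit 55) (.coneW (nat_lit 22) [nat_lit 2251799817879552, nat_lit 4718592])
   (.coneW (nat_lit 53) [nat_lit 9007199259459584, nat_lit 11258999072620544, nat_lit 11258999068950528])))))))))))))))))))))))),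
   (.node (nat_lit 40) (.cone (nat_lit 3))
   (.node (nat_lit 59) (.node (nat_lit 44) (.cone (nat_lit 32))
   (.node (nat_lit 38) (.cone (nat_lit 31))
   (.node (nat_lit 32) (.coneW (nat_lit 58) [nat_lit 288230376151711744])
   (.node (nat_lit 58) (.coneW (nat_lit 37) [nat_lit 137438953472])
   (.coneW (nat_lit 57) [nat_lit 144115190223339520, nat_lit 144115325514809344])))))
   (.node (nat_lit 58) (.coneW (nat_lit 32) [nat_lit 141733920768])
   (.node (nat_lit 37) (.coneW (nat_lit 32) [nat_lit 144115192370823168])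
   (.node (nat_lit 57) (.coneW (nat_lit 31) [nat_lit 6442450944])
   (.node (nat_lit 31) (.coneW (nat_lit 32) [nat_lit 279172874240])
   (.node (nat_lit 32) (.coneW (nat_lit 56) [nat_lit 72075186223972352, nat_lit 72057868915834880])
   (.node (nat_lit 44) (.node (nat_lit 56) (.coneW (nat_lit 20) [nat_lit 1048576])
   (.node (nat_lit 3) (.coneW (nat_lit 43) [nat_lit 8796093022208])
   (.node (nat_lit 20) (.coneW (nat_lit 51) [nat_lit 2251799813685248])
   (.coneW (nat_lit 13) [nat_lit 2251799813693440, nat_lit 8796093030400]))))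
   (.node (nat_lit 3) (.node (nat_lit 38) (.coneW (nat_lit 2) [nat_lit 4])
   (.node (nat_lit 43) (.coneW (nat_lit 42) [nat_lit 4398046511104])
   (.node (nat_lit 2) (.coneW (nat_lit 35) [nat_lit 34359738368])
   (.coneW (nat_lit 11) [nat_lit 4398046513152, nat_lit 34359740416]))))
   (.node (nat_lit 42) (.coneW (nat_lit 11) [nat_lit 8796093024256])
   (.node (nat_lit 11) (.coneW (nat_lit 35) [nat_lit 8830452760576])
   (.node (nat_lit 35) (.coneW (nat_lit 2) [nat_lit 8796093022212])
   (.node (nat_lit 2) (.coneW (nat_lit 38) [nat_lit 9070970929152])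
   (.node (nat_lit 43) (.coneW (nat_lit 13) [nat_lit 274877915136])
   (.node (nat_lit 56) (.node (nat_lit 38) (.coneW (nat_lit 19) [nat_lit 524288])
   (.node (nat_lit 20) (.coneW (nat_lit 55) [nat_lit 36028797018963968])
   (.node (nat_lit 19) (.coneW (nat_lit 53) [nat_lit 9007199254740992])
   (.coneW (nat_lit 25) [nat_lit 36028797052518400, nat_lit 9007199288295424]))))
   (.node (nat_lit 55) (.coneW (nat_lit 20) [nat_lit 34603008])
   (.node (nat_lit 25) (.coneW (nat_lit 20) [nat_lit 9007199255789568])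
   (.node (nat_lit 53) (.coneW (nat_lit 19) [nat_lit 1572864])
   (.node (nat_lit 19) (.coneW (nat_lit 20) [nat_lit 274878955520])
   (.node (nat_lit 20) (.coneW (nat_lit 38) [nat_lit 2252074691592192])
   (.node (nat_lit 38) (.coneW (nat_lit 12) [nat_lit 12288, nat_lit 2251799813689344])
   (.node (nat_lit 12) (.coneW (nat_lit 48) [nat_lit 281474976718848, nat_lit 2533274790395904])
   (.node (nat_lit 48) (.coneW (nat_lit 18) [nat_lit 270336, nat_lit 2251799813947392])
   (.coneW (nat_lit 50) [nat_lit 1125899907112960, nat_lit 3377699720790016, nat_lit 3377699720536064])))))))))))))))))))))))),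
   (.node (nat_lit 41) (.cone (nat_lit 2))
   (.node (nat_lit 2) (.coneW (nat_lit 35) [nat_lit 309237645312])
   (.node (nat_lit 35) (.coneW (nat_lit 7) [nat_lit 274877907072])
   (.node (nat_lit 7) (.cone (nat_lit 38))
   (.coneW (nat_lit 3) [nat_lit 18141941858312, nat_lit 824633720840, nat_lit 21990232555528, nat_lit 4672924418056]))))),
   (.node (nat_lit 59) (.cone (nat_lit 31))
   (.node (nat_lit 40) (.cone (nat_lit 2))
   (.node (nat_lit 57) (.coneW (nat_lit 56) [nat_lit 72057596185411584, nat_lit 81064793292668928])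
   (.node (nat_lit 31) (.coneW (nat_lit 38) [nat_lit 72057868915834880])
   (.node (nat_lit 35) (.coneW (nat_lit 43) [nat_lit 290271069732864, nat_lit 8796093022212])
   (.node (nat_lit 2) (.coneW (nat_lit 38) [nat_lit 9070970929152])
   (.node (nat_lit 43) (.coneW (nat_lit 12) [nat_lit 281474976714752, nat_lit 274877911040])
   (.node (nat_lit 56) (.coneW (nat_lit 19) [nat_lit 9007199255265280, nat_lit 274878431232])
   (.coneW (nat_lit 51) [nat_lit 2533274790400000, nat_lit 2252074691596288, nat_lit 11258999068950528, nat_lit 2252074692116480, nat_lit 11540474045136896]))))))))),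
   (.node (nat_lit 44) (.cone (nat_lit 3))
   (.node (nat_lit 11) (.cone (nat_lit 39))
   (.node (nat_lit 39) (.coneW (nat_lit 3) [nat_lit 8796093022216])
   (.node (nat_lit 43) (.coneW (nat_lit 3) [nat_lit 8])
   (.coneW (nat_lit 38) [nat_lit 1374389534848, nat_lit 274877907076, nat_lit 1374389534728, nat_lit 274877906956]))))),
   (.node (nat_lit 15) (.node (nat_lit 50) (.cone (nat_lit 38))
   (.coneW (nat_lit 48) [nat_lit 281749854617600, nat_lit 281543696187392]))
   (.node (nat_lit 50) (.coneW (nat_lit 13) [nat_lit 17592186052608, nat_lit 274877915136])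
   (.node (nat_lit 36) (.coneW (nat_lit 35) [nat_lit 281509336449024, nat_lit 34359740416])
   (.node (nat_lit 11) (.coneW (nat_lit 39) [nat_lit 4947802324992, nat_lit 584115552256])
   (.node (nat_lit 42) (.coneW (nat_lit 3) [nat_lit 17592186044424, nat_lit 549755813896])
   (.node (nat_lit 3) (.coneW (nat_lit 39) [nat_lit 18141941858304])
   (.node (nat_lit 44) (.coneW (nat_lit 13) [nat_lit 549755822080])
   (.node (nat_lit 13) (.coneW (nat_lit 38) [nat_lit 824633720832])
   (.node (nat_lit 39) (.coneW (nat_lit 2) [nat_lit 274877906948, nat_lit 34359738372])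
   (.node (nat_lit 2) (.coneW (nat_lit 41) [nat_lit 2233382993920, nat_lit 2473901162496])
   (.node (nat_lit 35) (.coneW (nat_lit 41) [nat_lit 283673999966208])
   (.coneW (nat_lit 12) [nat_lit 283673999970304, nat_lit 2473901166592, nat_lit 281749854621696])))))))))))),
   (.node (nat_lit 58) (.cone (nat_lit 32))
   (.node (nat_lit 59) (.cone (nat_lit 32))
   (.node (nat_lit 32) (.coneW (nat_lit 39) [nat_lit 72058143793741824])
   (.node (nat_lit 42) (.cone (nat_lit 3))
   (.node (nat_lit 40) (.cone (nat_lit 3))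
   (.node (nat_lit 3) (.coneW (nat_lit 39) [nat_lit 9345848836096])
   (.node (nat_lit 55) (.cone (nat_lit 20))
   (.node (nat_lit 56) (.coneW (nat_lit 20) [nat_lit 549756862464])
   (.node (nat_lit 20) (.coneW (nat_lit 39) [nat_lit 2252349569499136])
   (.coneW (nat_lit 13) [nat_lit 2252349569507328, nat_lit 3377699720536064, nat_lit 9345848844288, nat_lit 1134695999873024])))))))))),
   (.node (nat_lit 27) (.node (nat_lit 22) (.cone (nat_lit 30))
   (.coneW (nat_lit 28) [nat_lit 1342177280, nat_lit 268697600]))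
   (.node (nat_lit 22) (.coneW (nat_lit 12) [nat_lit 1073745920, nat_lit 140737488359424])
   (.node (nat_lit 47) (.coneW (nat_lit 20) [nat_lit 1310720, nat_lit 1052672])
   (.node (nat_lit 18) (.coneW (nat_lit 13) [nat_lit 1056768, nat_lit 268443648])
   (.node (nat_lit 20) (.coneW (nat_lit 12) [nat_lit 12288])
   (.node (nat_lit 13) (.coneW (nat_lit 12) [nat_lit 268439552])
   (.node (nat_lit 28) (.coneW (nat_lit 15) [nat_lit 36864, nat_lit 1073774592])
   (.coneW (nat_lit 19) [nat_lit 1074298880, nat_lit 561152, nat_lit 1074270208])))))))),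
   (.node (nat_lit 29) (.node (nat_lit 25) (.cone (nat_lit 30))
   (.coneW (nat_lit 36) [nat_lit 69793218560, nat_lit 85899345920]))
   (.node (nat_lit 52) (.node (nat_lit 25) (.cone (nat_lit 47))
   (.coneW (nat_lit 49) [nat_lit 703687441776640, nat_lit 562967133290496]))
   (.node (nat_lit 25) (.coneW (nat_lit 13) [nat_lit 140737488363520, nat_lit 1073750016])
   (.node (nat_lit 34) (.coneW (nat_lit 12) [nat_lit 68719480832, nat_lit 562949953425408])
   (.node (nat_lit 47) (.node (nat_lit 13) (.coneW (nat_lit 20) [nat_lit 1048576])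
   (.coneW (nat_lit 18) [nat_lit 1310720, nat_lit 562949953683456]))
   (.node (nat_lit 20) (.coneW (nat_lit 13) [nat_lit 270336])
   (.node (nat_lit 18) (.coneW (nat_lit 32) [nat_lit 4294975488, nat_lit 562954248388608])
   (.node (nat_lit 49) (.coneW (nat_lit 12) [nat_lit 4294971392])
   (.node (nat_lit 32) (.coneW (nat_lit 12) [nat_lit 12288])
   (.node (nat_lit 13) (.coneW (nat_lit 19) [nat_lit 528384, nat_lit 1074266112])
   (.node (nat_lit 19) (.coneW (nat_lit 15) [nat_lit 1073774592, nat_lit 36864])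
   (.node (nat_lit 30) (.coneW (nat_lit 15) [nat_lit 68719509504])
   (.coneW (nat_lit 31) [nat_lit 70866993152, nat_lit 2147520512, nat_lit 70866964480]))))))))))))),
   (.node (nat_lit 18) (.node (nat_lit 49) (.cone (nat_lit 46))
   (.coneW (nat_lit 20) [nat_lit 70368745226240, nat_lit 35184373137408]))
   (.node (nat_lit 45) (.coneW (nat_lit 12) [nat_lit 4198400, nat_lit 1052672])
   (.node (nat_lit 49) (.coneW (nat_lit 52) [nat_lit 4573968371548160, nat_lit 4503599631564800])
   (.node (nat_lit 12) (.coneW (nat_lit 19) [nat_lit 4718592, nat_lit 1572864])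
   (.node (nat_lit 22) (.coneW (nat_lit 19) [nat_lit 4503599627894784])
   (.node (nat_lit 19) (.coneW (nat_lit 20) [nat_lit 4503599628419072])
   (.node (nat_lit 52) (.coneW (nat_lit 25) [nat_lit 70368777732096, nat_lit 34603008])
   (.coneW (nat_lit 13) [nat_lit 34611200, nat_lit 70368777740288, nat_lit 70368745234432])))))))),
   (.node (nat_lit 35) (.node (nat_lit 37) (.cone (nat_lit 36))
   (.coneW (nat_lit 43) [nat_lit 8864812498944, nat_lit 10995116277760]))
   (.node (nat_lit 53) (.node (nat_lit 37) (.cone (nat_lit 49))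
   (.coneW (nat_lit 51) [nat_lit 2814749767106560, nat_lit 2253998836940800]))
   (.node (nat_lit 41) (.coneW (nat_lit 12) [nat_lit 8796093026304, nat_lit 2251799813689344])
   (.node (nat_lit 37) (.coneW (nat_lit 13) [nat_lit 562949953429504, nat_lit 68719484928])
   (.node (nat_lit 43) (.node (nat_lit 36) (.coneW (nat_lit 15) [nat_lit 32768])
   (.coneW (nat_lit 38) [nat_lit 274877939712, nat_lit 274877911040]))
   (.node (nat_lit 38) (.coneW (nat_lit 12) [nat_lit 36864])
   (.node (nat_lit 36) (.coneW (nat_lit 31) [nat_lit 2147516416, nat_lit 2147491840])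
   (.node (nat_lit 15) (.coneW (nat_lit 12) [nat_lit 2147487744])
   (.node (nat_lit 31) (.coneW (nat_lit 12) [nat_lit 12288])
   (.node (nat_lit 12) (.coneW (nat_lit 39) [nat_lit 2252349569499136, nat_lit 549755822080])
   (.node (nat_lit 39) (.coneW (nat_lit 18) [nat_lit 270336, nat_lit 2251799813947392])
   (.node (nat_lit 51) (.coneW (nat_lit 18) [nat_lit 562949953683456])
   (.coneW (nat_lit 32) [nat_lit 4295237632, nat_lit 562954248650752, nat_lit 562954248396800]))))))))))))),
   (.node (nat_lit 47) (.node (nat_lit 22) (.cone (nat_lit 52))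
   (.coneW (nat_lit 46) [nat_lit 4573968371548160, nat_lit 70368744439808]))
   (.node (nat_lit 51) (.node (nat_lit 22) (.cone (nat_lit 53))
   (.coneW (nat_lit 48) [nat_lit 9288674231451648, nat_lit 281474976972800]))
   (.node (nat_lit 18) (.coneW (nat_lit 32) [nat_lit 281479271677952, nat_lit 70373039144960])
   (.node (nat_lit 22) (.coneW (nat_lit 31) [nat_lit 4503601774854144, nat_lit 9007201402224640])
   (.node (nat_lit 52) (.node (nat_lit 46) (.coneW (nat_lit 34) [nat_lit 17179869184])
   (.coneW (nat_lit 19) [nat_lit 17180393472, nat_lit 2148007936]))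
   (.node (nat_lit 19) (.coneW (nat_lit 31) [nat_lit 19327352832])
   (.node (nat_lit 34) (.coneW (nat_lit 12) [nat_lit 70368744181760, nat_lit 2147487744])
   (.node (nat_lit 46) (.coneW (nat_lit 12) [nat_lit 4294971392])
   (.node (nat_lit 12) (.coneW (nat_lit 31) [nat_lit 6442450944])
   (.node (nat_lit 31) (.coneW (nat_lit 20) [nat_lit 9007199255789568, nat_lit 4296015872])
   (.node (nat_lit 20) (.coneW (nat_lit 37) [nat_lit 141733920768, nat_lit 9007336693694464])
   (.node (nat_lit 53) (.coneW (nat_lit 37) [nat_lit 281612415664128])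
   (.coneW (nat_lit 13) [nat_lit 141733928960, nat_lit 281612415672320, nat_lit 281479271686144]))))))))))))),
   (.node (nat_lit 18) (.cone (nat_lit 39))
   (.node (nat_lit 39) (.coneW (nat_lit 13) [nat_lit 2251799813693440])
   (.node (nat_lit 51) (.coneW (nat_lit 13) [nat_lit 17592186052608])
   (.node (nat_lit 44) (.cone (nat_lit 13))
   (.coneW (nat_lit 38) [nat_lit 274877943808, nat_lit 274877919232, nat_lit 9070970961920, nat_lit 9070970937344]))))),
   (.node (nat_lit 49) (.node (nat_lit 22) (.cone (nat_lit 53))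
   (.coneW (nat_lit 48) [nat_lit 9288674231451648, nat_lit 281474976972800]))
   (.node (nat_lit 18) (.coneW (nat_lit 39) [nat_lit 1126449662656512, nat_lit 282024732524544])
   (.node (nat_lit 22) (.coneW (nat_lit 38) [nat_lit 9007474132647936, nat_lit 36029071896870912])
   (.node (nat_lit 55) (.coneW (nat_lit 20) [nat_lit 17592187092992, nat_lit 274878955520])
   (.node (nat_lit 50) (.coneW (nat_lit 13) [nat_lit 17592186052608, nat_lit 549755822080])
   (.node (nat_lit 13) (.coneW (nat_lit 39) [nat_lit 18141941858304])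
   (.node (nat_lit 44) (.coneW (nat_lit 20) [nat_lit 549756862464])
   (.node (nat_lit 20) (.coneW (nat_lit 38) [nat_lit 824633720832])
   (.node (nat_lit 39) (.coneW (nat_lit 12) [nat_lit 274877911040, nat_lit 281474976714752])
   (.node (nat_lit 12) (.coneW (nat_lit 41) [nat_lit 283673999966208, nat_lit 2473901162496])
   (.node (nat_lit 48) (.coneW (nat_lit 41) [nat_lit 9009398277996544])
   (.coneW (nat_lit 19) [nat_lit 9009398278520832, nat_lit 2473901686784, nat_lit 9007474133172224])))))))))))),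
   (.node (nat_lit 34) (.node (nat_lit 46) (.cone (nat_lit 49))
   (.coneW (nat_lit 19) [nat_lit 562949953945600, nat_lit 18014398510006272]))
   (.node (nat_lit 54) (.coneW (nat_lit 32) [nat_lit 4328521728, nat_lit 4295491584])
   (.node (nat_lit 32) (.coneW (nat_lit 20) [nat_lit 1572864, nat_lit 34603008])
   (.node (nat_lit 46) (.coneW (nat_lit 47) [nat_lit 703687441776640, nat_lit 140737521909760])
   (.node (nat_lit 25) (.coneW (nat_lit 20) [nat_lit 140737489403904])
   (.node (nat_lit 20) (.coneW (nat_lit 19) [nat_lit 140737488879616])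
   (.node (nat_lit 47) (.coneW (nat_lit 22) [nat_lit 4718592, nat_lit 562949957615616])
   (.coneW (nat_lit 31) [nat_lit 562952105099264, nat_lit 2152202240, nat_lit 562952101429248])))))))),
   (.node (nat_lit 48) (.node (nat_lit 37) (.cone (nat_lit 49))
   (.coneW (nat_lit 51) [nat_lit 2814749767106560, nat_lit 2253998836940800]))
   (.node (nat_lit 57) (.node (nat_lit 41) (.cone (nat_lit 56))
   (.coneW (nat_lit 54) [nat_lit 90071992547409920, nat_lit 18014535948435456]))
   (.node (nat_lit 41) (.coneW (nat_lit 19) [nat_lit 2251799814209536, nat_lit 72057594038452224])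
   (.node (nat_lit 37) (.coneW (nat_lit 20) [nat_lit 18014398510530560, nat_lit 562949954469888])
   (.node (nat_lit 51) (.node (nat_lit 19) (.coneW (nat_lit 38) [nat_lit 274877906944])
   (.coneW (nat_lit 22) [nat_lit 274882101248, nat_lit 562949957615616]))
   (.node (nat_lit 38) (.coneW (nat_lit 19) [nat_lit 4718592])
   (.node (nat_lit 49) (.coneW (nat_lit 31) [nat_lit 2151677952, nat_lit 2148532224])
   (.node (nat_lit 22) (.coneW (nat_lit 19) [nat_lit 2148007936])
   (.node (nat_lit 31) (.coneW (nat_lit 19) [nat_lit 1572864])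
   (.node (nat_lit 19) (.coneW (nat_lit 39) [nat_lit 72058143793741824, nat_lit 549756862464])
   (.node (nat_lit 39) (.coneW (nat_lit 25) [nat_lit 34603008, nat_lit 72057594071482368])
   (.node (nat_lit 56) (.coneW (nat_lit 25) [nat_lit 18014398543036416])
   (.coneW (nat_lit 32) [nat_lit 4329570304, nat_lit 18014402838003712, nat_lit 18014402805497856]))))))))))))),
   (.node (nat_lit 25) (.node (nat_lit 56) (.cone (nat_lit 53))
   (.coneW (nat_lit 32) [nat_lit 9007203549708288, nat_lit 4503603922337792]))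
   (.node (nat_lit 56) (.coneW (nat_lit 57) [nat_lit 153122387330596864, nat_lit 144115205255725056])
   (.node (nat_lit 52) (.coneW (nat_lit 19) [nat_lit 17180393472, nat_lit 4295491584])
   (.node (nat_lit 34) (.coneW (nat_lit 31) [nat_lit 2148007936, nat_lit 144115190223339520])
   (.node (nat_lit 19) (.coneW (nat_lit 31) [nat_lit 6442450944])
   (.node (nat_lit 31) (.coneW (nat_lit 32) [nat_lit 144115192370823168])
   (.node (nat_lit 57) (.coneW (nat_lit 37) [nat_lit 9007336693694464, nat_lit 141733920768])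
   (.coneW (nat_lit 20) [nat_lit 141734969344, nat_lit 9007336694743040, nat_lit 9007203550756864])))))))),
   (.node (nat_lit 25) (.cone (nat_lit 39))
   (.node (nat_lit 39) (.coneW (nat_lit 20) [nat_lit 72057594038976512])
   (.node (nat_lit 56) (.coneW (nat_lit 20) [nat_lit 17592187092992])
   (.node (nat_lit 44) (.cone (nat_lit 20))
   (.coneW (nat_lit 38) [nat_lit 274879479808, nat_lit 2252074695786496, nat_lit 274882625536, nat_lit 2252074692640768]))))),
   (.node (nat_lit 54) (.node (nat_lit 34) (.cone (nat_lit 57))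
   (.coneW (nat_lit 53) [nat_lit 153122387330596864, nat_lit 9007199288295424]))
   (.node (nat_lit 25) (.coneW (nat_lit 39) [nat_lit 36029346774777856, nat_lit 9007749010554880])
   (.node (nat_lit 55) (.coneW (nat_lit 20) [nat_lit 17592187092992, nat_lit 549756862464])
   (.node (nat_lit 20) (.coneW (nat_lit 39) [nat_lit 18141941858304])
   (.node (nat_lit 34) (.coneW (nat_lit 38) [nat_lit 144115462953762816, nat_lit 288230651029618688])
   (.node (nat_lit 58) (.coneW (nat_lit 32) [nat_lit 17596481011712, nat_lit 279172874240])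
   (.node (nat_lit 44) (.coneW (nat_lit 32) [nat_lit 554050781184])
   (.node (nat_lit 32) (.coneW (nat_lit 38) [nat_lit 824633720832])
   (.node (nat_lit 39) (.coneW (nat_lit 19) [nat_lit 274878431232, nat_lit 9007199255265280])
   (.node (nat_lit 19) (.coneW (nat_lit 41) [nat_lit 9009398277996544, nat_lit 2473901162496])
   (.node (nat_lit 53) (.coneW (nat_lit 41) [nat_lit 144117387099111424])
   (.coneW (nat_lit 31) [nat_lit 144117389246595072, nat_lit 2476048646144, nat_lit 144115465101246464])))))))))))),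
   (.node (nat_lit 53) (.node (nat_lit 37) (.cone (nat_lit 54))
   (.coneW (nat_lit 56) [nat_lit 90071992547409920, nat_lit 72059793061183488]))
   (.node (nat_lit 41) (.coneW (nat_lit 31) [nat_lit 72057596185411584, nat_lit 576460754450907136])
   (.node (nat_lit 59) (.coneW (nat_lit 39) [nat_lit 687194767360, nat_lit 551903297536])
   (.node (nat_lit 39) (.coneW (nat_lit 32) [nat_lit 6442450944, nat_lit 141733920768])
   (.node (nat_lit 37) (.coneW (nat_lit 32) [nat_lit 18014402804449280])
   (.node (nat_lit 32) (.coneW (nat_lit 31) [nat_lit 18014400656965632])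
   (.node (nat_lit 54) (.coneW (nat_lit 34) [nat_lit 19327352832, nat_lit 72057611217797120])
   (.coneW (nat_lit 38) [nat_lit 72057886095704064, nat_lit 294205259776, nat_lit 72057871063318528])))))))),
   (.node (nat_lit 37) (.cone (nat_lit 39))
   (.node (nat_lit 39) (.coneW (nat_lit 32) [nat_lit 576460756598390784])
   (.node (nat_lit 59) (.coneW (nat_lit 32) [nat_lit 17596481011712])
   (.node (nat_lit 44) (.cone (nat_lit 32))
   (.coneW (nat_lit 38) [nat_lit 281320357888, nat_lit 72057886095704064, nat_lit 294205259776, nat_lit 72057873210802176]))))),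
   (.node (nat_lit 44) (.cone (nat_lit 32))
   (.node (nat_lit 32) (.coneW (nat_lit 39) [nat_lit 288230925907525632])
   (.node (nat_lit 58) (.coneW (nat_lit 37) [nat_lit 687194767360])
   (.node (nat_lit 37) (.cone (nat_lit 39))
   (.coneW (nat_lit 31) [nat_lit 2476048646144, nat_lit 144117389246595072, nat_lit 826781204480, nat_lit 144115739979153408]))))),
   (.cone (nat_lit 4))]

end Pool.Agent.Lib.MP_c23581_co
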