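import Pool.Agent.Lib.MP_c23581_co.Data
import Pool.Agent.Lib.MP_c23581_co.DataC

/-!
# The complex is acyclic
-/

set_option autoImplicit false

namespace Pool.Agent.Lib.MP_c23581_co

theorem chkD : chk 61 certD LD = true := by decide +kernel

end Pool.Agent.Lib.MP_c23581_co
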