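import Pool.Agent.Lib.MP_c23581_co.Data
import Pool.Agent.Lib.MP_c23581_co.DataC

/-!
# The vertex links are acyclic
-/

set_option autoImplicit false

namespace Pool.Agent.Lib.MP_c23581_co

/-- check the links of the vertices `v, v + 1, ...` -/
noncomputable def chkLinks (L : List ℕ) (cs : List Cert) : ℕ → Bool :=
  List.rec (motive := fun _ => ℕ → Bool) (fun _ => true)
    (fun c _ ih v => andR (chk 61 c (lnkM (Nat.pow 2 v) L)) (ih (Nat.succ v))) cs

lemma chkLinks_sound {L : List ℕ} (cs : List Cert) :
    ∀ v, chkLinks L cs v = true → ∀ i (h : i < cs.length), chk 61 cs[i] (lnkM (2 ^ (v + i)) L) = true := by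
  induction cs with
  | nil => intro v _ i h; simp at h
  | cons c cs ih =>
    intro v h i hi
    have h' : andR (chk 61 c (lnkM (Nat.pow 2 v) L)) (chkLinks L cs (Nat.succ v)) = true := h
    obtain ⟨h1, h2⟩ := andR_true h'
    cases i with
    | zero => exact h1
    | succ i =>
      have := ih (Nat.succ v) h2 i (by simpa using hi)
      rw [show v + (i + 1) = Nat.succ v + i by omega]
      exact this

theorem chkL : chkLinks LD certL (nat_lit 0) = true := by decide +kernel

end Pool.Agent.Lib.MP_c23581_co
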