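import Pool.Agent.Lib.MP_c23581_co.Flip

/-!
# Data: the moves
-/

set_option autoImplicit false

namespace Pool.Agent.Lib.MP_c23581_co

set_option maxRecDepth 100000

/-- the moves -/
def mvs : List Mv :=
  [.mk (nat_lit 2251799814209536) (nat_lit 9009673155903488) [nat_lit 19, nat_lit 51],
   .mk (nat_lit 38654705664) (nat_lit 68719478792) [nat_lit 32, nat_lit 35],
   .mk (nat_lit 281479271677952) (nat_lit 562949953691648) [nat_lit 32, nat_lit 48],
   .mk (nat_lit 288230925907525632) (nat_lit 576460894037344256) [nat_lit 39, nat_lit 58],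
   .mk (nat_lit 9437184) (nat_lit 16777474) [nat_lit 20, nat_lit 23],
   .mk (nat_lit 2684354560) (nat_lit 8589934724) [nat_lit 29, nat_lit 31],
   .mk (nat_lit 4294969344) (nat_lit 69256347656) [nat_lit 11, nat_lit 32],
   .mk (nat_lit 17) (nat_lit 196) [nat_lit 0, nat_lit 4],
   .mk (nat_lit 2097153) (nat_lit 4784128) [nat_lit 0, nat_lit 21],
   .mk (nat_lit 1048832) (nat_lit 16842754) [nat_lit 8, nat_lit 20],
   .mk (nat_lit 687194767360) (nat_lit 720575944674246656) [nat_lit 37, nat_lit 39],
   .mk (nat_lit 68719480832) (nat_lit 70388071530496) [nat_lit 12, nat_lit 36],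
   .mk (nat_lit 70368745226240) (nat_lit 140737488625664) [nat_lit 20, nat_lit 46],
   .mk (nat_lit 144115462953762816) (nat_lit 72057613365280768) [nat_lit 38, nat_lit 57],
   .mk (nat_lit 1114112) (nat_lit 16777219) [nat_lit 16, nat_lit 20],
   .mk (nat_lit 9007203549708288) (nat_lit 18014398544084992) [nat_lit 32, nat_lit 53],
   .mk (nat_lit 2251799813693440) (nat_lit 1144041848700928) [nat_lit 13, nat_lit 51],
   .mk (nat_lit 309237645312) (nat_lit 1099511627908) [nat_lit 35, nat_lit 38],
   .mk (nat_lit 1310720) (nat_lit 175921860452352) [nat_lit 18, nat_lit 20],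
   .mk (nat_lit 4328521728) (nat_lit 22517998137901056) [nat_lit 25, nat_lit 32],
   .mk (nat_lit 520) (nat_lit 1282) [nat_lit 3, nat_lit 9],
   .mk (nat_lit 144115737831669760) (nat_lit 576460758745874432) [nat_lit 39, nat_lit 57],
   .mk (nat_lit 551903297536) (nat_lit 576461031476297728) [nat_lit 31, nat_lit 39],
   .mk (nat_lit 35184372613120) (nat_lit 1073778688) [nat_lit 19, nat_lit 45],
   .mk (nat_lit 17592186052608) (nat_lit 1135245755678720) [nat_lit 13, nat_lit 44],
   .mk (nat_lit 131074) (nat_lit 335872) [nat_lit 1, nat_lit 17],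
   .mk (nat_lit 268435464) (nat_lit 134488064) [nat_lit 3, nat_lit 28],
   .mk (nat_lit 4194305) (nat_lit 17367040) [nat_lit 0, nat_lit 22],
   .mk (nat_lit 4503603922337792) (nat_lit 18014398511054848) [nat_lit 32, nat_lit 52],
   .mk (nat_lit 268697600) (nat_lit 35184506314752) [nat_lit 18, nat_lit 28],
   .mk (nat_lit 262146) (nat_lit 90112) [nat_lit 1, nat_lit 18],
   .mk (nat_lit 8796093030400) (nat_lit 1126724540563456) [nat_lit 13, nat_lit 43],
   .mk (nat_lit 131076) (nat_lit 67145728) [nat_lit 2, nat_lit 17],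
   .mk (nat_lit 16385) (nat_lit 37376) [nat_lit 0, nat_lit 14],
   .mk (nat_lit 4295491584) (nat_lit 18014400658014208) [nat_lit 19, nat_lit 32],
   .mk (nat_lit 144115205255725056) (nat_lit 90071994694893568) [nat_lit 34, nat_lit 57],
   .mk (nat_lit 274877915136) (nat_lit 1126449662660608) [nat_lit 13, nat_lit 38],
   .mk (nat_lit 8796093022216) (nat_lit 22539988369408) [nat_lit 3, nat_lit 43],
   .mk (nat_lit 4503601774854144) (nat_lit 562949958139904) [nat_lit 31, nat_lit 52],
   .mk (nat_lit 557056) (nat_lit 70369817923584) [nat_lit 15, nat_lit 19],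
   .mk (nat_lit 274877907072) (nat_lit 5497558138884) [nat_lit 7, nat_lit 38],
   .mk (nat_lit 1073741832) (nat_lit 571473920) [nat_lit 3, nat_lit 30],
   .mk (nat_lit 281749854617600) (nat_lit 8796093059072) [nat_lit 38, nat_lit 48],
   .mk (nat_lit 4831838208) (nat_lit 68719476748) [nat_lit 29, nat_lit 32],
   .mk (nat_lit 2199023779840) (nat_lit 81065068170575872) [nat_lit 19, nat_lit 41],
   .mk (nat_lit 6291456) (nat_lit 1152921504607436800) [nat_lit 21, nat_lit 22],
   .mk (nat_lit 4672924418048) (nat_lit 1099511627788) [nat_lit 38, nat_lit 42],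
   .mk (nat_lit 17592186044424) (nat_lit 6047313952768) [nat_lit 3, nat_lit 44],
   .mk (nat_lit 35184372121600) (nat_lit 1342181376) [nat_lit 15, nat_lit 45],
   .mk (nat_lit 4295229440) (nat_lit 633318697607168) [nat_lit 18, nat_lit 32],
   .mk (nat_lit 70373039144960) (nat_lit 562949953433600) [nat_lit 32, nat_lit 46],
   .mk (nat_lit 33554440) (nat_lit 554696704) [nat_lit 3, nat_lit 25],
   .mk (nat_lit 129) (nat_lit 1092) [nat_lit 0, nat_lit 7],
   .mk (nat_lit 264) (nat_lit 1090) [nat_lit 3, nat_lit 8],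
   .mk (nat_lit 144) (nat_lit 1152921504606847044) [nat_lit 4, nat_lit 7],
   .mk (nat_lit 2151677952) (nat_lit 9570149208686592) [nat_lit 22, nat_lit 31],
   .mk (nat_lit 36029346774777856) (nat_lit 72057594072530944) [nat_lit 39, nat_lit 55],
   .mk (nat_lit 1025) (nat_lit 76) [nat_lit 0, nat_lit 10],
   .mk (nat_lit 70368744701952) (nat_lit 1073754112) [nat_lit 19, nat_lit 46],
   .mk (nat_lit 36028797052518400) (nat_lit 1224979098645823488) [nat_lit 25, nat_lit 55],
   .mk (nat_lit 9007201402224640) (nat_lit 562949954994176) [nat_lit 31, nat_lit 53],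
   .mk (nat_lit 192) (nat_lit 1152921504606848004) [nat_lit 6, nat_lit 7],
   .mk (nat_lit 278528) (nat_lit 1152921504606920704) [nat_lit 14, nat_lit 18],
   .mk (nat_lit 16386) (nat_lit 77824) [nat_lit 1, nat_lit 14],
   .mk (nat_lit 70368744439808) (nat_lit 703687441784832) [nat_lit 18, nat_lit 46],
   .mk (nat_lit 4098) (nat_lit 73729) [nat_lit 1, nat_lit 12],
   .mk (nat_lit 320) (nat_lit 1152921504606848002) [nat_lit 6, nat_lit 8],
   .mk (nat_lit 549789368320) (nat_lit 81064793293717504) [nat_lit 25, nat_lit 39],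
   .mk (nat_lit 532480) (nat_lit 1074794496) [nat_lit 13, nat_lit 19],
   .mk (nat_lit 9007199288295424) (nat_lit 90071992548458496) [nat_lit 25, nat_lit 53],
   .mk (nat_lit 16777220) (nat_lit 138936320) [nat_lit 2, nat_lit 24],
   .mk (nat_lit 80) (nat_lit 1152921504606847012) [nat_lit 4, nat_lit 6],
   .mk (nat_lit 96) (nat_lit 1152921504606846981) [nat_lit 5, nat_lit 6],
   .mk (nat_lit 274877939712) (nat_lit 1134695999868928) [nat_lit 15, nat_lit 38],
   .mk (nat_lit 48) (nat_lit 1152921504606847492) [nat_lit 4, nat_lit 5],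
   .mk (nat_lit 20971520) (nat_lit 134807552) [nat_lit 22, nat_lit 24],
   .mk (nat_lit 274877906952) (nat_lit 1649267441668) [nat_lit 3, nat_lit 38],
   .mk (nat_lit 8388864) (nat_lit 1152921504623624194) [nat_lit 8, nat_lit 23],
   .mk (nat_lit 72057594071482368) (nat_lit 1170935903117377536) [nat_lit 25, nat_lit 56],
   .mk (nat_lit 1099511627784) (nat_lit 4947802324996) [nat_lit 3, nat_lit 40],
   .mk (nat_lit 4398046511232) (nat_lit 1152922604118474756) [nat_lit 7, nat_lit 42],
   .mk (nat_lit 25165824) (nat_lit 1152921504640401410) [nat_lit 23, nat_lit 24],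
   .mk (nat_lit 35184373137408) (nat_lit 140737488367616) [nat_lit 20, nat_lit 45],
   .mk (nat_lit 262152) (nat_lit 134356992) [nat_lit 3, nat_lit 18],
   .mk (nat_lit 1126174784749568) (nat_lit 9345848840192) [nat_lit 38, nat_lit 50],
   .mk (nat_lit 41943040) (nat_lit 1152921504608944130) [nat_lit 23, nat_lit 25],
   .mk (nat_lit 9007749010554880) (nat_lit 72057594039500800) [nat_lit 39, nat_lit 53],
   .mk (nat_lit 4294971392) (nat_lit 562952100913152) [nat_lit 12, nat_lit 32],
   .mk (nat_lit 1125899906875392) (nat_lit 1152930300699873280) [nat_lit 15, nat_lit 50],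
   .mk (nat_lit 4259840) (nat_lit 1152921504741588992) [nat_lit 16, nat_lit 22],
   .mk (nat_lit 131080) (nat_lit 134230016) [nat_lit 3, nat_lit 17],
   .mk (nat_lit 108086391056891904) (nat_lit 1152939096793939968) [nat_lit 55, nat_lit 56],
   .mk (nat_lit 36) (nat_lit 1152921504606847489) [nat_lit 2, nat_lit 5],
   .mk (nat_lit 32769) (nat_lit 135680) [nat_lit 0, nat_lit 15],
   .mk (nat_lit 292057776128) (nat_lit 360287972337123328) [nat_lit 34, nat_lit 38],
   .mk (nat_lit 24576) (nat_lit 1152921504606916608) [nat_lit 13, nat_lit 14],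
   .mk (nat_lit 393216) (nat_lit 134291456) [nat_lit 17, nat_lit 18],
   .mk (nat_lit 2162688) (nat_lit 1152921504607371296) [nat_lit 16, nat_lit 21],
   .mk (nat_lit 1099511627904) (nat_lit 1152921538966585348) [nat_lit 7, nat_lit 40],
   .mk (nat_lit 36046389205008384) (nat_lit 1155173304421580800) [nat_lit 44, nat_lit 55],
   .mk (nat_lit 2147483776) (nat_lit 42949672964) [nat_lit 7, nat_lit 31],
   .mk (nat_lit 18691697672192) (nat_lit 1152926452409171968) [nat_lit 40, nat_lit 44],
   .mk (nat_lit 4294967300) (nat_lit 70866960392) [nat_lit 2, nat_lit 32],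
   .mk (nat_lit 5497558138880) (nat_lit 1152922054362660868) [nat_lit 40, nat_lit 42],
   .mk (nat_lit 327680) (nat_lit 1152921504741072896) [nat_lit 16, nat_lit 18],
   .mk (nat_lit 17179873280) (nat_lit 633320845082624) [nat_lit 12, nat_lit 34],
   .mk (nat_lit 21990232555520) (nat_lit 1152930850455683072) [nat_lit 42, nat_lit 44],
   .mk (nat_lit 288230651029618688) (nat_lit 72057600480378880) [nat_lit 38, nat_lit 58],
   .mk (nat_lit 32772) (nat_lit 335548416) [nat_lit 2, nat_lit 15],
   .mk (nat_lit 549756338176) (nat_lit 72057868916883456) [nat_lit 19, nat_lit 39],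
   .mk (nat_lit 131073) (nat_lit 12800) [nat_lit 0, nat_lit 17],
   .mk (nat_lit 1048577) (nat_lit 17301506) [nat_lit 0, nat_lit 20],
   .mk (nat_lit 163840) (nat_lit 67113472) [nat_lit 15, nat_lit 17],
   .mk (nat_lit 1133871366144) (nat_lit 1152923703630102532) [nat_lit 35, nat_lit 40],
   .mk (nat_lit 49152) (nat_lit 1152921504606851584) [nat_lit 14, nat_lit 15],
   .mk (nat_lit 26388279066624) (nat_lit 1154047954269503488) [nat_lit 43, nat_lit 44],
   .mk (nat_lit 72057594038452224) (nat_lit 9007474133696512) [nat_lit 19, nat_lit 56],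
   .mk (nat_lit 33280) (nat_lit 1152921504673959936) [nat_lit 9, nat_lit 15],
   .mk (nat_lit 81920) (nat_lit 1152921504606851104) [nat_lit 14, nat_lit 16],
   .mk (nat_lit 562949953425408) (nat_lit 70370891669504) [nat_lit 12, nat_lit 49],
   .mk (nat_lit 134479872) (nat_lit 1152956688978944000) [nat_lit 18, nat_lit 27],
   .mk (nat_lit 16777217) (nat_lit 589826) [nat_lit 0, nat_lit 24],
   .mk (nat_lit 16384) (nat_lit 1152921504606851616) [nat_lit 14],
   .mk (nat_lit 1134695999864832) (nat_lit 1152922054362664960) [nat_lit 43, nat_lit 50],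
   .mk (nat_lit 34359738496) (nat_lit 1152921513196781572) [nat_lit 7, nat_lit 35],
   .mk (nat_lit 2097184) (nat_lit 1152921504615759872) [nat_lit 5, nat_lit 21],
   .mk (nat_lit 10485760) (nat_lit 1152921504607371266) [nat_lit 21, nat_lit 23],
   .mk (nat_lit 1143492092887040) (nat_lit 1155173854176346112) [nat_lit 44, nat_lit 50],
   .mk (nat_lit 3377699720527872) (nat_lit 1152922054362923008) [nat_lit 50, nat_lit 51],
   .mk (nat_lit 67141632) (nat_lit 1152921504875286528) [nat_lit 15, nat_lit 26],
   .mk (nat_lit 544) (nat_lit 1152921504606851073) [nat_lit 5, nat_lit 9],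
   .mk (nat_lit 35651584) (nat_lit 1152921504607895554) [nat_lit 21, nat_lit 25],
   .mk (nat_lit 288230393331580928) (nat_lit 1224979100792258560) [nat_lit 34, nat_lit 58],
   .mk (nat_lit 16777224) (nat_lit 538443776) [nat_lit 3, nat_lit 24],
   .mk (nat_lit 2097152) (nat_lit 1152921504608419842) [nat_lit 21],
   .mk (nat_lit 9) (nat_lit 70) [nat_lit 0, nat_lit 3],
   .mk (nat_lit 288230378299195392) (nat_lit 1224979102939742208) [nat_lit 31, nat_lit 58],
   .mk (nat_lit 4128) (nat_lit 1152921504606912513) [nat_lit 5, nat_lit 12],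
   .mk (nat_lit 3298534883328) (nat_lit 1152921779484753924) [nat_lit 40, nat_lit 41],
   .mk (nat_lit 4104) (nat_lit 134225924) [nat_lit 3, nat_lit 12],
   .mk (nat_lit 33554434) (nat_lit 1152921504624672768) [nat_lit 1, nat_lit 25],
   .mk (nat_lit 1099511627776) (nat_lit 1152922329240567812) [nat_lit 40],
   .mk (nat_lit 8388640) (nat_lit 1152921504607371265) [nat_lit 5, nat_lit 23],
   .mk (nat_lit 8388608) (nat_lit 1152921504607371267) [nat_lit 23],
   .mk (nat_lit 72) (nat_lit 1030) [nat_lit 3, nat_lit 6],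
   .mk (nat_lit 32) (nat_lit 1152921504607436801) [nat_lit 5],
   .mk (nat_lit 1048578) (nat_lit 1152921504624148480) [nat_lit 1, nat_lit 20],
   .mk (nat_lit 268435460) (nat_lit 67121152) [nat_lit 2, nat_lit 28],
   .mk (nat_lit 13194139533312) (nat_lit 1152922054362662912) [nat_lit 42, nat_lit 43],
   .mk (nat_lit 4194308) (nat_lit 1208483840) [nat_lit 2, nat_lit 22],
   .mk (nat_lit 8589934720) (nat_lit 1152921505143717892) [nat_lit 7, nat_lit 33],
   .mk (nat_lit 65) (nat_lit 1152921504606846982) [nat_lit 0, nat_lit 6],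
   .mk (nat_lit 64) (nat_lit 1152921504606848006) [nat_lit 6],
   .mk (nat_lit 35184372350976) (nat_lit 1153062242095210496) [nat_lit 18, nat_lit 45],
   .mk (nat_lit 36507222016) (nat_lit 8589934604) [nat_lit 31, nat_lit 35],
   .mk (nat_lit 1125899907104768) (nat_lit 1152922054362669056) [nat_lit 18, nat_lit 50],
   .mk (nat_lit 140737488617472) (nat_lit 1153484454560276480) [nat_lit 18, nat_lit 47],
   .mk (nat_lit 1125899906842624) (nat_lit 1152922054362673152) [nat_lit 50],
   .mk (nat_lit 524289) (nat_lit 1152921504606912514) [nat_lit 0, nat_lit 19],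
   .mk (nat_lit 2269391999729664) (nat_lit 1152922054363709440) [nat_lit 44, nat_lit 51],
   .mk (nat_lit 69632) (nat_lit 1152921504606855169) [nat_lit 12, nat_lit 16],
   .mk (nat_lit 524290) (nat_lit 1152921504623689728) [nat_lit 1, nat_lit 19],
   .mk (nat_lit 50331648) (nat_lit 1152921505144766464) [nat_lit 24, nat_lit 25],
   .mk (nat_lit 360287970189639680) (nat_lit 1152939101087858688) [nat_lit 56, nat_lit 58],
   .mk (nat_lit 65537) (nat_lit 1152921504606855170) [nat_lit 0, nat_lit 16],
   .mk (nat_lit 17825792) (nat_lit 1152921505144242176) [nat_lit 20, nat_lit 24],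
   .mk (nat_lit 72057611217797120) (nat_lit 1170935905263812608) [nat_lit 34, nat_lit 56],
   .mk (nat_lit 288230513590665216) (nat_lit 1729382261205237760) [nat_lit 37, nat_lit 58],
   .mk (nat_lit 268468224) (nat_lit 1152921505680592896) [nat_lit 15, nat_lit 28],
   .mk (nat_lit 288230376151711744) (nat_lit 1729399853391282176) [nat_lit 58],
   .mk (nat_lit 9126805504) (nat_lit 1152921521786716164) [nat_lit 29, nat_lit 33],
   .mk (nat_lit 576478344489467904) (nat_lit 1152922058657628160) [nat_lit 44, nat_lit 59],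
   .mk (nat_lit 576461302059237376) (nat_lit 1152921783779721216) [nat_lit 39, nat_lit 59],
   .mk (nat_lit 18014398543036416) (nat_lit 1157425104235266048) [nat_lit 25, nat_lit 54],
   .mk (nat_lit 576460889742376960) (nat_lit 1297036696977670144) [nat_lit 37, nat_lit 59],
   .mk (nat_lit 553648128) (nat_lit 1152921504607371392) [nat_lit 24, nat_lit 29],
   .mk (nat_lit 4097) (nat_lit 1152921504606855680) [nat_lit 0, nat_lit 12],
   .mk (nat_lit 589824) (nat_lit 1152921504757841920) [nat_lit 16, nat_lit 19],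
   .mk (nat_lit 5) (nat_lit 1152921504606847490) [nat_lit 0, nat_lit 2],
   .mk (nat_lit 1073741828) (nat_lit 135790592) [nat_lit 2, nat_lit 30],
   .mk (nat_lit 17596481011712) (nat_lit 1224979648400588800) [nat_lit 32, nat_lit 44],
   .mk (nat_lit 524296) (nat_lit 537919492) [nat_lit 3, nat_lit 19],
   .mk (nat_lit 17592186044416) (nat_lit 1224979648401637376) [nat_lit 44],
   .mk (nat_lit 1) (nat_lit 1152921504606855682) [nat_lit 0],
   .mk (nat_lit 4503599631564800) (nat_lit 703687442300928) [nat_lit 22, nat_lit 52],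
   .mk (nat_lit 25769803776) (nat_lit 1152921506754330628) [nat_lit 33, nat_lit 34],
   .mk (nat_lit 4398046513152) (nat_lit 1152922054362660872) [nat_lit 11, nat_lit 42],
   .mk (nat_lit 17301504) (nat_lit 1152921504741064832) [nat_lit 19, nat_lit 24],
   .mk (nat_lit 16777344) (nat_lit 1152921504741195776) [nat_lit 7, nat_lit 24],
   .mk (nat_lit 150994944) (nat_lit 1152921504607043584) [nat_lit 24, nat_lit 27],
   .mk (nat_lit 134283264) (nat_lit 1152921504606986240) [nat_lit 16, nat_lit 27],
   .mk (nat_lit 536871040) (nat_lit 1152921504607371268) [nat_lit 7, nat_lit 29],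
   .mk (nat_lit 554050781184) (nat_lit 1224979373522681856) [nat_lit 32, nat_lit 39],
   .mk (nat_lit 16908288) (nat_lit 1152921504606912768) [nat_lit 17, nat_lit 24],
   .mk (nat_lit 16777216) (nat_lit 1152921504606912770) [nat_lit 24],
   .mk (nat_lit 72057598332895232) (nat_lit 1152921781632237568) [nat_lit 32, nat_lit 56],
   .mk (nat_lit 196608) (nat_lit 1152921504606855424) [nat_lit 16, nat_lit 17],
   .mk (nat_lit 65536) (nat_lit 1152921504606855426) [nat_lit 16],
   .mk (nat_lit 524416) (nat_lit 1152921504741064708) [nat_lit 7, nat_lit 19],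
   .mk (nat_lit 8194) (nat_lit 1152921504606847744) [nat_lit 1, nat_lit 13],
   .mk (nat_lit 72058143793741824) (nat_lit 1152921779485802496) [nat_lit 39, nat_lit 56],
   .mk (nat_lit 549756862464) (nat_lit 1155173579298439168) [nat_lit 20, nat_lit 39],
   .mk (nat_lit 516) (nat_lit 1152921504606846994) [nat_lit 2, nat_lit 9],
   .mk (nat_lit 20) (nat_lit 1152921504606846986) [nat_lit 2, nat_lit 4],
   .mk (nat_lit 279172874240) (nat_lit 1729382259057754112) [nat_lit 32, nat_lit 38],
   .mk (nat_lit 258) (nat_lit 1152921504606848512) [nat_lit 1, nat_lit 8],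
   .mk (nat_lit 2251799814733824) (nat_lit 1188950576503717888) [nat_lit 20, nat_lit 51],
   .mk (nat_lit 528) (nat_lit 1152921504606849026) [nat_lit 4, nat_lit 9],
   .mk (nat_lit 36028797020012544) (nat_lit 1152921779485278208) [nat_lit 20, nat_lit 55],
   .mk (nat_lit 16) (nat_lit 1152921504606849034) [nat_lit 4],
   .mk (nat_lit 576461027181330432) (nat_lit 1152923705777586176) [nat_lit 38, nat_lit 59],
   .mk (nat_lit 38280596832649216) (nat_lit 1152921779488948224) [nat_lit 51, nat_lit 55],
   .mk (nat_lit 36028797018963968) (nat_lit 1152921779489472512) [nat_lit 55],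
   .mk (nat_lit 576462951326679040) (nat_lit 1297036694830186496) [nat_lit 41, nat_lit 59],
   .mk (nat_lit 514) (nat_lit 1152921504606850048) [nat_lit 1, nat_lit 9],
   .mk (nat_lit 576460752303423488) (nat_lit 1297036699125153792) [nat_lit 59],
   .mk (nat_lit 2560) (nat_lit 1152921504673956864) [nat_lit 9, nat_lit 11],
   .mk (nat_lit 2050) (nat_lit 1152921504606848008) [nat_lit 1, nat_lit 11],
   .mk (nat_lit 2) (nat_lit 1152921504606848012) [nat_lit 1],
   .mk (nat_lit 3072) (nat_lit 1152921504673955848) [nat_lit 10, nat_lit 11],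
   .mk (nat_lit 1280) (nat_lit 1152921504606978560) [nat_lit 8, nat_lit 10],
   .mk (nat_lit 256) (nat_lit 1152921504606986752) [nat_lit 8],
   .mk (nat_lit 277025390592) (nat_lit 1224981297668030464) [nat_lit 31, nat_lit 38],
   .mk (nat_lit 8704) (nat_lit 1152921504606982144) [nat_lit 9, nat_lit 13],
   .mk (nat_lit 537395200) (nat_lit 1152921504607895556) [nat_lit 19, nat_lit 29],
   .mk (nat_lit 139264) (nat_lit 1152921504741068800) [nat_lit 13, nat_lit 17],
   .mk (nat_lit 4608) (nat_lit 1152921504674086912) [nat_lit 9, nat_lit 12],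
   .mk (nat_lit 524292) (nat_lit 1152921504742113280) [nat_lit 2, nat_lit 19],
   .mk (nat_lit 512) (nat_lit 1152921504674087936) [nat_lit 9],
   .mk (nat_lit 1032) (nat_lit 1152921504673955844) [nat_lit 3, nat_lit 10],
   .mk (nat_lit 2201170739200) (nat_lit 1369094286720630784) [nat_lit 31, nat_lit 41],
   .mk (nat_lit 132096) (nat_lit 1152921504673955968) [nat_lit 10, nat_lit 17],
   .mk (nat_lit 1024) (nat_lit 1152921504673955972) [nat_lit 10],
   .mk (nat_lit 144117387099111424) (nat_lit 1233986297899515904) [nat_lit 41, nat_lit 57],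
   .mk (nat_lit 134348800) (nat_lit 1152921504606851200) [nat_lit 17, nat_lit 27],
   .mk (nat_lit 131072) (nat_lit 1152921504673960064) [nat_lit 17],
   .mk (nat_lit 72057596185411584) (nat_lit 1315051091192184832) [nat_lit 31, nat_lit 56],
   .mk (nat_lit 144115190223339520) (nat_lit 1170935907411296256) [nat_lit 31, nat_lit 57],
   .mk (nat_lit 134217856) (nat_lit 1152921504606851076) [nat_lit 7, nat_lit 27],
   .mk (nat_lit 128) (nat_lit 1152921504673959940) [nat_lit 7],
   .mk (nat_lit 72059793061183488) (nat_lit 1161928978739494912) [nat_lit 41, nat_lit 56],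
   .mk (nat_lit 216172782113783808) (nat_lit 1179943102371069952) [nat_lit 56, nat_lit 57],
   .mk (nat_lit 144115192370823168) (nat_lit 1170936040555282432) [nat_lit 32, nat_lit 57],
   .mk (nat_lit 144115188075855872) (nat_lit 1179943239810023424) [nat_lit 57],
   .mk (nat_lit 72057868915834880) (nat_lit 1161928703862636544) [nat_lit 38, nat_lit 56],
   .mk (nat_lit 72057594037927936) (nat_lit 1179943102372118528) [nat_lit 56],
   .mk (nat_lit 274878955520) (nat_lit 1161928703862112256) [nat_lit 20, nat_lit 38],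
   .mk (nat_lit 134221824) (nat_lit 1152921504606855172) [nat_lit 12, nat_lit 27],
   .mk (nat_lit 27021597764222976) (nat_lit 1152921642046849024) [nat_lit 53, nat_lit 54],
   .mk (nat_lit 274878431232) (nat_lit 1161928703865782272) [nat_lit 19, nat_lit 38],
   .mk (nat_lit 4100) (nat_lit 1152921504673964032) [nat_lit 2, nat_lit 12],
   .mk (nat_lit 274882101248) (nat_lit 1164180503675273216) [nat_lit 22, nat_lit 38],
   .mk (nat_lit 9007474132647936) (nat_lit 1155175503443787776) [nat_lit 38, nat_lit 53],
   .mk (nat_lit 18014535948435456) (nat_lit 1152921508902862848) [nat_lit 37, nat_lit 54],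
   .mk (nat_lit 9009398277996544) (nat_lit 1155454779397242880) [nat_lit 41, nat_lit 53],
   .mk (nat_lit 2251799817879552) (nat_lit 1162491653815009280) [nat_lit 22, nat_lit 51],
   .mk (nat_lit 11258999068426240) (nat_lit 1153765929536978944) [nat_lit 51, nat_lit 53],
   .mk (nat_lit 9288674231451648) (nat_lit 1153484591999221760) [nat_lit 48, nat_lit 53],
   .mk (nat_lit 9007336693694464) (nat_lit 1153484454561316864) [nat_lit 37, nat_lit 53],
   .mk (nat_lit 67108868) (nat_lit 1152921504606855176) [nat_lit 2, nat_lit 26],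
   .mk (nat_lit 9007199255789568) (nat_lit 1153484454560792576) [nat_lit 20, nat_lit 53],
   .mk (nat_lit 67112960) (nat_lit 1152921504875290624) [nat_lit 12, nat_lit 26],
   .mk (nat_lit 67108872) (nat_lit 1152921504606857216) [nat_lit 3, nat_lit 26],
   .mk (nat_lit 67108864) (nat_lit 1152921504875292672) [nat_lit 26],
   .mk (nat_lit 9007199254740992) (nat_lit 1153484454564986880) [nat_lit 53],
   .mk (nat_lit 8196) (nat_lit 1152921504741064712) [nat_lit 2, nat_lit 13],
   .mk (nat_lit 8200) (nat_lit 1152921504741066752) [nat_lit 3, nat_lit 13],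
   .mk (nat_lit 134217732) (nat_lit 1152921504607895560) [nat_lit 2, nat_lit 27],
   .mk (nat_lit 18014402804449280) (nat_lit 1152921506755379200) [nat_lit 32, nat_lit 54],
   .mk (nat_lit 134217736) (nat_lit 1152921504607897600) [nat_lit 3, nat_lit 27],
   .mk (nat_lit 1048580) (nat_lit 1152921505143717896) [nat_lit 2, nat_lit 20],
   .mk (nat_lit 1048584) (nat_lit 1152921505143719936) [nat_lit 3, nat_lit 20],
   .mk (nat_lit 562949957615616) (nat_lit 1153062242095726592) [nat_lit 22, nat_lit 49],
   .mk (nat_lit 137440002048) (nat_lit 1153484458855235584) [nat_lit 20, nat_lit 37],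
   .mk (nat_lit 2814749767106560) (nat_lit 1153202979583819776) [nat_lit 49, nat_lit 51],
   .mk (nat_lit 4296015872) (nat_lit 1153484456707751936) [nat_lit 20, nat_lit 32],
   .mk (nat_lit 10240) (nat_lit 1152921505009500160) [nat_lit 11, nat_lit 13],
   .mk (nat_lit 268437504) (nat_lit 1152921505814806528) [nat_lit 11, nat_lit 28],
   .mk (nat_lit 562949954469888) (nat_lit 1152921506754854912) [nat_lit 20, nat_lit 49],
   .mk (nat_lit 134225920) (nat_lit 1152956689247371264) [nat_lit 13, nat_lit 27],
   .mk (nat_lit 562949953683456) (nat_lit 1153202979583565824) [nat_lit 18, nat_lit 49],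
   .mk (nat_lit 270336) (nat_lit 1153203529339371520) [nat_lit 13, nat_lit 18],
   .mk (nat_lit 262144) (nat_lit 1155455329153056768) [nat_lit 18],
   .mk (nat_lit 134219776) (nat_lit 1152921505681637376) [nat_lit 11, nat_lit 27],
   .mk (nat_lit 268443648) (nat_lit 1152956688978939904) [nat_lit 13, nat_lit 28],
   .mk (nat_lit 1050624) (nat_lit 1152921506217459712) [nat_lit 11, nat_lit 20],
   .mk (nat_lit 35184372097024) (nat_lit 1153062242095206400) [nat_lit 13, nat_lit 45],
   .mk (nat_lit 1073743872) (nat_lit 1152921573863194624) [nat_lit 11, nat_lit 30],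
   .mk (nat_lit 537919488) (nat_lit 1152921505714143232) [nat_lit 20, nat_lit 29],
   .mk (nat_lit 549755822080) (nat_lit 1153202979583561728) [nat_lit 13, nat_lit 39],
   .mk (nat_lit 402653184) (nat_lit 1152956690052677632) [nat_lit 27, nat_lit 28],
   .mk (nat_lit 268435456) (nat_lit 1152956690052681728) [nat_lit 28],
   .mk (nat_lit 135266304) (nat_lit 1152921505681113088) [nat_lit 20, nat_lit 27],
   .mk (nat_lit 282024732524544) (nat_lit 1155173304420536320) [nat_lit 39, nat_lit 48],
   .mk (nat_lit 134742016) (nat_lit 1152921505684783104) [nat_lit 19, nat_lit 27],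
   .mk (nat_lit 134217728) (nat_lit 1152956690056871936) [nat_lit 27],
   .mk (nat_lit 175921860444160) (nat_lit 1152921504611045376) [nat_lit 45, nat_lit 47],
   .mk (nat_lit 2533274790395904) (nat_lit 1152923703630106624) [nat_lit 48, nat_lit 51],
   .mk (nat_lit 35184372088832) (nat_lit 1152921505684787200) [nat_lit 45],
   .mk (nat_lit 2148532224) (nat_lit 1170935903116853248) [nat_lit 20, nat_lit 31],
   .mk (nat_lit 140737492549632) (nat_lit 1152921504607375360) [nat_lit 22, nat_lit 47],
   .mk (nat_lit 4194304) (nat_lit 1152921505681117184) [nat_lit 22],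
   .mk (nat_lit 2253998836940800) (nat_lit 1152921779484758016) [nat_lit 41, nat_lit 51],
   .mk (nat_lit 2251799813685248) (nat_lit 1152922329240571904) [nat_lit 51],
   .mk (nat_lit 570425344) (nat_lit 1152991874424766464) [nat_lit 25, nat_lit 29],
   .mk (nat_lit 18014400656965632) (nat_lit 1152921521787240448) [nat_lit 31, nat_lit 54],
   .mk (nat_lit 844424930131968) (nat_lit 1152921642045808640) [nat_lit 48, nat_lit 49],
   .mk (nat_lit 563087392374784) (nat_lit 1152921508901822464) [nat_lit 37, nat_lit 49],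
   .mk (nat_lit 2148007936) (nat_lit 1153484471740137472) [nat_lit 19, nat_lit 31],
   .mk (nat_lit 536872960) (nat_lit 1152921573326323720) [nat_lit 11, nat_lit 29],
   .mk (nat_lit 18014415689351168) (nat_lit 1157425104234741760) [nat_lit 34, nat_lit 54],
   .mk (nat_lit 18014398509481984) (nat_lit 1157425104235790336) [nat_lit 54],
   .mk (nat_lit 536870920) (nat_lit 1152921573326323716) [nat_lit 3, nat_lit 29],
   .mk (nat_lit 562954248388608) (nat_lit 1152921506754338816) [nat_lit 32, nat_lit 49],
   .mk (nat_lit 1074266112) (nat_lit 1152921504607899648) [nat_lit 19, nat_lit 30],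
   .mk (nat_lit 536870916) (nat_lit 1152921590506192896) [nat_lit 2, nat_lit 29],
   .mk (nat_lit 17716740096) (nat_lit 1152991942070501376) [nat_lit 29, nat_lit 34],
   .mk (nat_lit 536870912) (nat_lit 1152991943144243200) [nat_lit 29],
   .mk (nat_lit 17179869188) (nat_lit 1152921575473807360) [nat_lit 2, nat_lit 34],
   .mk (nat_lit 528384) (nat_lit 1153062242096250880) [nat_lit 12, nat_lit 19],
   .mk (nat_lit 140737488359424) (nat_lit 1152921504607903744) [nat_lit 12, nat_lit 47],
   .mk (nat_lit 69793218560) (nat_lit 1152991873351057408) [nat_lit 30, nat_lit 36],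
   .mk (nat_lit 68719476740) (nat_lit 1152921506754330632) [nat_lit 2, nat_lit 36],
   .mk (nat_lit 85899345920) (nat_lit 1152991875498508288) [nat_lit 34, nat_lit 36],
   .mk (nat_lit 2147483652) (nat_lit 1152921513196781576) [nat_lit 2, nat_lit 31],
   .mk (nat_lit 17180393472) (nat_lit 1157988054187638784) [nat_lit 19, nat_lit 34],
   .mk (nat_lit 70437463654400) (nat_lit 1152921506754363392) [nat_lit 36, nat_lit 46],
   .mk (nat_lit 19327352832) (nat_lit 1153554823304445952) [nat_lit 31, nat_lit 34],
   .mk (nat_lit 17179869184) (nat_lit 1158058422931816448) [nat_lit 34],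
   .mk (nat_lit 562949953945600) (nat_lit 1157565841722572800) [nat_lit 19, nat_lit 49],
   .mk (nat_lit 524288) (nat_lit 1157565841723621376) [nat_lit 19],
   .mk (nat_lit 1052672) (nat_lit 1152921505680596992) [nat_lit 12, nat_lit 20],
   .mk (nat_lit 1074790400) (nat_lit 1152921504640409600) [nat_lit 20, nat_lit 30],
   .mk (nat_lit 562952100904960) (nat_lit 1152991873351032832) [nat_lit 31, nat_lit 49],
   .mk (nat_lit 4503599628419072) (nat_lit 1153062242128756736) [nat_lit 20, nat_lit 52],
   .mk (nat_lit 1048576) (nat_lit 1153062242128764928) [nat_lit 20],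
   .mk (nat_lit 5066549580791808) (nat_lit 1153132610839379968) [nat_lit 49, nat_lit 52],
   .mk (nat_lit 4503599627370496) (nat_lit 1153132610872934400) [nat_lit 52],
   .mk (nat_lit 562949953421312) (nat_lit 1153132610839388160) [nat_lit 49],
   .mk (nat_lit 140737488355328) (nat_lit 1152991873384587264) [nat_lit 47],
   .mk (nat_lit 33554432) (nat_lit 1152991874424774656) [nat_lit 25],
   .mk (nat_lit 8589934596) (nat_lit 1152921538966585352) [nat_lit 2, nat_lit 33],
   .mk (nat_lit 1073774592) (nat_lit 1152991873351028736) [nat_lit 15, nat_lit 30],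
   .mk (nat_lit 1073741824) (nat_lit 1152991873351036928) [nat_lit 30],
   .mk (nat_lit 70368744185856) (nat_lit 1152921506754334720) [nat_lit 13, nat_lit 46],
   .mk (nat_lit 70368744177664) (nat_lit 1152921506754367488) [nat_lit 46],
   .mk (nat_lit 12288) (nat_lit 1153202981731041280) [nat_lit 12, nat_lit 13],
   .mk (nat_lit 10737418240) (nat_lit 1152921508901814280) [nat_lit 31, nat_lit 33],
   .mk (nat_lit 2147483656) (nat_lit 1152921577621291008) [nat_lit 3, nat_lit 31],
   .mk (nat_lit 12884901888) (nat_lit 1152921642045800456) [nat_lit 32, nat_lit 33],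
   .mk (nat_lit 8589934592) (nat_lit 1152921676405538824) [nat_lit 33],
   .mk (nat_lit 549755817984) (nat_lit 1152930575577776128) [nat_lit 12, nat_lit 39],
   .mk (nat_lit 824633720832) (nat_lit 1152930300699869188) [nat_lit 38, nat_lit 39],
   .mk (nat_lit 2147487744) (nat_lit 1153202979583590400) [nat_lit 12, nat_lit 31],
   .mk (nat_lit 36864) (nat_lit 1153211775676579840) [nat_lit 12, nat_lit 15],
   .mk (nat_lit 8796093054976) (nat_lit 1153203048303034368) [nat_lit 15, nat_lit 43],
   .mk (nat_lit 4294967304) (nat_lit 1152921710765277184) [nat_lit 3, nat_lit 32],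
   .mk (nat_lit 32768) (nat_lit 1153203050450518016) [nat_lit 15],
   .mk (nat_lit 281474976714752) (nat_lit 1152932499723124736) [nat_lit 12, nat_lit 48],
   .mk (nat_lit 4096) (nat_lit 1152932774601031680) [nat_lit 12],
   .mk (nat_lit 283673999966208) (nat_lit 1152930335059607552) [nat_lit 41, nat_lit 48],
   .mk (nat_lit 290271069732864) (nat_lit 1152921607686062080) [nat_lit 43, nat_lit 48],
   .mk (nat_lit 274877906944) (nat_lit 1152932499723124740) [nat_lit 38],
   .mk (nat_lit 2199023255552) (nat_lit 1152930335059607556) [nat_lit 41],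
   .mk (nat_lit 281477124194304) (nat_lit 1152921573326331904) [nat_lit 31, nat_lit 48],
   .mk (nat_lit 2147483648) (nat_lit 1152921577621299200) [nat_lit 31],
   .mk (nat_lit 4294967296) (nat_lit 1152921710765285376) [nat_lit 32],
   .mk (nat_lit 8192) (nat_lit 1153203185741987840) [nat_lit 13],
   .mk (nat_lit 281474976710656) (nat_lit 1152921745125015552) [nat_lit 48],
   .mk (nat_lit 137438953472) (nat_lit 1152921607686062088) [nat_lit 37],
   .mk (nat_lit 8864812498944) (nat_lit 1152921538966587392) [nat_lit 36, nat_lit 43],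
   .mk (nat_lit 68719476736) (nat_lit 1152921538966587400) [nat_lit 36],
   .mk (nat_lit 8796093024256) (nat_lit 1152922088722399232) [nat_lit 11, nat_lit 43],
   .mk (nat_lit 2048) (nat_lit 1152922088722399240) [nat_lit 11],
   .mk (nat_lit 8796093022208) (nat_lit 1152922088722399236) [nat_lit 43],
   .mk (nat_lit 34359738368) (nat_lit 1152922054362660876) [nat_lit 35],
   .mk (nat_lit 549755813888) (nat_lit 1152925902653358092) [nat_lit 39]]

/-- the last facet -/
def Wm : ℕ := nat_lit 1152925902653358092

end Pool.Agent.Lib.MP_c23581_co
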