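import Pool.Agent.Lib.MP_c23581_co.Data
import Pool.Agent.Lib.MP_c23581_co.DataM

/-!
# The moves are correct
-/

set_option autoImplicit false

namespace Pool.Agent.Lib.MP_c23581_co

theorem chkM : runMv (nat_lit 2305843009213693952) Wm mvs (appR LD outR) = true := by
  decide +kernel

end Pool.Agent.Lib.MP_c23581_co
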