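import Pool.Agent.Lib.MP_c23581_co.Masks

/-!
# The obstruction: blocks and hubs
-/

set_option autoImplicit false

namespace Pool.Agent.Lib.MP_c23581_co

open Finset

/-- there is no decomposition of the face poset into Boolean intervals of rank at least `k` -/
def NoPart {n : ℕ} (k : ℕ) (Δ : Finset (Finset (Fin n))) : Prop :=
  ¬ HasIntervalPartition k Δ

lemma not_hasStanleyDecomposition_of_noPart {n k : ℕ} {Δ : Finset (Finset (Fin n))}
    (h : NoPart k Δ) : ¬ HasStanleyDecomposition k Δ := by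
  rintro ⟨P, h1, h2, _⟩
  exact h ⟨P, fun I hI => ⟨(h1 I hI).1, (h1 I hI).2.1, (h1 I hI).2.2.le⟩, h2⟩

/-- the open interior `C` of a block; `H` is the set of hubs -/
structure Block {n : ℕ} (Δ : Finset (Finset (Fin n))) (H : Finset (Fin n))
    (C : Finset (Finset (Fin n))) : Prop where
  euler : ∑ ρ ∈ C, (-1 : ℤ) ^ ρ.card = 1
  mem : ∀ ρ ∈ C, ρ ∈ Δ
  two : ∀ ρ ∈ C, 2 ≤ ρ.card
  four : ∀ ρ ∈ C, ρ.card ≤ 4
  up : ∀ ρ ∈ C, ∀ τ ∈ Δ, ρ ⊆ τ → τ ∈ C
  tet : ∀ τ ∈ C, τ.card = 4 → ∀ x ∈ τ, ∀ y ∈ τ, x ≠ y → τ.erase x ∈ C ∨ τ.erase y ∈ C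
  tri : ∀ τ ∈ C, τ.card = 3 → ∀ v ∈ τ, (∀ x ∈ τ, x ≠ v → {v, x} ∈ C) → v ∈ H
  edge : ∀ τ ∈ C, τ.card = 2 → ∃ v ∈ τ, v ∈ H

/-- the signed indicator function of `C` -/
def gg {n : ℕ} (C : Finset (Finset (Fin n))) (ρ : Finset (Fin n)) : ℤ :=
  if ρ ∈ C then (-1) ^ ρ.card else 0

variable {n : ℕ} {Δ : Finset (Finset (Fin n))} {H : Finset (Fin n)} {C : Finset (Finset (Fin n))}

lemma Block.rank_two (hΔ : ∀ τ ∈ Δ, ∀ σ, σ ⊆ τ → σ ∈ Δ) (hB : Block Δ H C) {σ : Finset (Fin n)}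
    {x y : Fin n} (hx : x ∉ σ) (hy : y ∉ σ) (hxy : x ≠ y) (hτ : insert x (insert y σ) ∈ Δ)
    (hpos : 0 < gg C σ + gg C (insert y σ) + gg C (insert x σ) + gg C (insert x (insert y σ))) :
    ∃ v ∈ H, σ ⊆ {v} ∧ v ∈ insert x (insert y σ) := by
  have hx' : x ∉ insert y σ := by simp [hx, hxy]
  have cτ : (insert x (insert y σ)).card = σ.card + 2 := by
    rw [card_insert_of_notMem hx', card_insert_of_notMem hy]
  have cx' : (insert x σ).card = σ.card + 1 := card_insert_of_notMem hx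
  have cy' : (insert y σ).card = σ.card + 1 := card_insert_of_notMem hy
  have s1 : σ ⊆ insert x (insert y σ) := (subset_insert y σ).trans (subset_insert _ _)
  have s2 : insert y σ ⊆ insert x (insert y σ) := subset_insert _ _
  have s3 : insert x σ ⊆ insert x (insert y σ) := insert_subset_insert x (subset_insert y σ)
  by_cases hτC : insert x (insert y σ) ∈ C
  swap
  · have e1 : σ ∉ C := fun h => hτC (hB.up _ h _ hτ s1)
    have e2 : insert y σ ∉ C := fun h => hτC (hB.up _ h _ hτ s2)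
    have e3 : insert x σ ∉ C := fun h => hτC (hB.up _ h _ hτ s3)
    simp [gg, e1, e2, e3, hτC] at hpos
  by_cases hσC : σ ∈ C
  · have e2 : insert y σ ∈ C := hB.up _ hσC _ (hΔ _ hτ _ s2) (subset_insert _ _)
    have e3 : insert x σ ∈ C := hB.up _ hσC _ (hΔ _ hτ _ s3) (subset_insert _ _)
    simp only [gg, if_pos hσC, if_pos e2, if_pos e3, if_pos hτC, cτ, cx', cy'] at hpos
    have : (-1 : ℤ) ^ σ.card + (-1) ^ (σ.card + 1) + (-1) ^ (σ.card + 1) + (-1) ^ (σ.card + 2) = 0 := by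
      rw [pow_succ, pow_add]; ring
    omega
  have h4 := hB.four _ hτC
  rw [cτ] at h4
  have h5 : σ.card = 0 ∨ σ.card = 1 ∨ σ.card = 2 := by omega
  rcases h5 with h5 | h5 | h5
  · rw [card_eq_zero] at h5
    obtain ⟨v, hv, hv'⟩ := hB.edge _ hτC (by rw [cτ, h5]; rfl)
    exact ⟨v, hv', by rw [h5]; exact empty_subset _, hv⟩
  · simp only [gg, if_neg hσC, if_pos hτC, cτ, cx', cy', h5] at hpos
    by_cases e2 : insert y σ ∈ C
    swap
    · simp only [e2, if_false] at hpos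
      split_ifs at hpos
      all_goals norm_num at hpos
    by_cases e3 : insert x σ ∈ C
    swap
    · simp only [e2, e3, if_true, if_false] at hpos
      norm_num at hpos
    obtain ⟨v, hv⟩ := card_eq_one.1 h5
    refine ⟨v, ?_, by rw [hv], s1 (by rw [hv]; exact mem_singleton_self v)⟩
    refine hB.tri _ hτC (by rw [cτ, h5]) v (s1 (by rw [hv]; exact mem_singleton_self v)) ?_
    intro w hw hwv
    rw [mem_insert, mem_insert, hv, mem_singleton] at hw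
    rcases hw with rfl | rfl | hw
    · have : ({v, w} : Finset (Fin n)) = insert w σ := by rw [hv, pair_comm]
      rw [this]; exact e3
    · have : ({v, w} : Finset (Fin n)) = insert w σ := by rw [hv, pair_comm]
      rw [this]; exact e2
    · exact absurd hw hwv
  · simp only [gg, if_neg hσC, if_pos hτC, cτ, cx', cy', h5] at hpos
    have e1 : (insert x (insert y σ)).erase x = insert y σ := erase_insert hx'
    have e2 : (insert x (insert y σ)).erase y = insert x σ := by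
      rw [insert_comm]; exact erase_insert (by simp [hy, hxy.symm])
    have h6 := hB.tet _ hτC (by rw [cτ, h5]) x (mem_insert_self _ _) y
      (mem_insert_of_mem (mem_insert_self _ _)) hxy
    rw [e1, e2] at h6
    rcases h6 with h6 | h6
    · simp only [h6, if_true] at hpos
      split_ifs at hpos
      all_goals norm_num at hpos
    · simp only [h6, if_true] at hpos
      split_ifs at hpos
      all_goals norm_num at hpos

lemma Block.interval (hΔ : ∀ τ ∈ Δ, ∀ σ, σ ⊆ τ → σ ∈ Δ) (hB : Block Δ H C) {σ τ : Finset (Fin n)}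
    (hστ : σ ⊆ τ) (hτ : τ ∈ Δ) (hc : σ.card + 2 ≤ τ.card) (hpos : 0 < ∑ ρ ∈ Icc σ τ, gg C ρ) :
    ∃ v ∈ H, σ ⊆ {v} ∧ v ∈ τ := by
  have h1 : 1 < (τ \ σ).card := by
    rw [card_sdiff_of_subset hστ]; omega
  obtain ⟨x, hx, y, hy, hxy⟩ := Finset.one_lt_card.1 h1
  rw [mem_sdiff] at hx hy
  set W := ((τ \ σ).erase x).erase y with hW
  have hxW : x ∉ insert y W := by simp [hW, hxy]
  have hyW : y ∉ W := by simp [hW]
  have hWe : τ \ σ = insert x (insert y W) := by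
    rw [hW, insert_erase, insert_erase]
    · rw [mem_sdiff]; exact hx
    · rw [mem_erase, mem_sdiff]; exact ⟨hxy.symm, hy⟩
  have hsum : ∑ ρ ∈ Icc σ τ, gg C ρ = ∑ B ∈ (τ \ σ).powerset, gg C (σ ∪ B) := by
    rw [Finset.Icc_eq_image_powerset hστ, sum_image]
    intro A hA B hB hAB
    simp only [coe_powerset, Set.mem_preimage, Set.mem_powerset_iff, coe_subset] at hA hB
    have e1 : (σ ∪ A) \ σ = A := by
      rw [union_sdiff_cancel_left]
      exact disjoint_of_subset_right hA disjoint_sdiff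
    have e2 : (σ ∪ B) \ σ = B := by
      rw [union_sdiff_cancel_left]
      exact disjoint_of_subset_right hB disjoint_sdiff
    simp only at hAB
    rw [← e1, ← e2, hAB]
  rw [hsum, hWe, sum_powerset_insert hxW, sum_powerset_insert hyW, sum_powerset_insert hyW,
    ← sum_add_distrib, ← sum_add_distrib, ← sum_add_distrib] at hpos
  have h2 : ∃ A ∈ W.powerset, 0 < gg C (σ ∪ A) + gg C (σ ∪ insert y A) +
      (gg C (σ ∪ insert x A) + gg C (σ ∪ insert x (insert y A))) := by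
    by_contra hcon
    push Not at hcon
    exact absurd (sum_nonpos hcon) (not_le.2 hpos)
  obtain ⟨A, hA, h3⟩ := h2
  rw [mem_powerset] at hA
  have hAW : ∀ a ∈ A, a ≠ y ∧ a ≠ x ∧ a ∈ τ ∧ a ∉ σ := by
    intro a ha
    have := hA ha
    rw [hW, mem_erase, mem_erase, mem_sdiff] at this
    exact this
  rw [union_insert, union_insert, union_insert, union_insert, ← add_assoc] at h3
  have hsub : insert x (insert y (σ ∪ A)) ⊆ τ := by
    intro a ha
    simp only [mem_insert, mem_union] at ha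
    rcases ha with rfl | rfl | ha | ha
    · exact hx.1
    · exact hy.1
    · exact hστ ha
    · exact (hAW a ha).2.2.1
  obtain ⟨v, hv, hv1, hv2⟩ := hB.rank_two hΔ (σ := σ ∪ A) (x := x) (y := y)
    (by rw [mem_union]; rintro (h | h)
        · exact hx.2 h
        · exact (hAW x h).2.1 rfl)
    (by rw [mem_union]; rintro (h | h)
        · exact hy.2 h
        · exact (hAW y h).1 rfl)
    hxy (hΔ _ hτ _ hsub) h3
  exact ⟨v, hv, subset_union_left.trans hv1, hsub hv2⟩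

/-- too many blocks, not enough hubs -/
theorem noPart_of_blocks {ι : Type} [Fintype ι] (hΔ : ∀ τ ∈ Δ, ∀ σ, σ ⊆ τ → σ ∈ Δ)
    (D : ι → Finset (Finset (Fin n))) (hB : ∀ c, Block Δ H (D c))
    (hdisj : ∀ c c' τ, τ ∈ D c → τ ∈ D c' → c = c') (hcard : H.card < Fintype.card ι) :
    NoPart 2 Δ := by
  rintro ⟨P, hP1, hP2⟩
  have key : ∀ c, ∃ v ∈ H, ∃ I ∈ P, I.1 ⊆ {v} ∧ v ∈ I.2 ∧ I.2 ∈ D c := by
    intro c
    have h1 : ∑ ρ ∈ D c, (-1 : ℤ) ^ ρ.card = ∑ I ∈ P, ∑ ρ ∈ Icc I.1 I.2, gg (D c) ρ := by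
      have h2 : ∑ ρ ∈ D c, (-1 : ℤ) ^ ρ.card = ∑ ρ ∈ Δ, gg (D c) ρ := by
        have h3 : D c ⊆ Δ := fun ρ hρ => (hB c).mem ρ hρ
        rw [← sum_subset h3 (fun ρ _ hρ => by simp [gg, hρ])]
        refine sum_congr rfl (fun ρ hρ => by simp [gg, hρ])
      rw [h2]
      have h4 : ∀ ρ ∈ Δ, gg (D c) ρ = ∑ I ∈ P, if ρ ∈ Icc I.1 I.2 then gg (D c) ρ else 0 := by
        intro ρ hρ
        obtain ⟨I, hI, hI'⟩ := hP2 ρ hρ
        rw [sum_eq_single I]
        · rw [if_pos (by rw [mem_Icc]; exact hI.2)]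
        · intro J hJ hne
          rw [if_neg]
          rw [mem_Icc]
          intro h
          exact hne (hI' J ⟨hJ, h⟩)
        · intro h; exact absurd hI.1 h
      rw [sum_congr rfl h4, sum_comm]
      refine sum_congr rfl (fun I hI => ?_)
      rw [← sum_filter]
      refine sum_congr ?_ (fun _ _ => rfl)
      ext ρ
      rw [mem_filter, mem_Icc]
      exact ⟨fun h => h.2, fun h => ⟨hΔ _ (hP1 I hI).2.1 _ h.2, h⟩⟩
    rw [(hB c).euler] at h1
    have h2 : ∃ I ∈ P, 0 < ∑ ρ ∈ Icc I.1 I.2, gg (D c) ρ := by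
      by_contra hcon
      push Not at hcon
      have := sum_nonpos hcon
      omega
    obtain ⟨I, hI, hpos⟩ := h2
    obtain ⟨hI1, hI2, hI3⟩ := hP1 I hI
    obtain ⟨v, hv, hv1, hv2⟩ := (hB c).interval hΔ hI1 hI2 hI3 hpos
    refine ⟨v, hv, I, hI, hv1, hv2, ?_⟩
    obtain ⟨ρ, hρ, hρ'⟩ := exists_ne_zero_of_sum_ne_zero hpos.ne'
    have hρC : ρ ∈ D c := by
      by_contra h
      exact hρ' (by simp [gg, h])
    rw [mem_Icc] at hρ
    exact (hB c).up ρ hρC _ hI2 hρ.2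
  choose v hvH I hI hIv hvI hID using key
  obtain ⟨c, c', hne, hcc⟩ := Fintype.exists_ne_map_eq_of_card_lt
    (fun c => (⟨v c, hvH c⟩ : H)) (by rw [Fintype.card_coe]; exact hcard)
  simp only [Subtype.mk.injEq] at hcc
  have hmem : ({v c} : Finset (Fin n)) ∈ Δ :=
    hΔ _ (hP1 _ (hI c)).2.1 _ (singleton_subset_iff.2 (hvI c))
  obtain ⟨J, _, hJ⟩ := hP2 _ hmem
  have e1 := hJ (I c) ⟨hI c, hIv c, singleton_subset_iff.2 (hvI c)⟩
  have e2 := hJ (I c') ⟨hI c', by rw [hcc]; exact hIv c', singleton_subset_iff.2 (by rw [hcc]; exact hvI c')⟩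
  apply hne
  apply hdisj c c' (I c).2 (hID c)
  rw [e1, ← e2]
  exact hID c'

/-- the block before it is placed in the complex: `RT` are the tetrahedra, `IE` the interior edges,
`C` the interior faces and `H` the hubs -/
structure RBlock {m : ℕ} (RT IE C : Finset (Finset (Fin m))) (H : Finset (Fin m)) : Prop where
  euler : ∑ ρ ∈ C, (-1 : ℤ) ^ ρ.card = 1
  sub1 : ∀ ρ ∈ C, ∃ e ∈ IE, e ⊆ ρ
  sub2 : ∀ ρ ∈ C, ∃ F ∈ RT, ρ ⊆ F
  up : ∀ F ∈ RT, ∀ e ∈ IE, e ⊆ F → ∀ τ ∈ Icc e F, τ ∈ C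
  two : ∀ ρ ∈ C, 2 ≤ ρ.card
  four : ∀ ρ ∈ C, ρ.card ≤ 4
  tet : ∀ τ ∈ C, τ.card = 4 → ∀ x ∈ τ, ∀ y ∈ τ, x ≠ y → τ.erase x ∈ C ∨ τ.erase y ∈ C
  tri : ∀ τ ∈ C, τ.card = 3 → ∀ v ∈ τ, (∀ x ∈ τ, x ≠ v → {v, x} ∈ C) → v ∈ H
  edge : ∀ τ ∈ C, τ.card = 2 → ∃ v ∈ τ, v ∈ H

lemma block_of_rblock {m : ℕ} {RT IE CR : Finset (Finset (Fin m))} {HR : Finset (Fin m)}
    (hR : RBlock RT IE CR HR) (φ : Fin m ↪ Fin n) (hΔ : ∀ τ ∈ Δ, ∀ σ, σ ⊆ τ → σ ∈ Δ)
    (h1 : ∀ F ∈ RT, F.map φ ∈ Δ)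
    (h2 : ∀ e ∈ IE, ∀ ρ ∈ Δ, e.map φ ⊆ ρ → ∃ F ∈ RT, ρ ⊆ F.map φ)
    (h3 : ∀ v ∈ HR, φ v ∈ H) :
    Block Δ H (CR.map (mapEmbedding φ).toEmbedding) := by
  have hmem : ∀ ρ, ρ ∈ CR.map (mapEmbedding φ).toEmbedding ↔ ∃ ρ' ∈ CR, ρ'.map φ = ρ := by
    intro ρ
    rw [mem_map]
    rfl
  have hmem' : ∀ ρ', ρ'.map φ ∈ CR.map (mapEmbedding φ).toEmbedding ↔ ρ' ∈ CR := by
    intro ρ'
    rw [hmem]
    constructor
    · rintro ⟨ρ'', h, h'⟩
      rwa [map_injective φ h'] at h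
    · intro h; exact ⟨ρ', h, rfl⟩
  constructor
  · rw [sum_map]
    refine Eq.trans ?_ hR.euler
    refine sum_congr rfl (fun ρ _ => ?_)
    have : (mapEmbedding φ).toEmbedding ρ = ρ.map φ := rfl
    rw [this, card_map]
  · intro ρ hρ
    obtain ⟨ρ', hρ', rfl⟩ := (hmem ρ).1 hρ
    obtain ⟨F, hF, hF'⟩ := hR.sub2 ρ' hρ'
    exact hΔ _ (h1 F hF) _ (map_subset_map.2 hF')
  · intro ρ hρ
    obtain ⟨ρ', hρ', rfl⟩ := (hmem ρ).1 hρ
    rw [card_map]; exact hR.two _ hρ'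
  · intro ρ hρ
    obtain ⟨ρ', hρ', rfl⟩ := (hmem ρ).1 hρ
    rw [card_map]; exact hR.four _ hρ'
  · intro ρ hρ τ hτ hsub
    obtain ⟨ρ', hρ', rfl⟩ := (hmem ρ).1 hρ
    obtain ⟨e, he, he'⟩ := hR.sub1 ρ' hρ'
    have he2 : e.map φ ⊆ τ := (map_subset_map.2 he').trans hsub
    obtain ⟨F, hF, hF'⟩ := h2 e he τ hτ he2
    obtain ⟨τ', hτ', rfl⟩ := subset_map_iff.1 hF'
    rw [map_subset_map] at he2
    rw [hmem']
    exact hR.up F hF e he (he2.trans hτ') τ' (mem_Icc.2 ⟨he2, hτ'⟩)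
  · intro τ hτ hc x hx y hy hxy
    obtain ⟨τ', hτ', rfl⟩ := (hmem τ).1 hτ
    rw [mem_map] at hx hy
    obtain ⟨x', hx', rfl⟩ := hx
    obtain ⟨y', hy', rfl⟩ := hy
    rw [← map_erase, ← map_erase, hmem', hmem']
    rw [card_map] at hc
    exact hR.tet τ' hτ' hc x' hx' y' hy' (fun e => hxy (by rw [e]))
  · intro τ hτ hc v hv hall
    obtain ⟨τ', hτ', rfl⟩ := (hmem τ).1 hτ
    rw [mem_map] at hv
    obtain ⟨v', hv', rfl⟩ := hv
    rw [card_map] at hc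
    apply h3
    refine hR.tri τ' hτ' hc v' hv' ?_
    intro x' hx' hne
    have := hall (φ x') (mem_map_of_mem φ hx') (fun e => hne (φ.injective e))
    have e1 : ({φ v', φ x'} : Finset (Fin n)) = ({v', x'} : Finset (Fin m)).map φ := by
      rw [map_insert, map_singleton]
    rw [e1, hmem'] at this
    exact this
  · intro τ hτ hc
    obtain ⟨τ', hτ', rfl⟩ := (hmem τ).1 hτ
    rw [card_map] at hc
    obtain ⟨v, hv, hv'⟩ := hR.edge τ' hτ' hc
    exact ⟨φ v, mem_map_of_mem φ hv, h3 v hv'⟩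

end Pool.Agent.Lib.MP_c23581_co
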