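import Pool.Agent.Lib.MP_c23581_co.Flip
import Pool.Agent.Lib.MP_c23581_co.Part

/-!
# Cones
-/

set_option autoImplicit false

namespace Pool.Agent.Lib.MP_c23581_co

open Finset

variable {n : ℕ}

/-- trace on the old vertices -/
def restr (ρ : Finset (Fin (n + 1))) : Finset (Fin n) := univ.filter (fun i => i.castSucc ∈ ρ)

/-- the cone over `Δ`, with apex `Fin.last n` -/
def coneC (Δ : Finset (Finset (Fin n))) : Finset (Finset (Fin (n + 1))) :=
  univ.filter (fun ρ => restr ρ ∈ Δ)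

/-- an old face as a face of the cone -/
def upm (ρ : Finset (Fin n)) : Finset (Fin (n + 1)) := ρ.map Fin.castSuccEmb

lemma mem_restr {ρ : Finset (Fin (n + 1))} {i : Fin n} : i ∈ restr ρ ↔ i.castSucc ∈ ρ := by
  simp [restr]

lemma mem_coneC {Δ : Finset (Finset (Fin n))} {ρ : Finset (Fin (n + 1))} :
    ρ ∈ coneC Δ ↔ restr ρ ∈ Δ := by
  simp [coneC]

lemma mem_upm {ρ : Finset (Fin n)} {i : Fin (n + 1)} :
    i ∈ upm ρ ↔ ∃ j ∈ ρ, j.castSucc = i := by
  simp [upm]

lemma castSucc_mem_upm {ρ : Finset (Fin n)} {i : Fin n} : i.castSucc ∈ upm ρ ↔ i ∈ ρ := by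
  rw [mem_upm]
  constructor
  · rintro ⟨j, hj, h⟩
    rwa [Fin.castSucc_injective n h] at hj
  · intro h; exact ⟨i, h, rfl⟩

lemma last_notMem_upm {ρ : Finset (Fin n)} : Fin.last n ∉ upm ρ := by
  rw [mem_upm]
  rintro ⟨j, _, h⟩
  exact absurd h (Fin.castSucc_lt_last j).ne

lemma restr_upm (ρ : Finset (Fin n)) : restr (upm ρ) = ρ := by
  ext i; rw [mem_restr, castSucc_mem_upm]

lemma restr_mono {ρ σ : Finset (Fin (n + 1))} (h : ρ ⊆ σ) : restr ρ ⊆ restr σ := by
  intro i hi
  rw [mem_restr] at hi ⊢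
  exact h hi

lemma restr_insert_last (ρ : Finset (Fin (n + 1))) : restr (insert (Fin.last n) ρ) = restr ρ := by
  ext i
  rw [mem_restr, mem_restr, mem_insert]
  constructor
  · rintro (h | h)
    · exact absurd h (Fin.castSucc_lt_last i).ne
    · exact h
  · intro h; exact Or.inr h

lemma upm_subset_iff {ρ : Finset (Fin n)} {σ : Finset (Fin (n + 1))} :
    upm ρ ⊆ σ ↔ ρ ⊆ restr σ := by
  constructor
  · intro h i hi
    rw [mem_restr]
    exact h (castSucc_mem_upm.2 hi)
  · intro h i hi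
    rw [mem_upm] at hi
    obtain ⟨j, hj, rfl⟩ := hi
    have := h hj
    rwa [mem_restr] at this

lemma subset_upm_iff {ρ : Finset (Fin n)} {σ : Finset (Fin (n + 1))} :
    σ ⊆ upm ρ ↔ Fin.last n ∉ σ ∧ restr σ ⊆ ρ := by
  constructor
  · intro h
    refine ⟨fun hl => last_notMem_upm (h hl), ?_⟩
    have := restr_mono h
    rwa [restr_upm] at this
  · rintro ⟨h1, h2⟩ i hi
    induction i using Fin.lastCases with
    | last => exact absurd hi h1
    | cast i =>
      rw [castSucc_mem_upm]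
      exact h2 (mem_restr.2 hi)

lemma upm_restr {σ : Finset (Fin (n + 1))} (h : Fin.last n ∉ σ) : upm (restr σ) = σ :=
  Subset.antisymm (upm_subset_iff.2 Subset.rfl) (subset_upm_iff.2 ⟨h, Subset.rfl⟩)

lemma card_upm (ρ : Finset (Fin n)) : (upm ρ).card = ρ.card := card_map _

lemma card_restr_of_notMem {σ : Finset (Fin (n + 1))} (h : Fin.last n ∉ σ) :
    (restr σ).card = σ.card := by
  rw [← card_upm, upm_restr h]

lemma card_restr_of_mem {σ : Finset (Fin (n + 1))} (h : Fin.last n ∈ σ) :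
    (restr σ).card + 1 = σ.card := by
  have h1 := card_restr_of_notMem (σ := σ.erase (Fin.last n)) (notMem_erase _ _)
  have h2 : restr (σ.erase (Fin.last n)) = restr σ := by
    rw [← restr_insert_last (σ.erase (Fin.last n)), insert_erase h]
  rw [← h2, h1, card_erase_add_one h]

lemma isComplex_coneC {Δ : Finset (Finset (Fin n))} (h : IsComplex Δ) : IsComplex (coneC Δ) := by
  constructor
  · rw [mem_coneC]
    have : restr (∅ : Finset (Fin (n + 1))) = ∅ := by
      ext i; rw [mem_restr]; simp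
    rw [this]; exact h.empty_mem
  · intro τ hτ σ hσ
    rw [mem_coneC] at hτ ⊢
    exact h.down _ hτ _ (restr_mono hσ)

lemma hasDim_coneC {Δ : Finset (Finset (Fin n))} {d : ℕ} (h : HasDim Δ d) :
    HasDim (coneC Δ) (d + 1) := by
  constructor
  · obtain ⟨σ, hσ, hc⟩ := h.1
    refine ⟨insert (Fin.last n) (upm σ), ?_, ?_⟩
    · rw [mem_coneC, restr_insert_last, restr_upm]; exact hσ
    · rw [card_insert_of_notMem last_notMem_upm, card_upm, hc]
  · intro σ hσ
    rw [mem_coneC] at hσ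
    have := h.2 _ hσ
    by_cases hl : Fin.last n ∈ σ
    · rw [← card_restr_of_mem hl]; omega
    · rw [← card_restr_of_notMem hl]; omega

lemma noPart_coneC {Δ : Finset (Finset (Fin n))} {k : ℕ} (h : NoPart k Δ) :
    NoPart (k + 1) (coneC Δ) := by
  rintro ⟨P, hP1, hP2⟩
  apply h
  refine ⟨(P.filter (fun I => Fin.last n ∉ I.1)).image (fun I => (restr I.1, restr I.2)), ?_, ?_⟩
  · intro J hJ
    rw [mem_image] at hJ
    obtain ⟨I, hI, rfl⟩ := hJ
    rw [mem_filter] at hI
    obtain ⟨h1, h2, h3⟩ := hP1 I hI.1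
    refine ⟨restr_mono h1, mem_coneC.1 h2, ?_⟩
    simp only
    rw [card_restr_of_notMem hI.2]
    by_cases hl : Fin.last n ∈ I.2
    · have := card_restr_of_mem hl; omega
    · have := card_restr_of_notMem hl; omega
  · intro ρ hρ
    have h1 : upm ρ ∈ coneC Δ := by rw [mem_coneC, restr_upm]; exact hρ
    obtain ⟨I, ⟨hI, hI1, hI2⟩, hI3⟩ := hP2 _ h1
    rw [subset_upm_iff] at hI1
    rw [upm_subset_iff] at hI2
    refine ⟨(restr I.1, restr I.2), ⟨?_, hI1.2, hI2⟩, ?_⟩
    · rw [mem_image]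
      exact ⟨I, mem_filter.2 ⟨hI, hI1.1⟩, rfl⟩
    · rintro J ⟨hJ, hJ1, hJ2⟩
      rw [mem_image] at hJ
      obtain ⟨I', hI', rfl⟩ := hJ
      rw [mem_filter] at hI'
      have := hI3 I' ⟨hI'.1, subset_upm_iff.2 ⟨hI'.2, hJ1⟩, upm_subset_iff.2 hJ2⟩
      rw [this]

/-- ungraded version of `KFoldAcyclic` -/
def KFoldU (𝕜 : Type*) [CommRing 𝕜] (k : ℕ) (Δ : Finset (Finset (Fin n))) : Prop :=
  ∀ σ ∈ Δ, σ.card < k → AcyclicU 𝕜 (link Δ σ)

lemma kFoldAcyclic_of_kFoldU {𝕜 : Type*} [CommRing 𝕜] {k : ℕ} {Δ : Finset (Finset (Fin n))}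
    (h : KFoldU 𝕜 k Δ) : KFoldAcyclic 𝕜 k Δ := fun σ hσ hc => acyclic_of_acyclicU (h σ hσ hc)

lemma sg_castSucc {𝕜 : Type*} [CommRing 𝕜] (v : Fin n) (ρ : Finset (Fin n)) :
    sg 𝕜 v.castSucc (upm ρ) = sg 𝕜 v ρ := by
  unfold sg
  congr 1
  have : (upm ρ).filter (· < v.castSucc) = upm (ρ.filter (· < v)) := by
    ext i
    rw [mem_filter, mem_upm, mem_upm]
    constructor
    · rintro ⟨⟨j, hj, rfl⟩, h⟩
      exact ⟨j, mem_filter.2 ⟨hj, Fin.castSucc_lt_castSucc_iff.1 h⟩, rfl⟩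
    · rintro ⟨j, hj, rfl⟩
      rw [mem_filter] at hj
      exact ⟨⟨j, hj.1, rfl⟩, Fin.castSucc_lt_castSucc_iff.2 hj.2⟩
  rw [this, card_upm]

lemma upm_insert (v : Fin n) (ρ : Finset (Fin n)) : upm (insert v ρ) = insert v.castSucc (upm ρ) := by
  ext i
  rw [mem_upm, mem_insert, mem_upm]
  constructor
  · rintro ⟨j, hj, rfl⟩
    rw [mem_insert] at hj
    rcases hj with rfl | hj
    · exact Or.inl rfl
    · exact Or.inr ⟨j, hj, rfl⟩
  · rintro (rfl | ⟨j, hj, rfl⟩)
    · exact ⟨v, mem_insert_self _ _, rfl⟩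
    · exact ⟨j, mem_insert_of_mem hj, rfl⟩

/-- the boundary of a chain which vanishes on faces containing the apex -/
lemma boundary_upm {𝕜 : Type*} [CommRing 𝕜] {c : Finset (Fin (n + 1)) → 𝕜}
    (hc : ∀ ρ, Fin.last n ∈ ρ → c ρ = 0) (ρ : Finset (Fin n)) :
    boundary c (upm ρ) = boundary (fun σ => c (upm σ)) ρ := by
  rw [boundary_apply, boundary_apply]
  have h1 : (upm ρ)ᶜ = insert (Fin.last n) (upm ρᶜ) := by
    ext i
    rw [mem_compl, mem_insert]
    induction i using Fin.lastCases with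
    | last => simp [last_notMem_upm]
    | cast i =>
      rw [castSucc_mem_upm, castSucc_mem_upm, mem_compl]
      constructor
      · intro h; exact Or.inr h
      · rintro (h | h)
        · exact absurd h (Fin.castSucc_lt_last i).ne
        · exact h
  rw [h1, sum_insert last_notMem_upm, hc _ (mem_insert_self _ _), mul_zero, zero_add]
  rw [upm, sum_map]
  refine sum_congr rfl (fun v _ => ?_)
  have : (Fin.castSuccEmb v : Fin (n + 1)) = v.castSucc := rfl
  rw [this]
  have h2 := sg_castSucc (𝕜 := 𝕜) v ρ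
  have h3 := upm_insert v ρ
  rw [upm] at h2 h3
  simp only [upm] at h3 ⊢
  rw [h2, h3]

lemma acyclicU_upm {𝕜 : Type*} [CommRing 𝕜] {K : Finset (Finset (Fin n))}
    {K' : Finset (Finset (Fin (n + 1)))} (hK : ∀ ρ, ρ ∈ K' ↔ Fin.last n ∉ ρ ∧ restr ρ ∈ K)
    (h : AcyclicU 𝕜 K) : AcyclicU 𝕜 K' := by
  intro c hc hb
  have hc0 : ∀ ρ, Fin.last n ∈ ρ → c ρ = 0 := by
    intro ρ hρ
    by_contra hne
    exact ((hK ρ).1 (hc ρ hne)).1 hρ
  obtain ⟨b, hb1, hb2⟩ := h (fun σ => c (upm σ)) (by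
    intro σ hσ
    have := ((hK _).1 (hc _ hσ)).2
    rwa [restr_upm] at this) (by
    funext ρ
    rw [← boundary_upm hc0, hb]; rfl)
  set b' : Finset (Fin (n + 1)) → 𝕜 := fun ρ => if Fin.last n ∈ ρ then 0 else b (restr ρ) with hb'
  have hb0 : ∀ ρ, Fin.last n ∈ ρ → b' ρ = 0 := by
    intro ρ hρ
    simp [hb', hρ]
  have hbu : (fun σ => b' (upm σ)) = b := by
    funext σ
    simp only [hb', last_notMem_upm, if_false, restr_upm]
  refine ⟨b', ?_, ?_⟩
  · intro ρ hρ
    rw [hK]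
    by_cases hl : Fin.last n ∈ ρ
    · exact absurd (hb0 ρ hl) hρ
    · refine ⟨hl, ?_⟩
      simp only [hb', hl, if_false] at hρ
      exact hb1 _ hρ
  · funext ρ
    by_cases hl : Fin.last n ∈ ρ
    · rw [hc0 ρ hl, boundary_apply]
      refine sum_eq_zero (fun v _ => ?_)
      rw [hb0 _ (mem_insert_of_mem hl), mul_zero]
    · rw [← upm_restr hl, boundary_upm hb0, hbu, hb2]

lemma kFoldU_coneC {𝕜 : Type*} [CommRing 𝕜] {Δ : Finset (Finset (Fin n))} {k : ℕ}
    (h : KFoldU 𝕜 k Δ) : KFoldU 𝕜 (k + 1) (coneC Δ) := by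
  intro σ hσ hc
  by_cases hl : Fin.last n ∈ σ
  · have h1 := card_restr_of_mem hl
    refine acyclicU_upm (K := link Δ (restr σ)) ?_ (h (restr σ) (mem_coneC.1 hσ) (by omega))
    intro ρ
    have hr : restr (ρ ∪ σ) = restr ρ ∪ restr σ := by
      ext i; rw [mem_restr, mem_union, mem_union, mem_restr, mem_restr]
    have hi : restr (ρ ∩ σ) = restr ρ ∩ restr σ := by
      ext i; rw [mem_restr, mem_inter, mem_inter, mem_restr, mem_restr]
    unfold link
    rw [mem_filter, mem_filter, mem_coneC, mem_coneC, hr, ← hi]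
    constructor
    · rintro ⟨h2, h3, h4⟩
      refine ⟨?_, h2, h3, ?_⟩
      · intro hlρ
        have : Fin.last n ∈ ρ ∩ σ := mem_inter.2 ⟨hlρ, hl⟩
        rw [h4] at this
        exact absurd this (notMem_empty _)
      · rw [h4]; ext i; rw [mem_restr]; simp
    · rintro ⟨h2, h3, h4, h5⟩
      refine ⟨h3, h4, ?_⟩
      have h6 : Fin.last n ∉ ρ ∩ σ := fun hh => h2 (mem_inter.1 hh).1
      rw [← upm_restr h6, h5]
      rfl
  · refine acyclicU_cone (Fin.last n) ?_
    intro ρ hρ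
    unfold link at hρ ⊢
    rw [mem_filter, mem_coneC, mem_coneC] at hρ ⊢
    obtain ⟨h2, h3, h4⟩ := hρ
    rw [insert_union, restr_insert_last, restr_insert_last]
    refine ⟨h2, h3, ?_⟩
    rw [insert_inter_of_notMem hl]; exact h4

lemma homEmb_coneC {Δ : Finset (Finset (Fin n))} {d : ℕ} (h : HomEmb d Δ) :
    HomEmb (d + 1) (coneC Δ) := by
  obtain ⟨F, h1, h2, h3⟩ := h
  have hm : ∀ x : Fin (n + 1) → ℝ, x ∈ coneSet (coneC Δ) →
      (fun i : Fin n => x i.castSucc) ∈ coneSet Δ := by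
    intro x hx
    refine ⟨fun i => hx.1 _, ?_⟩
    have := mem_coneC.1 hx.2
    have e : restr (supp x) = supp (fun i : Fin n => x i.castSucc) := by
      ext i; rw [mem_restr, mem_supp, mem_supp]
    rw [← e]; exact this
  refine ⟨fun x => Fin.snoc (α := fun _ => ℝ) (F (fun i : Fin n => x i.castSucc)) (x (Fin.last n)),
    ?_, ?_, ?_⟩
  · apply continuous_pi
    intro j
    induction j using Fin.lastCases with
    | last => simp only [Fin.snoc_last]; exact continuous_apply _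
    | cast j =>
      simp only [Fin.snoc_castSucc]
      refine (continuous_apply j).comp (h1.comp ?_)
      exact continuous_pi (fun i => continuous_apply _)
  · intro x hx
    rw [Fin.sum_univ_castSucc, Fin.sum_univ_castSucc (n := n)]
    simp only [Fin.snoc_last, Fin.snoc_castSucc]
    rw [h2 _ (hm x hx)]
  · intro x hx y hy hxy
    simp only at hxy
    have e1 : F (fun i : Fin n => x i.castSucc) = F (fun i : Fin n => y i.castSucc) := by
      funext j
      have := congrFun hxy j.castSucc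
      simpa only [Fin.snoc_castSucc] using this
    have e2 : x (Fin.last n) = y (Fin.last n) := by
      have := congrFun hxy (Fin.last (d + 1))
      simpa only [Fin.snoc_last] using this
    have e3 := h3 (hm x hx) (hm y hy) e1
    funext i
    induction i using Fin.lastCases with
    | last => exact e2
    | cast i => exact congrFun e3 i

end Pool.Agent.Lib.MP_c23581_co
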