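import Mathlib

/-!
# Simplicial complexes, `k`-fold acyclicity, Boolean interval decompositions

The definitions of the problem file MP_c23581_co. A simplicial complex on the vertex set
`Fin n` is a finite family of finsets (the faces, including the empty face).
-/

set_option autoImplicit false

namespace Pool.Agent.Lib.MP_c23581_co

open Finset

/-- A simplicial complex on `[n]`: a finite family of subsets, closed under taking subsets and
containing the empty face. -/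
structure IsComplex {n : ℕ} (Δ : Finset (Finset (Fin n))) : Prop where
  empty_mem : ∅ ∈ Δ
  down : ∀ τ ∈ Δ, ∀ σ, σ ⊆ τ → σ ∈ Δ

/-- `Δ` has dimension `d`: the largest faces have `d + 1` vertices. -/
def HasDim {n : ℕ} (Δ : Finset (Finset (Fin n))) (d : ℕ) : Prop :=
  (∃ σ ∈ Δ, σ.card = d + 1) ∧ ∀ σ ∈ Δ, σ.card ≤ d + 1

/-- The link of a face: `{τ ∈ Δ : τ ∪ σ ∈ Δ, τ ∩ σ = ∅}`. -/
def link {n : ℕ} (Δ : Finset (Finset (Fin n))) (σ : Finset (Fin n)) : Finset (Finset (Fin n)) :=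
  Δ.filter fun τ => τ ∪ σ ∈ Δ ∧ τ ∩ σ = ∅

/-- The simplicial boundary map (augmented: the boundary of a vertex is the empty face), with the
usual signs coming from the order of the vertices. A chain is a function from subsets of the vertex
set to the coefficients. -/
def boundary {𝕜 : Type*} [CommRing 𝕜] {n : ℕ} (c : Finset (Fin n) → 𝕜) : Finset (Fin n) → 𝕜 :=
  fun ρ => ∑ v ∈ ρᶜ, (-1) ^ (ρ.filter (· < v)).card * c (insert v ρ)

/-- `c` is a chain of `Δ` of faces with `m` vertices, i.e. an `(m - 1)`-chain. -/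
def IsChainOf {𝕜 : Type*} [CommRing 𝕜] {n : ℕ} (Δ : Finset (Finset (Fin n))) (m : ℕ)
    (c : Finset (Fin n) → 𝕜) : Prop :=
  ∀ σ, c σ ≠ 0 → σ ∈ Δ ∧ σ.card = m

/-- `Δ` is acyclic over `𝕜`: every cycle of faces with `m` vertices is a boundary, i.e. the reduced
homology groups `H̃_{m-1}(Δ; 𝕜)` vanish for all `m ≥ 0`. -/
def Acyclic (𝕜 : Type*) [CommRing 𝕜] {n : ℕ} (Δ : Finset (Finset (Fin n))) : Prop :=
  ∀ (m : ℕ) (c : Finset (Fin n) → 𝕜), IsChainOf Δ m c → boundary c = 0 →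
    ∃ b : Finset (Fin n) → 𝕜, IsChainOf Δ (m + 1) b ∧ boundary b = c

/-- `Δ` is `k`-fold acyclic over `𝕜`: all links of faces with fewer than `k` vertices are
acyclic. -/
def KFoldAcyclic (𝕜 : Type*) [CommRing 𝕜] {n : ℕ} (k : ℕ) (Δ : Finset (Finset (Fin n))) : Prop :=
  ∀ σ ∈ Δ, σ.card < k → Acyclic 𝕜 (link Δ σ)

/-- The face poset of `Δ` is a disjoint union of rank `k` Boolean intervals
`[I.1, I.2] = {ρ : I.1 ⊆ ρ ⊆ I.2}` (so `I.2` has exactly `k` more vertices than `I.1`) whose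
minimal elements form a subcomplex. -/
def HasStanleyDecomposition {n : ℕ} (k : ℕ) (Δ : Finset (Finset (Fin n))) : Prop :=
  ∃ P : Finset (Finset (Fin n) × Finset (Fin n)),
    (∀ I ∈ P, I.1 ⊆ I.2 ∧ I.2 ∈ Δ ∧ I.1.card + k = I.2.card) ∧
    (∀ ρ ∈ Δ, ∃! I, I ∈ P ∧ I.1 ⊆ ρ ∧ ρ ⊆ I.2) ∧
    (∀ I ∈ P, ∀ ρ, ρ ⊆ I.1 → ∃ J ∈ P, J.1 = ρ)

/-- The face poset of `Δ` is a disjoint union of Boolean intervals of rank at least `k`; no condition
on the minimal elements. -/
def HasIntervalPartition {n : ℕ} (k : ℕ) (Δ : Finset (Finset (Fin n))) : Prop :=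
  ∃ P : Finset (Finset (Fin n) × Finset (Fin n)),
    (∀ I ∈ P, I.1 ⊆ I.2 ∧ I.2 ∈ Δ ∧ I.1.card + k ≤ I.2.card) ∧
    (∀ ρ ∈ Δ, ∃! I, I ∈ P ∧ I.1 ⊆ ρ ∧ ρ ⊆ I.2)

/-- The geometric realization of `Δ`, as a subspace of `ℝ^n`: the points with barycentric
coordinates `x` whose support is a face. -/
def realization {n : ℕ} (Δ : Finset (Finset (Fin n))) : Set (Fin n → ℝ) :=
  {x | (∀ i, 0 ≤ x i) ∧ ∑ i, x i = 1 ∧ (univ.filter fun i => x i ≠ 0) ∈ Δ}

/-- The geometric realization of `Δ` admits a topological embedding into `ℝ^d`. -/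
def EmbedsInEuclidean {n : ℕ} (d : ℕ) (Δ : Finset (Finset (Fin n))) : Prop :=
  ∃ f : realization Δ → EuclideanSpace ℝ (Fin d), Topology.IsEmbedding f

end Pool.Agent.Lib.MP_c23581_co
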