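import Pool.Agent.Lib.MP_c23581_co.Acyc

/-!
# Embeddings into Euclidean space by elementary moves
-/

set_option autoImplicit false

namespace Pool.Agent.Lib.MP_c23581_co

open Finset

/-- support of a point -/
noncomputable def supp {n : ℕ} (x : Fin n → ℝ) : Finset (Fin n) := univ.filter (fun i => x i ≠ 0)

lemma mem_supp {n : ℕ} {x : Fin n → ℝ} {i : Fin n} : i ∈ supp x ↔ x i ≠ 0 := by simp [supp]

/-- the cone over the geometric realization -/
def coneSet {n : ℕ} (Δ : Finset (Finset (Fin n))) : Set (Fin n → ℝ) :=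
  {x | (∀ i, 0 ≤ x i) ∧ supp x ∈ Δ}

lemma mem_coneSet {n : ℕ} {Δ : Finset (Finset (Fin n))} {x : Fin n → ℝ} :
    x ∈ coneSet Δ ↔ (∀ i, 0 ≤ x i) ∧ supp x ∈ Δ := Iff.rfl

/-- mass preserving embedding of the cone over the geometric realization -/
def HomEmb {n : ℕ} (d : ℕ) (Δ : Finset (Finset (Fin n))) : Prop :=
  ∃ F : (Fin n → ℝ) → (Fin (d + 1) → ℝ), Continuous F ∧
    (∀ x ∈ coneSet Δ, ∑ i, F x i = ∑ i, x i) ∧ Set.InjOn F (coneSet Δ)

lemma homEmb_mono {n d : ℕ} {Δ Δ' : Finset (Finset (Fin n))} (h : ∀ ρ ∈ Δ, ρ ∈ Δ')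
    (h' : HomEmb d Δ') : HomEmb d Δ := by
  obtain ⟨F, h1, h2, h3⟩ := h'
  have hs : coneSet Δ ⊆ coneSet Δ' := fun x hx => ⟨hx.1, h _ hx.2⟩
  exact ⟨F, h1, fun x hx => h2 x (hs hx), h3.mono hs⟩

/-- the elementary move -/
lemma homEmb_move {n d : ℕ} {Δ Δ' : Finset (Finset (Fin n))} {s t : Finset (Fin n)}
    (hs : s.Nonempty) (ht : t.Nonempty) (hst : Disjoint s t)
    (hΔ' : ∀ τ ∈ Δ', ∀ σ, σ ⊆ τ → σ ∈ Δ')
    (h1 : ∀ ρ ∈ Δ, ¬ t ⊆ ρ)
    (h2 : ∀ ρ ∈ Δ, ¬ s ⊆ ρ → ρ ∈ Δ')
    (h3 : ∀ ρ ∈ Δ, s ⊆ ρ → ∀ v ∈ s, ρ.erase v ∪ t ∈ Δ')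
    (h : HomEmb d Δ') : HomEmb d Δ := by
  obtain ⟨F, hF1, hF2, hF3⟩ := h
  set m : (Fin n → ℝ) → ℝ := fun x => s.inf' hs x with hm
  set c : ℝ := (s.card : ℝ) / t.card with hc
  have htc : (0 : ℝ) < t.card := by exact_mod_cast ht.card_pos
  have hsc : (0 : ℝ) < s.card := by exact_mod_cast hs.card_pos
  have hc0 : 0 < c := div_pos hsc htc
  have hcc : (t.card : ℝ) * c = s.card := by rw [hc]; field_simp
  set Φ : (Fin n → ℝ) → (Fin n → ℝ) := fun x i =>
    x i - (if i ∈ s then m x else 0) + (if i ∈ t then m x * c else 0) with hΦ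
  have hmcont : Continuous m := by
    apply Continuous.finset_inf'_apply
    intro i _
    exact continuous_apply i
  have hΦcont : Continuous Φ := by
    apply continuous_pi
    intro i
    simp only [hΦ]
    apply Continuous.add
    · apply (continuous_apply i).sub
      split_ifs
      · exact hmcont
      · exact continuous_const
    · split_ifs
      · exact hmcont.mul continuous_const
      · exact continuous_const
  have hm_le : ∀ x : Fin n → ℝ, ∀ i ∈ s, m x ≤ x i := fun x i hi => Finset.inf'_le _ hi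
  have hm0 : ∀ x ∈ coneSet Δ, 0 ≤ m x := by
    intro x hx
    rw [hm]
    simp only
    rw [Finset.le_inf'_iff]
    intro i _
    exact hx.1 i
  have hnts : ∀ i, i ∈ t → i ∉ s := fun i hi hi' => (Finset.disjoint_left.1 hst) hi' hi
  have hnst : ∀ i, i ∈ s → i ∉ t := fun i hi hi' => (Finset.disjoint_left.1 hst) hi hi'
  have hΦt : ∀ x : Fin n → ℝ, ∀ i ∈ t, Φ x i = x i + m x * c := by
    intro x i hi
    simp only [hΦ, if_pos hi, if_neg (hnts i hi)]
    ring
  have hΦs : ∀ x : Fin n → ℝ, ∀ i ∈ s, Φ x i = x i - m x := by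
    intro x i hi
    simp only [hΦ, if_pos hi, if_neg (hnst i hi)]
    ring
  have hΦn : ∀ x : Fin n → ℝ, ∀ i, i ∉ s → i ∉ t → Φ x i = x i := by
    intro x i hi hi'
    simp only [hΦ, if_neg hi, if_neg hi']
    ring
  have hΦ0 : ∀ x : Fin n → ℝ, m x = 0 → Φ x = x := by
    intro x hx
    funext i
    simp [hΦ, hx]
  -- recover the minimum
  have hrec : ∀ x ∈ coneSet Δ, t.inf' ht (Φ x) = m x * c := by
    intro x hx
    apply le_antisymm
    · have := h1 _ hx.2
      rw [Finset.not_subset] at this
      obtain ⟨i, hi, hi'⟩ := this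
      rw [mem_supp, not_not] at hi'
      refine (Finset.inf'_le _ hi).trans ?_
      rw [hΦt x i hi, hi', zero_add]
    · rw [Finset.le_inf'_iff]
      intro i hi
      rw [hΦt x i hi]
      have := hx.1 i
      linarith
  have hinj : Set.InjOn Φ (coneSet Δ) := by
    intro x hx y hy hxy
    have e1 := hrec x hx
    have e2 := hrec y hy
    rw [hxy, e2] at e1
    have e3 : m x = m y := (mul_right_cancel₀ hc0.ne' e1).symm
    funext i
    have := congrFun hxy i
    simp only [hΦ, e3] at this
    linarith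
  have hmaps : ∀ x ∈ coneSet Δ, Φ x ∈ coneSet Δ' := by
    intro x hx
    have hmx := hm0 x hx
    refine ⟨?_, ?_⟩
    · intro i
      by_cases hi : i ∈ s
      · rw [hΦs x i hi]; have := hm_le x i hi; linarith
      · by_cases hi' : i ∈ t
        · rw [hΦt x i hi']
          have := hx.1 i
          have := mul_nonneg hmx hc0.le
          linarith
        · rw [hΦn x i hi hi']; exact hx.1 i
    · by_cases hsub : s ⊆ supp x
      · obtain ⟨v, hv, hv'⟩ := Finset.exists_mem_eq_inf' hs x
        refine hΔ' _ (h3 _ hx.2 hsub v hv) _ ?_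
        intro i hi
        rw [mem_supp] at hi
        rw [mem_union, mem_erase, mem_supp]
        by_cases hit : i ∈ t
        · exact Or.inr hit
        · left
          constructor
          · rintro rfl
            apply hi
            rw [hΦs x i hv]
            have : m x = x i := hv'
            rw [this, sub_self]
          · intro hxi
            apply hi
            by_cases his : i ∈ s
            · rw [hΦs x i his]
              have := hm_le x i his
              linarith
            · rw [hΦn x i his hit]; exact hxi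
      · have : Φ x = x := by
          apply hΦ0
          rw [Finset.not_subset] at hsub
          obtain ⟨i, hi, hi'⟩ := hsub
          rw [mem_supp, not_not] at hi'
          have := hm_le x i hi
          linarith
        rw [this]
        exact h2 _ hx.2 hsub
  refine ⟨F ∘ Φ, hF1.comp hΦcont, ?_, ?_⟩
  · intro x hx
    have := hF2 _ (hmaps x hx)
    simp only [Function.comp]
    rw [this]
    simp only [hΦ, sum_add_distrib, sum_sub_distrib]
    rw [← sum_filter, ← sum_filter]
    simp only [sum_const, nsmul_eq_mul, filter_mem_eq_inter, univ_inter]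
    rw [← hcc]
    ring
  · exact hF3.comp hinj (fun x hx => hmaps x hx)

/-- the mask of a list of vertices -/
def mk (l : List ℕ) : ℕ :=
  List.rec (motive := fun _ => ℕ) 0 (fun a _ ih => Nat.lor (Nat.pow 2 a) ih) l

lemma mk_cons (a : ℕ) (l : List ℕ) : mk (a :: l) = 2 ^ a ||| mk l := rfl

lemma testBit_mk {l : List ℕ} {i : ℕ} : (mk l).testBit i = true ↔ i ∈ l := by
  induction l with
  | nil => simp [mk]
  | cons a l ih =>
    rw [mk_cons, Nat.testBit_or, Bool.or_eq_true, ih, Nat.testBit_two_pow, decide_eq_true_eq,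
      List.mem_cons, eq_comm]

/-- a move: `s` is replaced by `t`; `vs` are the vertices of `s` -/
inductive Mv where
  /-- constructor -/
  | mk (s t : ℕ) (vs : List ℕ)

/-- a conjunction which is evaluated lazily -/
def andR (a b : Bool) : Bool := Bool.rec false b a

lemma andR_true {a b : Bool} (h : andR a b = true) : a = true ∧ b = true := by
  cases a
  · simp [andR] at h
  · exact ⟨rfl, h⟩

/-- conditions for a move -/
def stepOK (N s t : ℕ) (vs : List ℕ) (L : List ℕ) : Bool :=
  andR (Nat.ble (Nat.succ t) N) (andR (Nat.ble (Nat.succ s) N) (andR (Nat.ble 1 t) (andR (Nat.ble 1 s)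
    (andR (Nat.beq (Nat.land s t) 0) (andR (Nat.beq s (mk vs))
      (allR (fun F => Bool.rec (Bool.rec true (sub F (Nat.lor s t)) (sub s F)) false (sub t F)) L))))))

/-- the result of the move -/
def stepL (s t : ℕ) (vs : List ℕ) (L : List ℕ) : List ℕ :=
  appR (mapR (fun v => Nat.lor (clr (Nat.pow 2 v) s) t) vs)
    (filterR (fun F => Bool.rec true false (sub s F)) L)

lemma homEmb_step {n d N s t : ℕ} {vs L : List ℕ} (hN : N = 2 ^ n) (h : stepOK N s t vs L = true)
    (h' : HomEmb d (cx n (stepL s t vs L))) : HomEmb d (cx n L) := by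
  subst hN
  obtain ⟨a1, h⟩ := andR_true h
  obtain ⟨a2, h⟩ := andR_true h
  obtain ⟨a3, h⟩ := andR_true h
  obtain ⟨a4, h⟩ := andR_true h
  obtain ⟨a5, h⟩ := andR_true h
  obtain ⟨a6, h⟩ := andR_true h
  rw [allR_iff] at h
  have ht : t < 2 ^ n := Nat.le_of_ble_eq_true a1
  have hs : s < 2 ^ n := Nat.le_of_ble_eq_true a2
  have ht0 : 1 ≤ t := Nat.le_of_ble_eq_true a3
  have hs0 : 1 ≤ s := Nat.le_of_ble_eq_true a4
  have hst : s &&& t = 0 := Nat.eq_of_beq_eq_true a5
  have hvs : s = mk vs := Nat.eq_of_beq_eq_true a6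
  have hF1 : ∀ F ∈ L, sub t F = false := by
    intro F hF
    have := h F hF
    cases hx : sub t F
    · rfl
    · rw [hx] at this; exact absurd this (by simp)
  have hF2 : ∀ F ∈ L, sub s F = true → sub F (s ||| t) = true := by
    intro F hF hx
    have := h F hF
    rw [hF1 F hF, hx] at this
    exact this
  have hmemL : ∀ G, G ∈ stepL s t vs L ↔ (∃ v ∈ vs, clr (2 ^ v) s ||| t = G) ∨
      (G ∈ L ∧ sub s G = false) := by
    intro G
    rw [stepL, appR_eq, List.mem_append, mapR_eq, List.mem_map, filterR_eq, List.mem_filter]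
    apply or_congr Iff.rfl
    apply and_congr Iff.rfl
    cases sub s G <;> simp
  have hnew : ∀ v ∈ dec n s, ((dec n s).erase v) ∪ dec n t ∈ cx n (stepL s t vs L) := by
    intro v hv
    rw [mem_cx]
    refine ⟨clr (2 ^ (v : ℕ)) s ||| t, ?_, ?_⟩
    · rw [hmemL]
      left
      refine ⟨v, ?_, rfl⟩
      rw [mem_dec, hvs, testBit_mk] at hv
      exact hv
    · rw [dec_or, dec_clr]
  have hnonempty : ∀ m, 1 ≤ m → m < 2 ^ n → (dec n m).Nonempty := by
    intro m hm hm'
    rw [nonempty_iff_ne_empty]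
    intro he
    rw [← dec_zero (n := n)] at he
    have := dec_inj hm' (by positivity) he
    omega
  refine homEmb_move (s := dec n s) (t := dec n t) (hnonempty s hs0 hs) (hnonempty t ht0 ht) ?_
    (fun τ hτ σ hσ => cx_down hτ hσ) ?_ ?_ ?_ h'
  · rw [disjoint_iff_inter_eq_empty, ← dec_and, hst, dec_zero]
  · intro ρ hρ hsub
    rw [mem_cx] at hρ
    obtain ⟨F, hF, hρ⟩ := hρ
    have := sub_of_dec_subset ht (hsub.trans hρ)
    rw [hF1 F hF] at this
    exact absurd this (by simp)
  · intro ρ hρ hsub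
    rw [mem_cx] at hρ
    obtain ⟨F, hF, hρ⟩ := hρ
    cases hx : sub s F
    · rw [mem_cx]
      exact ⟨F, (hmemL F).2 (Or.inr ⟨hF, hx⟩), hρ⟩
    · have h5 := dec_subset_of_sub (n := n) (hF2 F hF hx)
      rw [Finset.not_subset] at hsub
      obtain ⟨v, hv, hv'⟩ := hsub
      refine cx_down (hnew v hv) ?_
      intro i hi
      have h6 := h5 (hρ hi)
      rw [dec_or, mem_union] at h6
      rw [mem_union, mem_erase]
      rcases h6 with h6 | h6
      · left; exact ⟨fun e => hv' (e ▸ hi), h6⟩
      · right; exact h6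
  · intro ρ hρ hsub v hv
    rw [mem_cx] at hρ
    obtain ⟨F, hF, hρ⟩ := hρ
    have hx := sub_of_dec_subset hs (hsub.trans hρ)
    have h5 := dec_subset_of_sub (n := n) (hF2 F hF hx)
    refine cx_down (hnew v hv) ?_
    intro i hi
    rw [mem_union, mem_erase] at hi
    rw [mem_union, mem_erase]
    rcases hi with hi | hi
    · have h6 := h5 (hρ hi.2)
      rw [dec_or, mem_union] at h6
      rcases h6 with h6 | h6
      · left; exact ⟨hi.1, h6⟩
      · right; exact h6
    · right; exact hi

/-- run a sequence of moves, the final list must consist of subsets of `W` -/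
noncomputable def runMv (N W : ℕ) (ms : List Mv) : List ℕ → Bool :=
  List.rec (motive := fun _ => List ℕ → Bool) (fun L => allR (fun F => sub F W) L)
    (fun m _ ih L => Mv.rec (motive := fun _ => Bool)
      (fun s t vs => andR (stepOK N s t vs L) (ih (stepL s t vs L))) m) ms

lemma homEmb_runMv {n d N W : ℕ} (hN : N = 2 ^ n) (hW : HomEmb d (cx n [W])) (ms : List Mv) :
    ∀ L : List ℕ, runMv N W ms L = true → HomEmb d (cx n L) := by
  induction ms with
  | nil =>
    intro L h
    have h' : allR (fun F => sub F W) L = true := h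
    rw [allR_iff] at h'
    refine homEmb_mono ?_ hW
    intro ρ hρ
    rw [mem_cx] at hρ ⊢
    obtain ⟨F, hF, hρ⟩ := hρ
    exact ⟨W, by simp, hρ.trans (dec_subset_of_sub (h' F hF))⟩
  | cons m ms ih =>
    intro L h
    obtain ⟨s, t, vs⟩ := m
    have h' : andR (stepOK N s t vs L) (runMv N W ms (stepL s t vs L)) = true := h
    obtain ⟨h1, h2⟩ := andR_true h'
    exact homEmb_step hN h1 (ih _ h2)

/-- a simplex -/
lemma homEmb_simplex {n d W : ℕ} (hd : (dec n W).card = d + 1) : HomEmb d (cx n [W]) := by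
  classical
  let e := (dec n W).orderIsoOfFin hd
  refine ⟨fun x j => x (e j), ?_, ?_, ?_⟩
  · apply continuous_pi
    intro j
    exact continuous_apply _
  · intro x hx
    have hsub : supp x ⊆ dec n W := by
      have := hx.2
      rw [mem_cx] at this
      obtain ⟨F, hF, h⟩ := this
      rw [List.mem_singleton] at hF
      rw [← hF]; exact h
    calc ∑ j, x (e j) = ∑ i : dec n W, x i := by
          exact Equiv.sum_comp e.toEquiv (fun i : dec n W => x i)
      _ = ∑ i ∈ dec n W, x i := by
          rw [Finset.sum_coe_sort (dec n W) (fun i => x i)]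
      _ = ∑ i, x i := by
          apply Finset.sum_subset (subset_univ _)
          intro i _ hi
          by_contra h
          exact hi (hsub (mem_supp.2 h))
  · intro x hx y hy hxy
    have hsub : ∀ z ∈ coneSet (cx n [W]), supp z ⊆ dec n W := by
      intro z hz
      have := hz.2
      rw [mem_cx] at this
      obtain ⟨F, hF, h⟩ := this
      rw [List.mem_singleton] at hF
      rw [← hF]; exact h
    funext i
    by_cases hi : i ∈ dec n W
    · have := congrFun hxy (e.symm ⟨i, hi⟩)
      simpa using this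
    · have h1 : x i = 0 := by
        by_contra h
        exact hi (hsub x hx (mem_supp.2 h))
      have h2 : y i = 0 := by
        by_contra h
        exact hi (hsub y hy (mem_supp.2 h))
      rw [h1, h2]

/-- from the cone to the realization -/
lemma embeds_of_homEmb {n d : ℕ} {Δ : Finset (Finset (Fin n))}
    (hΔ : ∀ τ ∈ Δ, ∀ σ, σ ⊆ τ → σ ∈ Δ) (h : HomEmb d Δ) : EmbedsInEuclidean d Δ := by
  obtain ⟨F, h1, h2, h3⟩ := h
  have hreal : ∀ x, x ∈ realization Δ → x ∈ coneSet Δ := by
    intro x hx
    exact ⟨hx.1, hx.2.2⟩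
  -- compactness
  have hclosed : IsClosed (realization Δ) := by
    have e : realization Δ = ⋃ ρ ∈ Δ, {x : Fin n → ℝ | (∀ i, 0 ≤ x i) ∧ ∑ i, x i = 1 ∧
        ∀ i, i ∉ ρ → x i = 0} := by
      ext x
      simp only [Set.mem_iUnion, Set.mem_ofPred_eq, exists_prop, realization]
      constructor
      · rintro ⟨a, b, c⟩
        refine ⟨_, c, a, b, ?_⟩
        intro i hi
        by_contra h
        apply hi
        simp [h]
      · rintro ⟨ρ, hρ, a, b, c⟩
        refine ⟨a, b, hΔ _ hρ _ ?_⟩
        intro i hi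
        simp only [mem_filter, mem_univ, true_and] at hi
        by_contra h
        exact hi (c i h)
    rw [e]
    apply Set.Finite.isClosed_biUnion (Finset.finite_toSet Δ)
    intro ρ _
    have e2 : {x : Fin n → ℝ | (∀ i, 0 ≤ x i) ∧ ∑ i, x i = 1 ∧ ∀ i, i ∉ ρ → x i = 0} =
        (⋂ i, {x : Fin n → ℝ | 0 ≤ x i}) ∩ ({x : Fin n → ℝ | ∑ i, x i = 1} ∩
          ⋂ i, ⋂ (_ : i ∉ ρ), {x : Fin n → ℝ | x i = 0}) := by
      ext x
      simp only [Set.mem_ofPred_eq, Set.mem_inter_iff, Set.mem_iInter]
    rw [e2]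
    refine IsClosed.inter ?_ (IsClosed.inter ?_ ?_)
    · exact isClosed_iInter (fun i => isClosed_le continuous_const (continuous_apply i))
    · exact isClosed_eq (continuous_finsetSum _ (fun i _ => continuous_apply i)) continuous_const
    · exact isClosed_iInter (fun i => isClosed_iInter (fun _ =>
        isClosed_eq (continuous_apply i) continuous_const))
  have hbdd : Bornology.IsBounded (realization Δ) := by
    rw [isBounded_iff_forall_norm_le]
    refine ⟨1, fun x hx => ?_⟩
    rw [pi_norm_le_iff_of_nonneg (by norm_num)]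
    intro i
    rw [Real.norm_eq_abs, abs_of_nonneg (hx.1 i), ← hx.2.1]
    exact Finset.single_le_sum (fun j _ => hx.1 j) (mem_univ i)
  have hcpt : IsCompact (realization Δ) := Metric.isCompact_of_isClosed_isBounded hclosed hbdd
  have : CompactSpace (realization Δ) := isCompact_iff_compactSpace.1 hcpt
  let g : realization Δ → EuclideanSpace ℝ (Fin d) := fun x =>
    WithLp.toLp 2 (fun j : Fin d => F x.1 j.castSucc)
  refine ⟨g, ?_⟩
  have hg : Continuous g := by
    apply (PiLp.continuous_toLp 2 _).comp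
    apply continuous_pi
    intro j
    exact (continuous_apply _).comp (h1.comp continuous_subtype_val)
  have hinj : Function.Injective g := by
    intro x y hxy
    have h4 : ∀ j : Fin d, F x.1 j.castSucc = F y.1 j.castSucc := by
      intro j
      have := congrArg (fun z : EuclideanSpace ℝ (Fin d) => z j) hxy
      exact this
    have h5 : ∑ i, F x.1 i = ∑ i, F y.1 i := by
      rw [h2 _ (hreal _ x.2), h2 _ (hreal _ y.2), x.2.2.1, y.2.2.1]
    rw [Fin.sum_univ_castSucc, Fin.sum_univ_castSucc, Finset.sum_congr rfl (fun j _ => h4 j)] at h5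
    have h6 : F x.1 (Fin.last d) = F y.1 (Fin.last d) := by linarith
    apply Subtype.ext
    apply h3 (hreal _ x.2) (hreal _ y.2)
    funext i
    refine Fin.lastCases h6 (fun j => h4 j) i
  exact (hg.isClosedEmbedding hinj).isEmbedding

end Pool.Agent.Lib.MP_c23581_co
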