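import Pool.Agent.Lib.MP_c23581_co.Blocks
import Pool.Agent.Lib.MP_c23581_co.Cone
import Pool.Agent.Lib.MP_c23581_co.CheckD
import Pool.Agent.Lib.MP_c23581_co.CheckL
import Pool.Agent.Lib.MP_c23581_co.CheckM

/-!
# The counterexamples in all dimensions
-/

set_option autoImplicit false

namespace Pool.Agent.Lib.MP_c23581_co

open Finset

/-- the vertices of the tetrahedra outside the blocks -/
def fillL : List (List ℕ) :=
  [[2, 7, 10, 26], [2, 3, 10, 26], [3, 10, 11, 26], [12, 15, 28, 45], [12, 13, 28, 45],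
   [13, 18, 28, 45], [19, 22, 47, 52], [19, 20, 47, 52], [20, 25, 47, 52], [31, 34, 54, 57],
   [31, 32, 54, 57], [32, 37, 54, 57], [9, 10, 17, 26], [8, 9, 10, 17], [7, 10, 17, 26],
   [9, 10, 11, 26], [9, 15, 17, 26], [16, 17, 24, 27], [8, 16, 17, 24], [7, 17, 24, 27],
   [16, 17, 18, 27], [16, 22, 24, 27], [27, 28, 30, 45], [11, 27, 28, 30], [15, 28, 30, 45],
   [18, 27, 28, 45], [22, 27, 30, 45], [29, 30, 36, 46], [11, 29, 30, 36], [15, 30, 36, 46],
   [25, 29, 30, 46], [29, 34, 36, 46], [35, 36, 43, 48], [11, 35, 36, 43], [15, 36, 43, 48],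
   [35, 36, 37, 48], [35, 41, 43, 48], [46, 47, 49, 52], [18, 46, 47, 49], [22, 47, 49, 52],
   [25, 46, 47, 52], [34, 46, 49, 52], [48, 49, 51, 53], [18, 48, 49, 51], [22, 49, 51, 53],
   [37, 48, 49, 53], [41, 48, 51, 53], [53, 54, 56, 57], [25, 53, 54, 56], [34, 54, 56, 57],
   [37, 53, 54, 57], [41, 53, 56, 57], [4, 5, 6, 60]]

lemma chkFillL : eqL fillM (mapR mk fillL) = true := by decide +kernel

lemma fillL_len : ∀ l ∈ fillL, l.length = 4 := by decide +kernel

lemma card_dec_mk_le {n : ℕ} (l : List ℕ) : (dec n (mk l)).card ≤ l.length := by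
  have e : (dec n (mk l)).map Fin.valEmbedding ⊆ l.toFinset := by
    intro a ha
    rw [mem_map] at ha
    obtain ⟨i, hi, rfl⟩ := ha
    rw [mem_dec, testBit_mk] at hi
    exact List.mem_toFinset.2 hi
  rw [← card_map Fin.valEmbedding]
  exact (card_le_card e).trans (List.toFinset_card_le l)

lemma isComplex_DD : IsComplex DD := isComplex_cx (by
  intro h
  have := congrArg List.length h
  revert this
  decide +kernel)

lemma hasDim_DD : HasDim DD 3 := by
  constructor
  · have hne : ∃ l, l ∈ RTl := ⟨[0, 1, 8, 11], by decide +kernel⟩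
    obtain ⟨l, hl⟩ := hne
    have hF : dec 12 (mk l) ∈ fam RTl := mem_fam.2 ⟨l, hl, rfl⟩
    refine ⟨(dec 12 (mk l)).map (plc 0), ?_, ?_⟩
    · rw [map_plc 0 (okF.1 l hl).2.1, DD, mem_cx]
      refine ⟨_, ?_, Subset.rfl⟩
      rw [LD_eq, mem_flatR]
      left
      refine ⟨(0 : Fin 13), mem_idx 0, ?_⟩
      rw [blkF, mapR_eq, List.mem_map]
      exact ⟨l, hl, rfl⟩
    · rw [card_map, card_of_mem_fam okF hF]
  · intro σ hσ
    rw [DD, mem_cx] at hσ
    obtain ⟨G, hG, hσ⟩ := hσ
    refine (card_le_card hσ).trans ?_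
    rw [LD_eq, mem_flatR] at hG
    rcases hG with ⟨c, _, hG⟩ | hG
    · rw [blkF, mapR_eq, List.mem_map] at hG
      obtain ⟨a, ha, rfl⟩ := hG
      refine (card_dec_mk_le _).trans ?_
      rw [mapR_eq, List.length_map, (okF.1 a ha).2.2]
    · rw [eqL_sound _ _ chkFillL, mapR_eq, List.mem_map] at hG
      obtain ⟨a, ha, rfl⟩ := hG
      refine (card_dec_mk_le _).trans ?_
      rw [fillL_len a ha]

lemma kFoldU_DD (𝕜 : Type*) [CommRing 𝕜] : KFoldU 𝕜 2 DD := by
  intro σ hσ hc
  have h : σ.card = 0 ∨ σ.card = 1 := by omega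
  rcases h with h | h
  · rw [card_eq_zero] at h
    have e : link DD σ = DD := by
      rw [h, link]
      apply filter_true_of_mem
      intro ρ hρ
      rw [union_empty, inter_empty]
      exact ⟨hρ, rfl⟩
    rw [e]
    exact chk_sound 𝕜 61 certD LD chkD
  · obtain ⟨v, rfl⟩ := card_eq_one.1 h
    have e : link DD {v} = cx 61 (lnkM (2 ^ (v : ℕ)) LD) := by
      ext ρ
      rw [mem_cx_lnkM, link, mem_filter]
      have e1 : ρ ∪ {v} = insert v ρ := by rw [union_comm]; rfl
      rw [e1]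
      constructor
      · rintro ⟨_, h2, h3⟩
        refine ⟨?_, h2⟩
        intro hv
        have : v ∈ ρ ∩ {v} := mem_inter.2 ⟨hv, mem_singleton_self v⟩
        rw [h3] at this
        exact absurd this (notMem_empty _)
      · rintro ⟨h1, h2⟩
        refine ⟨down_DD _ h2 _ (subset_insert v ρ), h2, ?_⟩
        rw [inter_singleton_of_notMem h1]
    rw [e]
    have hlen : (v : ℕ) < certL.length := by
      have : certL.length = 61 := by decide +kernel
      rw [this]; exact v.2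
    have h1 := chkLinks_sound certL 0 chkL v hlen
    rw [zero_add] at h1
    exact chk_sound 𝕜 61 _ _ h1

lemma homEmb_DD : HomEmb 3 DD := by
  have hW : HomEmb 3 (cx 61 [Wm]) := by
    apply homEmb_simplex
    have e : Wm = mk [2, 3, 42, 60] := by decide +kernel
    rw [e, card_dec_mk (by decide) (by decide)]
    rfl
  have h := homEmb_runMv (n := 61) (by norm_num) hW mvs (appR LD outR) chkM
  refine homEmb_mono ?_ h
  intro ρ hρ
  rw [DD, mem_cx] at hρ
  rw [mem_cx]
  obtain ⟨F, hF, hρ⟩ := hρ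
  exact ⟨F, by rw [appR_eq, List.mem_append]; exact Or.inl hF, hρ⟩

universe u

/-- the counterexamples, by iterated cones -/
theorem main_ind (e : ℕ) : ∃ (n : ℕ) (Δ : Finset (Finset (Fin n))), IsComplex Δ ∧
    HasDim Δ (e + 3) ∧ HomEmb (e + 3) Δ ∧
    (∀ (𝕜 : Type u) [CommRing 𝕜], KFoldU 𝕜 (e + 2) Δ) ∧ NoPart (e + 2) Δ := by
  induction e with
  | zero => exact ⟨61, DD, isComplex_DD, hasDim_DD, homEmb_DD, fun 𝕜 _ => kFoldU_DD 𝕜, noPart_DD⟩
  | succ e ih =>
    obtain ⟨n, Δ, h1, h2, h3, h4, h5⟩ := ih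
    refine ⟨n + 1, coneC Δ, isComplex_coneC h1, ?_, ?_, ?_, ?_⟩
    · have := hasDim_coneC h2
      rwa [show e + 3 + 1 = e + 1 + 3 by omega] at this
    · have := homEmb_coneC h3
      rwa [show e + 3 + 1 = e + 1 + 3 by omega] at this
    · intro 𝕜 _
      have := kFoldU_coneC (h4 𝕜)
      rwa [show e + 2 + 1 = e + 1 + 2 by omega] at this
    · have := noPart_coneC h5
      rwa [show e + 2 + 1 = e + 1 + 2 by omega] at this

end Pool.Agent.Lib.MP_c23581_co
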