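import Pool.Agent.Lib.MP_c23581_co.Defs

/-!
# Faces as bit masks

Fast (kernel friendly) representation of simplicial complexes by lists of bit masks.
-/

set_option autoImplicit false

namespace Pool.Agent.Lib.MP_c23581_co

open Finset

/-- the subset of `Fin n` with characteristic bit mask `m` -/
def dec (n m : ℕ) : Finset (Fin n) := univ.filter (fun i => m.testBit i = true)

@[simp] lemma mem_dec {n m : ℕ} {i : Fin n} : i ∈ dec n m ↔ m.testBit i = true := by
  simp [dec]

/-- bit mask inclusion -/
def sub (a b : ℕ) : Bool := Nat.beq (Nat.land a b) a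

lemma sub_iff {a b : ℕ} : sub a b = true ↔ a &&& b = a := by
  unfold sub
  rw [Nat.beq_eq]
  rfl

lemma sub_iff_testBit {a b : ℕ} :
    sub a b = true ↔ ∀ i, a.testBit i = true → b.testBit i = true := by
  rw [sub_iff]
  constructor
  · intro h i hi
    rw [← h, Nat.testBit_and, Bool.and_eq_true] at hi
    exact hi.2
  · intro h
    apply Nat.eq_of_testBit_eq
    intro i
    rw [Nat.testBit_and]
    cases ha : a.testBit i
    · simp
    · simp [h i ha]

lemma dec_subset_of_sub {n a b : ℕ} (h : sub a b = true) : dec n a ⊆ dec n b := by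
  intro i hi
  rw [mem_dec] at hi ⊢
  exact sub_iff_testBit.1 h i hi

lemma sub_of_dec_subset {n a b : ℕ} (ha : a < 2 ^ n) (h : dec n a ⊆ dec n b) :
    sub a b = true := by
  rw [sub_iff_testBit]
  intro i hi
  have hin : i < n := by
    by_contra hc
    push Not at hc
    have := Nat.testBit_lt_two_pow (lt_of_lt_of_le ha (Nat.pow_le_pow_right (by norm_num) hc))
    rw [this] at hi
    exact Bool.false_ne_true hi
  have h1 : (⟨i, hin⟩ : Fin n) ∈ dec n a := by rw [mem_dec]; exact hi
  have h2 := h h1
  rw [mem_dec] at h2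
  exact h2

lemma dec_inj {n a b : ℕ} (ha : a < 2 ^ n) (hb : b < 2 ^ n) (h : dec n a = dec n b) : a = b := by
  have h1 := sub_of_dec_subset ha h.subset
  have h2 := sub_of_dec_subset hb h.symm.subset
  rw [sub_iff] at h1 h2
  rw [← h1]; rw [Nat.land_comm] at h2; exact h2

lemma exists_mask {n : ℕ} (ρ : Finset (Fin n)) : ∃ m, m < 2 ^ n ∧ dec n m = ρ := by
  induction ρ using Finset.induction_on with
  | empty =>
    refine ⟨0, by positivity, ?_⟩
    ext i; simp
  | insert a s ha ih =>
    obtain ⟨m, hm, rfl⟩ := ih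
    refine ⟨2 ^ (a : ℕ) ||| m, Nat.or_lt_two_pow (Nat.pow_lt_pow_right (by norm_num) a.2) hm, ?_⟩
    ext i
    rw [mem_dec, Nat.testBit_or, mem_insert, mem_dec, Bool.or_eq_true, Nat.testBit_two_pow]
    simp only [decide_eq_true_eq, Fin.ext_iff]
    tauto

lemma dec_or {n a b : ℕ} : dec n (a ||| b) = dec n a ∪ dec n b := by
  ext i; simp [Nat.testBit_or]

lemma dec_and {n a b : ℕ} : dec n (a &&& b) = dec n a ∩ dec n b := by
  ext i; simp [Nat.testBit_and]

lemma dec_zero {n : ℕ} : dec n 0 = ∅ := by
  ext i; simp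

lemma dec_two_pow {n : ℕ} (v : Fin n) : dec n (2 ^ (v : ℕ)) = {v} := by
  ext i
  rw [mem_dec, Nat.testBit_two_pow, mem_singleton, decide_eq_true_eq, Fin.ext_iff]
  exact eq_comm

/-- the complex generated by a list of masks -/
def cx (n : ℕ) (L : List ℕ) : Finset (Finset (Fin n)) :=
  univ.filter (fun ρ => ∃ F ∈ L, ρ ⊆ dec n F)

lemma mem_cx {n : ℕ} {L : List ℕ} {ρ : Finset (Fin n)} :
    ρ ∈ cx n L ↔ ∃ F ∈ L, ρ ⊆ dec n F := by
  simp [cx]

lemma cx_down {n : ℕ} {L : List ℕ} {τ σ : Finset (Fin n)} (h : τ ∈ cx n L) (hs : σ ⊆ τ) :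
    σ ∈ cx n L := by
  rw [mem_cx] at h ⊢
  obtain ⟨F, hF, h⟩ := h
  exact ⟨F, hF, hs.trans h⟩

lemma isComplex_cx {n : ℕ} {L : List ℕ} (h : L ≠ []) : IsComplex (cx n L) := by
  constructor
  · rw [mem_cx]
    obtain ⟨F, hF⟩ := List.exists_mem_of_ne_nil L h
    exact ⟨F, hF, empty_subset _⟩
  · intro τ hτ σ hσ
    exact cx_down hτ hσ

/-! ### kernel friendly list functions -/

/-- `List.all`, by direct recursion -/
def allR {α : Type} (p : α → Bool) (L : List α) : Bool :=
  List.rec (motive := fun _ => Bool) true (fun a _ ih => Bool.rec false ih (p a)) L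

/-- `List.any`, by direct recursion -/
def anyR {α : Type} (p : α → Bool) (L : List α) : Bool :=
  List.rec (motive := fun _ => Bool) false (fun a _ ih => Bool.rec ih true (p a)) L

/-- `List.filter`, by direct recursion -/
def filterR {α : Type} (p : α → Bool) (L : List α) : List α :=
  List.rec (motive := fun _ => List α) [] (fun a _ ih => Bool.rec ih (a :: ih) (p a)) L

/-- `List.map`, by direct recursion -/
def mapR {α β : Type} (f : α → β) (L : List α) : List β :=
  List.rec (motive := fun _ => List β) [] (fun a _ ih => f a :: ih) L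

/-- `List.append`, by direct recursion -/
def appR {α : Type} (K L : List α) : List α :=
  List.rec (motive := fun _ => List α) L (fun a _ ih => a :: ih) K

lemma allR_iff {α : Type} {p : α → Bool} {L : List α} : allR p L = true ↔ ∀ a ∈ L, p a = true := by
  induction L with
  | nil => simp [allR]
  | cons a L ih =>
    have h : allR p (a :: L) = Bool.rec false (allR p L) (p a) := rfl
    rw [h]
    cases hp : p a
    · simp [hp]
    · simp [hp, ih]

lemma anyR_iff {α : Type} {p : α → Bool} {L : List α} : anyR p L = true ↔ ∃ a ∈ L, p a = true := by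
  induction L with
  | nil => simp [anyR]
  | cons a L ih =>
    have h : anyR p (a :: L) = Bool.rec (anyR p L) true (p a) := rfl
    rw [h]
    cases hp : p a
    · simp [hp, ih]
    · simp [hp]

lemma filterR_eq {α : Type} {p : α → Bool} {L : List α} : filterR p L = L.filter p := by
  induction L with
  | nil => rfl
  | cons a L ih =>
    have h : filterR p (a :: L) = Bool.rec (filterR p L) (a :: filterR p L) (p a) := rfl
    rw [h]
    cases hp : p a
    · simp [hp, ih]
    · simp [hp, ih]

lemma mapR_eq {α β : Type} {f : α → β} {L : List α} : mapR f L = L.map f := by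
  induction L with
  | nil => rfl
  | cons a L ih =>
    have h : mapR f (a :: L) = f a :: mapR f L := rfl
    rw [h, ih]; rfl

lemma appR_eq {α : Type} {K L : List α} : appR K L = K ++ L := by
  induction K with
  | nil => rfl
  | cons a K ih =>
    have h : appR (a :: K) L = a :: appR K L := rfl
    rw [h, ih]; rfl

end Pool.Agent.Lib.MP_c23581_co
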