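import Pool.Agent.Lib.MP_c23581_co.Flip
import Pool.Agent.Lib.MP_c23581_co.Part

/-!
# The block `R`: a triangulated 3-ball without interior vertices and without ears
-/

set_option autoImplicit false

namespace Pool.Agent.Lib.MP_c23581_co

open Finset

/-- membership in a list -/
def memR (a : ℕ) (L : List ℕ) : Bool := anyR (fun b => Nat.beq a b) L

lemma memR_iff {a : ℕ} {L : List ℕ} : memR a L = true ↔ a ∈ L := by
  unfold memR
  rw [anyR_iff]
  constructor
  · rintro ⟨b, hb, h⟩
    rw [Nat.eq_of_beq_eq_true h]; exact hb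
  · intro h; exact ⟨a, h, Nat.beq_refl a⟩

lemma card_dec_mk {n : ℕ} {l : List ℕ} (h : l.Nodup) (hl : ∀ a ∈ l, a < n) :
    (dec n (mk l)).card = l.length := by
  have e : (dec n (mk l)).map Fin.valEmbedding = l.toFinset := by
    ext a
    rw [mem_map, List.mem_toFinset]
    constructor
    · rintro ⟨i, hi, rfl⟩
      rw [mem_dec, testBit_mk] at hi
      exact hi
    · intro ha
      exact ⟨⟨a, hl a ha⟩, by rw [mem_dec, testBit_mk]; exact ha, rfl⟩
  rw [← card_map Fin.valEmbedding, e, List.toFinset_card_of_nodup h]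

lemma mk_lt {n : ℕ} {l : List ℕ} (hl : ∀ a ∈ l, a < n) : mk l < 2 ^ n := by
  induction l with
  | nil => exact Nat.two_pow_pos n
  | cons a l ih =>
    rw [mk_cons]
    apply Nat.or_lt_two_pow
    · exact Nat.pow_lt_pow_right (by norm_num) (hl a (by simp))
    · exact ih (fun b hb => hl b (by simp [hb]))

/-- the 25 tetrahedra of the block -/
def RTl : List (List ℕ) :=
  [[2, 3, 8, 9], [0, 1, 6, 8], [1, 2, 6, 8], [0, 2, 6, 7], [0, 2, 7, 8], [0, 2, 6, 8],
   [3, 4, 9, 11], [4, 5, 9, 11], [3, 5, 9, 10], [3, 5, 10, 11], [3, 5, 9, 11], [0, 1, 8, 11],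
   [1, 2, 8, 11], [2, 3, 8, 11], [0, 3, 8, 9], [0, 3, 9, 10], [0, 3, 10, 11], [0, 3, 8, 11],
   [2, 3, 6, 9], [3, 4, 6, 9], [4, 5, 6, 9], [2, 5, 6, 7], [2, 5, 7, 8], [2, 5, 8, 9],
   [2, 5, 6, 9]]

/-- the 16 interior edges of the block -/
def IEl : List (List ℕ) :=
  [[0, 2], [0, 3], [1, 8], [2, 5], [2, 7], [2, 8], [2, 9], [3, 5], [3, 8], [3, 9], [3, 10],
   [4, 9], [6, 8], [6, 9], [8, 11], [9, 11]]

/-- the 40 interior triangles of the block -/
def ITl : List (List ℕ) :=
  [[0, 1, 8], [0, 2, 6], [0, 2, 7], [0, 2, 8], [0, 3, 8], [0, 3, 9], [0, 3, 10], [0, 3, 11],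
   [0, 6, 8], [0, 8, 11], [1, 2, 8], [1, 6, 8], [1, 8, 11], [2, 3, 8], [2, 3, 9], [2, 5, 6],
   [2, 5, 7], [2, 5, 8], [2, 5, 9], [2, 6, 7], [2, 6, 8], [2, 6, 9], [2, 7, 8], [2, 8, 9],
   [2, 8, 11], [3, 4, 9], [3, 5, 9], [3, 5, 10], [3, 5, 11], [3, 6, 9], [3, 8, 9], [3, 8, 11],
   [3, 9, 10], [3, 9, 11], [3, 10, 11], [4, 5, 9], [4, 6, 9], [4, 9, 11], [5, 6, 9], [5, 9, 11]]

/-- the hubs of the block -/
def HRl : List ℕ := [2, 3, 8, 9]

/-- a list of faces as a finset -/
def fam (L : List (List ℕ)) : Finset (Finset (Fin 12)) := (L.map (fun a => dec 12 (mk a))).toFinset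

lemma mem_fam {L : List (List ℕ)} {ρ : Finset (Fin 12)} : ρ ∈ fam L ↔ ∃ a ∈ L, dec 12 (mk a) = ρ := by
  rw [fam, List.mem_toFinset, List.mem_map]

/-- a list of `k`-element faces -/
def okFam (k : ℕ) (L : List (List ℕ)) : Prop :=
  (∀ a ∈ L, a.Nodup ∧ (∀ x ∈ a, x < 12) ∧ a.length = k) ∧ (L.map mk).Nodup

lemma card_of_mem_fam {k : ℕ} {L : List (List ℕ)} (h : okFam k L) {ρ : Finset (Fin 12)}
    (hρ : ρ ∈ fam L) : ρ.card = k := by
  obtain ⟨a, ha, rfl⟩ := mem_fam.1 hρ
  obtain ⟨h1, h2, h3⟩ := h.1 a ha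
  rw [card_dec_mk h1 h2, h3]

lemma sum_fam {k : ℕ} {L : List (List ℕ)} (h : okFam k L) :
    ∑ ρ ∈ fam L, (-1 : ℤ) ^ ρ.card = L.length * (-1) ^ k := by
  rw [sum_congr rfl (fun ρ hρ => by rw [card_of_mem_fam h hρ]), sum_const, nsmul_eq_mul]
  congr 2
  rw [fam, List.toFinset_card_of_nodup, List.length_map]
  have h2 := h.2
  rw [List.Nodup, List.pairwise_map] at h2 ⊢
  refine List.Pairwise.imp_of_mem ?_ h2
  intro a b ha hb hab he
  exact hab (dec_inj (mk_lt (h.1 a ha).2.1) (mk_lt (h.1 b hb).2.1) he)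

/-- the interior faces of the block -/
def CR : Finset (Finset (Fin 12)) := fam IEl ∪ fam ITl ∪ fam RTl

/-- the hubs of the block -/
def HR : Finset (Fin 12) := dec 12 (mk HRl)

lemma okE : okFam 2 IEl := by unfold okFam; decide +kernel
lemma okT : okFam 3 ITl := by unfold okFam; decide +kernel
lemma okF : okFam 4 RTl := by unfold okFam; decide +kernel

lemma chkT1 : allR (fun a => anyR (fun e => sub (mk e) (mk a)) IEl) ITl = true := by decide +kernel
lemma chkT2 : allR (fun a => anyR (fun F => sub (mk a) (mk F)) RTl) ITl = true := by decide +kernel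
lemma chkE2 : allR (fun a => anyR (fun F => sub (mk a) (mk F)) RTl) IEl = true := by decide +kernel
lemma chkF1 : allR (fun a => anyR (fun e => sub (mk e) (mk a)) IEl) RTl = true := by decide +kernel

/-- `F ∖ x` is interior if it contains an interior edge -/
lemma chkUp : allR (fun F => allR (fun x => allR (fun e =>
    Bool.rec true (memR (clr (Nat.pow 2 x) (mk F)) (mapR mk ITl)) (sub (mk e) (clr (Nat.pow 2 x) (mk F))))
      IEl) F) RTl = true := by decide +kernel

lemma chkTet : allR (fun F => allR (fun x => allR (fun y => Bool.rec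
    (Bool.rec (memR (clr (Nat.pow 2 y) (mk F)) (mapR mk ITl)) true
      (memR (clr (Nat.pow 2 x) (mk F)) (mapR mk ITl))) true (Nat.beq x y)) F) F) RTl = true := by
  decide +kernel

lemma chkTri : allR (fun T => allR (fun v => Bool.rec (anyR (fun x =>
    Bool.rec (Bool.rec true false (memR (mk [v, x]) (mapR mk IEl))) false (Nat.beq x v)) T) true
      (memR v HRl)) T) ITl = true := by
  decide +kernel

lemma chkEdge : allR (fun e => anyR (fun v => memR v HRl) e) IEl = true := by decide +kernel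

lemma card_CR {ρ : Finset (Fin 12)} (h : ρ ∈ CR) :
    (ρ ∈ fam IEl ∧ ρ.card = 2) ∨ (ρ ∈ fam ITl ∧ ρ.card = 3) ∨ (ρ ∈ fam RTl ∧ ρ.card = 4) := by
  rw [CR, mem_union, mem_union] at h
  rcases h with (h | h) | h
  · exact Or.inl ⟨h, card_of_mem_fam okE h⟩
  · exact Or.inr (Or.inl ⟨h, card_of_mem_fam okT h⟩)
  · exact Or.inr (Or.inr ⟨h, card_of_mem_fam okF h⟩)

lemma dec_mk_subset {a b : List ℕ} (h : sub (mk a) (mk b) = true) : dec 12 (mk a) ⊆ dec 12 (mk b) :=
  dec_subset_of_sub h

lemma mem_of_mem_dec {a : List ℕ} {x : Fin 12} (h : x ∈ dec 12 (mk a)) : (x : ℕ) ∈ a := by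
  rwa [mem_dec, testBit_mk] at h

lemma erase_mem_T {a : List ℕ} {x : Fin 12}
    (h : memR (clr (2 ^ (x : ℕ)) (mk a)) (mapR mk ITl) = true) :
    (dec 12 (mk a)).erase x ∈ fam ITl := by
  rw [memR_iff, mapR_eq, List.mem_map] at h
  obtain ⟨t, ht, h⟩ := h
  rw [mem_fam]
  exact ⟨t, ht, by rw [h, dec_clr]⟩

theorem rblock : RBlock (fam RTl) (fam IEl) CR HR := by
  constructor
  · -- euler
    have d1 : Disjoint (fam IEl) (fam ITl) := by
      rw [Finset.disjoint_left]
      intro ρ h h'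
      have e1 := card_of_mem_fam okE h
      have e2 := card_of_mem_fam okT h'
      omega
    have d2 : Disjoint (fam IEl ∪ fam ITl) (fam RTl) := by
      rw [Finset.disjoint_left]
      intro ρ h h'
      have e2 := card_of_mem_fam okF h'
      rw [mem_union] at h
      rcases h with h | h
      · have e1 := card_of_mem_fam okE h; omega
      · have e1 := card_of_mem_fam okT h; omega
    rw [CR, sum_union d2, sum_union d1, sum_fam okE, sum_fam okT, sum_fam okF]
    have l1 : IEl.length = 16 := by decide +kernel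
    have l2 : ITl.length = 40 := by decide +kernel
    have l3 : RTl.length = 25 := by decide +kernel
    rw [l1, l2, l3]
    norm_num
  · -- sub1
    intro ρ hρ
    rcases card_CR hρ with h | h | h
    · exact ⟨ρ, h.1, Subset.rfl⟩
    · obtain ⟨a, ha, rfl⟩ := mem_fam.1 h.1
      obtain ⟨e, he, h'⟩ := anyR_iff.1 (allR_iff.1 chkT1 a ha)
      exact ⟨_, mem_fam.2 ⟨e, he, rfl⟩, dec_mk_subset h'⟩
    · obtain ⟨a, ha, rfl⟩ := mem_fam.1 h.1
      obtain ⟨e, he, h'⟩ := anyR_iff.1 (allR_iff.1 chkF1 a ha)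
      exact ⟨_, mem_fam.2 ⟨e, he, rfl⟩, dec_mk_subset h'⟩
  · -- sub2
    intro ρ hρ
    rcases card_CR hρ with h | h | h
    · obtain ⟨a, ha, rfl⟩ := mem_fam.1 h.1
      obtain ⟨e, he, h'⟩ := anyR_iff.1 (allR_iff.1 chkE2 a ha)
      exact ⟨_, mem_fam.2 ⟨e, he, rfl⟩, dec_mk_subset h'⟩
    · obtain ⟨a, ha, rfl⟩ := mem_fam.1 h.1
      obtain ⟨e, he, h'⟩ := anyR_iff.1 (allR_iff.1 chkT2 a ha)
      exact ⟨_, mem_fam.2 ⟨e, he, rfl⟩, dec_mk_subset h'⟩
    · exact ⟨ρ, h.1, Subset.rfl⟩
  · -- up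
    intro F hF e he heF τ hτ
    rw [mem_Icc] at hτ
    obtain ⟨h1, h2⟩ := hτ
    have h1 : e ⊆ τ := h1
    have h2 : τ ⊆ F := h2
    have ce := card_of_mem_fam okE he
    have cF := card_of_mem_fam okF hF
    have c1 := card_le_card h1
    have c2 := card_le_card h2
    rw [CR, mem_union, mem_union]
    have c3 : τ.card = 2 ∨ τ.card = 3 ∨ τ.card = 4 := by omega
    rcases c3 with c3 | c3 | c3
    · left; left
      rwa [← eq_of_subset_of_card_le h1 (by omega)]
    · left; right
      have hne : τ ≠ F := by rintro rfl; omega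
      obtain ⟨x, hxF, hxτ⟩ := exists_of_ssubset (Finset.ssubset_iff_subset_ne.2 ⟨h2, hne⟩)
      have e1 : τ = F.erase x := by
        apply eq_of_subset_of_card_le
        · rw [subset_erase]; exact ⟨h2, hxτ⟩
        · rw [card_erase_of_mem hxF]; omega
      obtain ⟨a, ha, rfl⟩ := mem_fam.1 hF
      obtain ⟨b, hb, rfl⟩ := mem_fam.1 he
      have h3 := allR_iff.1 (allR_iff.1 (allR_iff.1 chkUp a ha) x (mem_of_mem_dec hxF)) b hb
      have h4 : sub (mk b) (clr (Nat.pow 2 x) (mk a)) = true := by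
        apply sub_of_dec_subset (n := 12) (mk_lt (okE.1 b hb).2.1)
        have := dec_clr (F := mk a) x
        change dec 12 (mk b) ⊆ dec 12 (clr (2 ^ (x : ℕ)) (mk a))
        rw [this, ← e1]; exact h1
      rw [h4] at h3
      rw [e1]
      exact erase_mem_T h3
    · right
      rwa [eq_of_subset_of_card_le h2 (by omega)]
  · intro ρ hρ
    rcases card_CR hρ with h | h | h <;> omega
  · intro ρ hρ
    rcases card_CR hρ with h | h | h <;> omega
  · -- tet
    intro τ hτ hc x hx y hy hxy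
    have hF : τ ∈ fam RTl := by
      rcases card_CR hτ with h | h | h
      · omega
      · omega
      · exact h.1
    obtain ⟨a, ha, rfl⟩ := mem_fam.1 hF
    have h1 := allR_iff.1 (allR_iff.1 (allR_iff.1 chkTet a ha) x (mem_of_mem_dec hx)) y
      (mem_of_mem_dec hy)
    have h2 : Nat.beq (x : ℕ) (y : ℕ) = false := by
      cases hb : Nat.beq (x : ℕ) (y : ℕ)
      · rfl
      · exact absurd (Fin.ext (Nat.eq_of_beq_eq_true hb)) hxy
    rw [h2] at h1
    cases h3 : memR (clr (Nat.pow 2 x) (mk a)) (mapR mk ITl)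
    · rw [h3] at h1
      right
      rw [CR, mem_union, mem_union]
      exact Or.inl (Or.inr (erase_mem_T h1))
    · left
      rw [CR, mem_union, mem_union]
      exact Or.inl (Or.inr (erase_mem_T h3))
  · -- tri
    intro τ hτ hc v hv hall
    have hF : τ ∈ fam ITl := by
      rcases card_CR hτ with h | h | h
      · omega
      · exact h.1
      · omega
    obtain ⟨a, ha, rfl⟩ := mem_fam.1 hF
    have h1 := allR_iff.1 (allR_iff.1 chkTri a ha) v (mem_of_mem_dec hv)
    cases h2 : memR (v : ℕ) HRl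
    · rw [h2] at h1
      exfalso
      obtain ⟨x, hx, h3⟩ := anyR_iff.1 h1
      have hx12 : x < 12 := (okT.1 a ha).2.1 x hx
      cases h4 : Nat.beq x (v : ℕ)
      · rw [h4] at h3
        have hx' : (⟨x, hx12⟩ : Fin 12) ∈ dec 12 (mk a) := by
          rw [mem_dec, testBit_mk]; exact hx
        have hne : (⟨x, hx12⟩ : Fin 12) ≠ v := by
          rintro rfl
          rw [Nat.beq_refl] at h4
          exact absurd h4 (by simp)
        have h5 := hall _ hx' hne
        have h6 : ({v, (⟨x, hx12⟩ : Fin 12)} : Finset (Fin 12)).card = 2 := card_pair hne.symm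
        have h7 : ({v, (⟨x, hx12⟩ : Fin 12)} : Finset (Fin 12)) ∈ fam IEl := by
          rcases card_CR h5 with h | h | h
          · exact h.1
          · omega
          · omega
        obtain ⟨b, hb, h8⟩ := mem_fam.1 h7
        have h9 : dec 12 (mk [(v : ℕ), x]) = {v, (⟨x, hx12⟩ : Fin 12)} := by
          ext i
          rw [mem_dec, testBit_mk, mem_insert, mem_singleton, List.mem_cons, List.mem_singleton,
            Fin.ext_iff, Fin.ext_iff]
        have h10 : mk b = mk [(v : ℕ), x] := by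
          apply dec_inj (n := 12) (mk_lt (okE.1 b hb).2.1) (mk_lt ?_)
          · rw [h8, h9]
          · intro y hy
            rw [List.mem_cons, List.mem_singleton] at hy
            rcases hy with rfl | rfl
            · exact v.2
            · exact hx12
        have h11 : memR (mk [(v : ℕ), x]) (mapR mk IEl) = true := by
          rw [memR_iff, mapR_eq, List.mem_map]
          exact ⟨b, hb, h10⟩
        rw [h11] at h3
        exact absurd h3 (by simp)
      · rw [h4] at h3
        exact absurd h3 (by simp)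
    · rw [HR, mem_dec, testBit_mk]
      exact memR_iff.1 h2
  · -- edge
    intro τ hτ hc
    have hF : τ ∈ fam IEl := by
      rcases card_CR hτ with h | h | h
      · exact h.1
      · omega
      · omega
    obtain ⟨a, ha, rfl⟩ := mem_fam.1 hF
    obtain ⟨v, hv, h1⟩ := anyR_iff.1 (allR_iff.1 chkEdge a ha)
    have hv12 : v < 12 := (okE.1 a ha).2.1 v hv
    refine ⟨⟨v, hv12⟩, ?_, ?_⟩
    · rw [mem_dec, testBit_mk]; exact hv
    · rw [HR, mem_dec, testBit_mk]; exact memR_iff.1 h1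

end Pool.Agent.Lib.MP_c23581_co
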